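import Pool.Agent.P.MP_257122_al.X.Mark

/-!
# Nielsen moves and the core for groups of matrices
-/

namespace Pool.Agent.P.MP_257122_al.X

open Matrix

theorem lift_pull {b c : ℕ} {H : Type} [Group H] (q : Fr c →* Fr b) (g : Fin b → H) :
    FreeGroup.lift (fun i => FreeGroup.lift g (q (FreeGroup.of i))) = (FreeGroup.lift g).comp q :=
  FreeGroup.ext_hom _ _ fun _ => FreeGroup.lift_apply_of

/-- The group of matrices generated by the values of words. -/
def pull {b c : ℕ} (q : Fr c →* Fr b) (x : MG b) : MG c :=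
  ⟨x.1, fun i => FreeGroup.lift x.2.1 (q (FreeGroup.of i)), lift_pull q x.2.1 ▸ x.2.2.comp q⟩

theorem ker_pull {b c : ℕ} (q : Fr c →* Fr b) (x : MG b) :
    kerS (pull q x) = (kerS x).comap q :=
  (congrArg MonoidHom.ker (lift_pull q x.2.1)).trans (MonoidHom.comap_ker _ _).symm

/-- Input of the core: two groups on the same generators and normal generators of `N`. -/
abbrev CoreIn : Type := Σ b : ℕ, MG b × MG b × List (Fr b)

/-- The first relation subgroup. -/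
abbrev CoreIn.S (a : CoreIn) : Subgroup (Fr a.1) := kerS a.2.1

/-- The second relation subgroup. -/
abbrev CoreIn.S' (a : CoreIn) : Subgroup (Fr a.1) := kerS a.2.2.1

/-- The common normal subgroup. -/
abbrev CoreIn.N (a : CoreIn) : Subgroup (Fr a.1) := Subgroup.normalClosure {y | y ∈ a.2.2.2}

/-- Admissible inputs of the core. -/
def CoreIn.ok (a : CoreIn) : Prop := a.S ≤ a.N ∧ a.S' ≤ a.N ∧ VAb a.N

/-- The two groups have finite rank, `N` is nilpotent in both, and they are not isomorphic. -/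
def CoreIn.Lo (a : CoreIn) : Prop :=
  FinRank (Fr a.1 ⧸ a.S) ∧ FinRank (Fr a.1 ⧸ a.S') ∧ NilMod a.N a.S ∧ NilMod a.N a.S' ∧
    ¬ Nonempty ((Fr a.1 ⧸ a.S) ≃* (Fr a.1 ⧸ a.S'))

/-- No automorphism congruent to the identity carries `S` to `S'`. -/
def CoreIn.Hi (a : CoreIn) : Prop :=
  ¬ ∃ α : Fr a.1 ≃* Fr a.1, a.S.map α.toMonoidHom = a.S' ∧ ∀ g, α g * g⁻¹ ∈ a.N

/-- Two groups rewritten on the union of the generators. -/
def nielIn (p p' : Pres) (u : Fin p.1 → Fr p'.1) (v : Fin p'.1 → Fr p.1) (Y : List (Fr p.1)) :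
    CoreIn :=
  ⟨p.1 + p'.1, pull (nlLift FreeGroup.of v) p.2, pull (nlLift u FreeGroup.of) p'.2,
    Y.map (inlF p.1 p'.1) ++ tieR v⟩

section
variable {p p' : Pres} {u : Fin p.1 → Fr p'.1} {v : Fin p'.1 → Fr p.1} {Y : List (Fr p.1)}
  {N' : Subgroup (Fr p'.1)}

theorem niel_ok [N'.Normal] (hS : p.S ≤ Subgroup.normalClosure {y | y ∈ Y}) (hS' : p'.S ≤ N')
    (hV : VAb (Subgroup.normalClosure {y | y ∈ Y}))
    (h : Compat (Subgroup.normalClosure {y | y ∈ Y}) N' (FreeGroup.lift u) (FreeGroup.lift v)) :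
    (nielIn p p' u v Y).ok := by
  have e1 : (nielIn p p' u v Y).S = _ := ker_pull (nlLift FreeGroup.of v) p.2
  have e2 : (nielIn p p' u v Y).S' = _ := ker_pull (nlLift u FreeGroup.of) p'.2
  have e3 : (nielIn p p' u v Y).N = _ := (nl_retL v).ncl Y
  refine ⟨?_, ?_, ?_⟩
  · rw [e1, e3]
    exact Subgroup.comap_mono hS
  · rw [e2, e3.trans (nl_N h)]
    exact Subgroup.comap_mono hS'
  · rw [e3]
    exact hV.comap _

theorem niel_lo [N'.Normal]
    (h : Compat (Subgroup.normalClosure {y | y ∈ Y}) N' (FreeGroup.lift u) (FreeGroup.lift v))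
    (hG : FinRank p.G) (hG' : FinRank p'.G)
    (hN : NilMod (Subgroup.normalClosure {y | y ∈ Y}) p.S) (hN' : NilMod N' p'.S)
    (hI : ¬ Nonempty (p.G ≃* p'.G)) : (nielIn p p' u v Y).Lo := by
  have e1 : (nielIn p p' u v Y).S = _ := ker_pull (nlLift FreeGroup.of v) p.2
  have e2 : (nielIn p p' u v Y).S' = _ := ker_pull (nlLift u FreeGroup.of) p'.2
  have e3 : (nielIn p p' u v Y).N = _ := (nl_retL v).ncl Y
  obtain ⟨φ⟩ := (nl_retL v).iso (ker_pull (nlLift FreeGroup.of v) p.2)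
  obtain ⟨ψ⟩ := (nl_retR u).iso (ker_pull (nlLift u FreeGroup.of) p'.2)
  refine ⟨hG.of_injective φ.toMonoidHom φ.injective, hG'.of_injective ψ.toMonoidHom ψ.injective,
    ?_, ?_, fun ⟨χ⟩ => hI ⟨(φ.symm.trans χ).trans ψ⟩⟩
  · rw [e1, e3]
    exact hN.comap _
  · rw [e2, e3.trans (nl_N h)]
    exact hN'.comap _

theorem niel_hi [N'.Normal] (hS : p.S ≤ Subgroup.normalClosure {y | y ∈ Y}) (hS' : p'.S ≤ N')
    (h : Compat (Subgroup.normalClosure {y | y ∈ Y}) N' (FreeGroup.lift u) (FreeGroup.lift v))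
    (hH : (nielIn p p' u v Y).Hi) {u₀ : Fr p.1 →* Fr p'.1} {v₀ : Fr p'.1 →* Fr p.1}
    (h₀ : Compat p.S p'.S u₀ v₀) (hu : ∀ i, u i * (u₀ (FreeGroup.of i))⁻¹ ∈ N')
    (hv : ∀ i, v i * (v₀ (FreeGroup.of i))⁻¹ ∈ Subgroup.normalClosure {y | y ∈ Y}) : False := by
  have e1 : (nielIn p p' u v Y).S = _ := ker_pull (nlLift FreeGroup.of v) p.2
  have e2 : (nielIn p p' u v Y).S' = _ := ker_pull (nlLift u FreeGroup.of) p'.2
  have e3 : (nielIn p p' u v Y).N = _ := (nl_retL v).ncl Y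
  let c : Fin p'.1 → Fr p.1 := fun y => (v₀ (FreeGroup.of y))⁻¹ * v y
  let d : Fin p.1 → Fr p'.1 := fun x => (u x)⁻¹ * u₀ (FreeGroup.of x)
  have k1 : ∀ w, nlLift u FreeGroup.of (nlB d (inlF p.1 p'.1 w)) = u₀ w := fun w =>
    DFunLike.congr_fun (FreeGroup.ext_hom
      (((nlLift u FreeGroup.of).comp (nlB d)).comp (inlF p.1 p'.1)) u₀ fun x => by
      rw [MonoidHom.comp_apply, MonoidHom.comp_apply, nl_inl, nlB_l, map_mul, nlLift_l,
        (nl_retR u).qi, mul_inv_cancel_left]) w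
  have k2 : ∀ w, ((nlLift u FreeGroup.of (nlB d (nlA c w)) : Fr p'.1) : p'.G) =
      (u₀ (nlLift FreeGroup.of v w) : Fr p'.1) :=
    nl_cong p'.S (((nlLift u FreeGroup.of).comp (nlB d)).comp (nlA c))
      (u₀.comp (nlLift FreeGroup.of v)) fun z => by
      simp only [MonoidHom.comp_apply]
      refine Fin.addCases (fun x => ?_) (fun y => ?_) z
      · rw [nlA_l, ← nl_inl, k1, (nl_retL v).qi]
      · rw [nlA_r, map_mul, map_mul, k1, nlB_r, nlLift_r, nlLift_r, map_mul, map_inv,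
          QuotientGroup.mk_mul, QuotientGroup.mk_mul, QuotientGroup.mk_inv,
          gb_eq.1 (h₀.2.2.2 (FreeGroup.of y)), mul_inv_cancel_left]
  refine hH ⟨(nlAe c).trans (nlBe d), ?_, fun g => ?_⟩
  · have k3 : (nielIn p p' u v Y).S =
        (nielIn p p' u v Y).S'.comap ((nlAe c).trans (nlBe d)).toMonoidHom := by
      ext w
      rw [e1, e2]
      exact ((nl_mem (k2 w)).trans (h₀.nl_iff _)).symm
    rw [k3]
    exact Subgroup.map_comap_eq_self_of_surjective ((nlAe c).trans (nlBe d)).surjective _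
  · have e4 := (nl_retL v).ncl Y
    have k4 := nlA_cong (c := c)
      (K := Subgroup.normalClosure {y | y ∈ Y.map (inlF p.1 p'.1) ++ tieR v}) (fun y => by
      rw [e4, Subgroup.mem_comap, (nl_retL v).qi]
      exact Subgroup.Normal.mem_comm inferInstance (hv y)) g
    have k5 := nlB_cong (c := d)
      (K := Subgroup.normalClosure {y | y ∈ Y.map (inlF p.1 p'.1) ++ tieR v}) (fun x => by
      rw [e4.trans (nl_N h), Subgroup.mem_comap, (nl_retR u).qi]
      have := N'.inv_mem (hu x)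
      rw [_root_.mul_inv_rev, inv_inv] at this
      exact Subgroup.Normal.mem_comm inferInstance this) (nlA c g)
    have k6 := mul_mem k5 k4
    rw [mul_assoc, inv_mul_cancel_left] at k6
    exact k6

end

variable {A : Type} [Rep A]

section
open FOpsAux

theorem cs_pull {b c : A → ℕ} {q : ∀ a, Fr (c a) →* Fr (b a)} {x : ∀ a, MG (b a)} (hq : CS q)
    (hx : CS x) : CS (fun a => pull (q a) (x a)) :=
  have h1 : CS (fun a => (x a).1) := hx.sfst
  have h2 : CS (fun a => (x a).2) := hx.ssnd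
  have h3 : CS (fun a i => FreeGroup.lift (x a).2.1 (q a (FreeGroup.of i))) :=
    CS.lam (CS.homApp ((cs_lift h1 h2.val).comp s1) (CS.homApp (hq.comp s1) (CS.freeOf s2)))
  CS.sigmaIntro h1 h3

theorem cs_nielIn {p p' : A → Pres} {u : ∀ a, Fin (p a).1 → Fr (p' a).1}
    {v : ∀ a, Fin (p' a).1 → Fr (p a).1} {Y : ∀ a, List (Fr (p a).1)} (hp : CS p) (hp' : CS p')
    (hu : CS u) (hv : CS v) (hY : CS Y) : CS (fun a => nielIn (p a) (p' a) (u a) (v a) (Y a)) :=
  have k1 : CS (fun a => (p a).1) := hp.sfst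
  have k2 : CS (fun a => (p a).2) := FEnumAux.s2 hp
  have l1 : CS (fun a => (p' a).1) := hp'.sfst
  have l2 : CS (fun a => (p' a).2) := FEnumAux.s2 hp'
  have q1 : CS (fun a => nlLift FreeGroup.of (v a)) :=
    CS.freeLift MulF.free InvF.free OneF.free (CS.finAppend k1 (CS.lam (CS.freeOf s2)) hv)
  have q2 : CS (fun a => nlLift (u a) FreeGroup.of) :=
    CS.freeLift MulF.free InvF.free OneF.free (CS.finAppend k1 hu (CS.lam (CS.freeOf s2)))
  CS.smk0 (CS.add AddF.nat k1 l1) (CS.pair (cs_pull q1 k2) (CS.pair (cs_pull q2 l2)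
      (CS.append (CS.map (CS.homCoe cs_inlF) hY) (cs_tieR k1 l1 hv))))

end

theorem btw_model {a : A → CoreIn} {m e : A → ℕ} {γ : ∀ x, Fin (a x).1 → GL (Fin (m x)) ℚ}
    {M : ∀ x, Model ((a x).1 + (a x).1)} (ha : CS a) (he : CS e) (hM : CS M)
    (hok : ∀ x, (a x).ok) (hγ : ∀ x, (a x).N ≤ (FreeGroup.lift (γ x)).ker)
    (hMo : ∀ x, (M x).ok (kerI (Fin.append (γ x) (γ x))) (e x)) :
    Btw (fun x => ∀ β, ¬ (M x).Pass (e x + 1) (a x).N (a x).S (a x).S' β)
      (fun x => (a x).Hi) := by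
  obtain ⟨κ, hκ, hκ0, hκ1⟩ := exists_kap
  have hb : CS (fun x => (a x).1) := ha.sfst
  have hbb : CS (fun x => (a x).1 + (a x).1) := CS.add AddF.nat hb hb
  have hn : CS (fun x => (M x).1) := hM.sfst
  have hw : CS (fun x => (M x).2.1) := hM.ssnd.fst
  have hg : CS (fun x => (M x).2.2.1) := hM.ssnd.snd.fst
  have h0 : CS (fun x => (M x).2.2.2.1) := hM.ssnd.snd.snd.fst
  have hc : CS (fun x => e x + 1) := CS.add AddF.nat he CS.const
  have hg' : CS (fun x i => (M x).2.2.1 (Fin.castAdd (a x).1 i)) :=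
    CS.lam (CS.app (hg.comp CS.id.sfst) (CS.finCastAdd CS.id.ssnd))
  have hY : CS (fun x => (a x).2.2.2.map (inlF (a x).1 (a x).1) ++
      tieR (FreeGroup.of : Fin (a x).1 → Fr (a x).1)) :=
    CS.append (CS.map (CS.homCoe cs_inlF) ha.ssnd.snd.snd)
      (cs_tieR hb hb (CS.lam (CS.freeOf CS.id.ssnd)))
  have g1 : CS (fun x => (a x).2.1) := ha.ssnd.fst
  have g2 : CS (fun x => (a x).2.2.1) := ha.ssnd.snd.fst
  have aB := fun x => adapt_big (hMo x) (hγ x)
  have aS := fun x => adapt_small (hMo x) (hγ x)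
  have hmB := CS.ambOf hbb hn hw hc hg
  have hmS := CS.ambOf hb hn hw hc hg'
  have dU : DS (fun x => ambOf (M x).2.1 (e x + 1) (M x).2.2.1) (fun x => (M x).big (a x).N) := by
    have := DS.mapNcl hbb hn hw hc hg hY fun x => comap_fold_ncl (a x).2.2.2 ▸ aB x
    refine CS.congr this fun x _ => ?_
    rw [← comap_fold_ncl]; rfl
  have dK : DS (fun x => ambOf (M x).2.1 (e x + 1) fun i => (M x).2.2.1 (Fin.castAdd (a x).1 i))
      (fun x => (M x).im (a x).S) :=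
    ds_ker hb g1.sfst hn hw hc (FEnumAux.s2 g1).val hg' (fun x => (a x).2.1.2.2) aS
      (fun x => ⟨inferInstance, (hok x).2.2⟩) fun x => (hok x).1
  have dK' : DS (fun x => ambOf (M x).2.1 (e x + 1) fun i => (M x).2.2.1 (Fin.castAdd (a x).1 i))
      (fun x => (M x).im (a x).S') :=
    ds_ker hb g2.sfst hn hw hc (FEnumAux.s2 g2).val hg' (fun x => (a x).2.2.1.2.2) aS
      (fun x => ⟨inferInstance, (hok x).2.2⟩) fun x => (hok x).2.1
  have cM : CoordF (fun x => Matrix (Fin (M x).1) (Fin (M x).1) ℚ) :=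
    CoordF.matrix (CFin.fin hn) Disc.fin (CFin.fin hn) Disc.fin
  have cV : CoordF (fun x => Fin (M x).1 → ℚ) := CoordF.pi (CFin.fin hn) Disc.fin
  have hev := cs_evalAt hn h0
  have lU : CS (fun x => logL (e x + 1) (M x).2.2.2.1 ((M x).big (a x).N)) :=
    CS.lmap cM cV hev (dU.logSpan hmB)
  have lK : CS (fun x => logL (e x + 1) (M x).2.2.2.1 ((M x).im (a x).S)) :=
    CS.lmap cM cV hev (dK.logSpan hmS)
  have lK' : CS (fun x => logL (e x + 1) (M x).2.2.2.1 ((M x).im (a x).S')) :=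
    CS.lmap cM cV hev (dK'.logSpan hmS)
  have o1 := cs_orbL hbb hn hg h0
  have o2 := cs_orbL hb hn hg' h0
  have hL : CS (fun x => (M x).lats (e x + 1) ((M x).big (a x).N) ((M x).im (a x).S)
      ((M x).im (a x).S')) :=
    CS.cons (o1.pair o1) (CS.cons (o2.pair o2) (CS.cons (lU.pair lU) (CS.cons (lK.pair lK') CS.nil)))
  have hT := cs_tens hb hM
  have hI : CS (fun x => (M x).bt (e x + 1) (κ (e x + 1)) (a x).N (a x).S (a x).S') := by
    unfold Model.bt
    refine CS.sigmaIntro ?_ ?_ <;> dsimp only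
    · exact hn
    · exact hT.pair (hL.pair (hκ.comp hc))
  have hbt := bt.comp (g := fun x => ⟨(M x).bt (e x + 1) (κ (e x + 1)) (a x).N (a x).S (a x).S',
    core_btok (hMo x) (hκ0 _)⟩) hI
  refine Btw.bind hbt ?_
  let B : Type := {q : Σ x, List (GL (Fin (M x).1) ℚ) //
    BTCover ((M q.1).bt (e q.1 + 1) (κ (e q.1 + 1)) (a q.1).N (a q.1).S (a q.1).S') q.2}
  have hP : CS (fun p : Σ x, GL (Fin (M x).1) ℚ =>
      ¬ (M p.1).Pass (e p.1 + 1) (a p.1).N (a p.1).S (a p.1).S' p.2) := by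
    have j0 : CS (fun p : Σ x, GL (Fin (M x).1) ℚ => p.1) := CS.id.sfst
    have jβ : CS (fun p : Σ x, GL (Fin (M x).1) ℚ => p.2) := CS.id.ssnd
    have n1 := cs_notIsoL (hn.comp j0) (hT.comp j0) (hL.comp j0) jβ
    have n2 := cs_notConj (hmB.comp j0) (fun p => ambOf_ok (aB _)) (dU.comp j0) (dU.comp j0)
      (fun p => ambOf_nrm (aB p.1) le_rfl) (fun p => ambOf_nrm (aB p.1) le_rfl) jβ
    have n3 := cs_notConj (hmS.comp j0) (fun p => ambOf_ok (aS _)) (dK.comp j0) (dK'.comp j0)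
      (fun p => ambOf_nrm (aS p.1) (hok _).1) (fun p => ambOf_nrm (aS p.1) (hok _).2.1) jβ
    refine (n1.or (n2.or n3)).of_iff fun p _ => ?_
    simp only [Model.Pass, not_and_or]
    rfl
  have i0 : CS (fun r : Σ q : B, GL (Fin (M q.1.1).1) ℚ => r.1.1.1) := CS.id.sfst.val.sfst
  have i1 : CS (fun r : Σ q : B, GL (Fin (M q.1.1).1) ℚ => r.2) := CS.id.ssnd
  have hA : CS (fun q : B => ∀ β ∈ q.1.2,
      ¬ (M q.1.1).Pass (e q.1.1 + 1) (a q.1.1).N (a q.1.1).S (a q.1.1).S' β) :=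
    CS.allMem CS.id.val.ssnd (hP.comp (g := fun r : Σ q : B, GL (Fin (M q.1.1).1) ℚ =>
      ⟨r.1.1.1, r.2⟩) (CS.sigmaIntro i0 i1))
  refine Btw.of_cs hA (fun q _ h β _ => h β) fun q _ h => ?_
  rintro ⟨α, hα, hαN⟩
  obtain ⟨β, hβ, hp⟩ := core_sound (hMo q.1.1) (hγ _) (hok _).1 (hok _).2.1
    (fun n wt Y h1 h2 => hκ1 n _ wt Y h1 h2) hα hαN q.2
  exact h β hβ hp

set_option synthInstance.maxSize 2000 in
theorem btw_core : Btw (fun a : {a : CoreIn // a.ok} => a.1.Lo) (fun a => a.1.Hi) := by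
  let T : {a : CoreIn // a.ok} → Type := fun a => Σ m : ℕ, ℕ × (Fin a.1.1 → GL (Fin m) ℚ)
  have hE : Enum T := by
    aesop (config := { terminal := true, enableSimp := false, maxRuleApplications := 3000, maxRuleApplicationDepth := 70, assumptionTransparency := .reducible }) (rule_sets := [-default, -builtin, Restrict]) (erase CS.mapp, CS.mlam) (add safe 1 (by dsimp only [T]))
  have hP : CS (fun q : Σ a : {a : CoreIn // a.ok}, Σ m : ℕ, ℕ × (Fin a.1.1 → GL (Fin m) ℚ) =>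
      ∀ y ∈ q.1.1.2.2.2, FreeGroup.lift q.2.2.2 y = 1) :=
    cs_kills CS.id.ssnd.sfst CS.id.ssnd.ssnd.snd CS.id.sfst.val.ssnd.snd.snd
  let B : Type := {q : Σ a, T a // ∀ y ∈ q.1.1.2.2.2, FreeGroup.lift q.2.2.2 y = 1}
  have hγ : ∀ q : B, q.1.1.1.N ≤ (FreeGroup.lift q.1.2.2.2).ker := fun q =>
    Subgroup.normalClosure_le_normal fun y hy => q.2 y hy
  have ha : CS (fun q : B => q.1.1.1) := CS.id.val.sfst.val
  have ht : CS (fun q : B => q.1.2) := CS.id.val.ssnd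
  have hmod := mv_model (CS.add AddF.nat ha.sfst ha.sfst) ht.sfst ht.ssnd.fst
    (CS.finAppend ha.sfst ht.ssnd.snd ht.ssnd.snd)
  have key : Btw (fun q : B => ∀ M : Model (q.1.1.1.1 + q.1.1.1.1),
      M.ok (kerI (Fin.append q.1.2.2.2 q.1.2.2.2)) q.1.2.2.1 →
        ∀ β, ¬ M.Pass (q.1.2.2.1 + 1) q.1.1.1.N q.1.1.1.S q.1.1.1.S' β)
      (fun q => q.1.1.1.Hi) := by
    refine Btw.bind hmod ?_
    let C : Type := {r : Σ q : B, Model (q.1.1.1.1 + q.1.1.1.1) //
      r.2.ok (kerI (Fin.append r.1.1.2.2.2 r.1.1.2.2.2)) r.1.1.2.2.1}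
    have jj : CS (fun r : C => r.1) := CS.val (α := fun _ => Σ q : B, Model (q.1.1.1.1 + q.1.1.1.1))
      CS.id
    have j0 : CS (fun r : C => r.1.1) := jj.sfst
    have jM : CS (fun r : C => r.1.2) := jj.ssnd
    exact (btw_model (ha.comp j0) (ht.comp j0).ssnd.fst jM (fun r => r.1.1.1.1.2)
      (fun r => hγ r.1.1) (fun r => r.2)).mono (fun r _ h => h r.1.2 r.2) fun _ _ h => h
  refine (Btw.ex
    (L := fun a (x : T a) => ∃ _ : ∀ y ∈ a.1.2.2.2, FreeGroup.lift x.2.2 y = 1,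
      ∀ M : Model (a.1.1 + a.1.1), M.ok (kerI (Fin.append x.2.2 x.2.2)) x.2.1 →
        ∀ β, ¬ M.Pass (x.2.1 + 1) a.1.N a.1.S a.1.S' β)
    (H := fun a (x : T a) => ∃ _ : ∀ y ∈ a.1.2.2.2, FreeGroup.lift x.2.2 y = 1, a.1.Hi)
    hE (Btw.sub hP key)).mono ?_ ?_
  · rintro ⟨a, hS, hS', hV⟩ - ⟨hG, hG', hn, hn', hI⟩
    obtain ⟨m, e, γ, h1, h2⟩ := core_exists hV hS hS' hG hG' hn hn'
    exact ⟨⟨m, e, γ⟩, fun y hy => h1 (Subgroup.subset_normalClosure hy), fun M hM β hβ =>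
      hI (core_complete hM h1 hS hS' (h2 M hM) hβ)⟩
  · rintro a - ⟨x, -, h⟩
    exact h

end Pool.Agent.P.MP_257122_al.X
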