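import Pool.Agent.P.MP_257122_al.X.Defs

/-!
# Coverings by cosets

PLAN.  `cs_cov`: given the commutation, the covering holds iff it holds for `w = 1` and for all
`w = s * x`, `w = s * x⁻¹` with `s ∈ r` and `x` a generator (induction on words, `zp_add` in the
quotient).  `exists_cov`: `1` and representatives of the other cosets of `T`.
-/

namespace Pool.Agent.P.MP_257122_al.X

open scoped commutatorElement

theorem exists_cov {G : Type} [Group G] {k : ℕ} {T N : Subgroup G} [T.FiniteIndex]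
    {τ : Fin k → G} (h : IsMark T N τ) : ∃ r, Cov N τ r ∧ ∀ s ∈ r, s = 1 ∨ ¬ s ∈ T := by
  classical
  have := Fintype.ofFinite (G ⧸ T)
  refine ⟨1 :: ((Finset.univ : Finset (G ⧸ T)).toList.map fun q => q.out⁻¹).filter (¬ · ∈ T),
    ⟨fun i j => h.2.1 (Subgroup.commutator_mem_commutator (h.2.2.1 i) (h.2.2.1 j)), fun w => ?_⟩,
    fun s hs => (List.mem_cons.1 hs).imp_right fun hs => by simpa using (List.mem_filter.1 hs).2⟩
  by_cases hw : w ∈ T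
  · exact ⟨1, List.mem_cons_self, h.2.2.2.1 _ (by simpa using hw)⟩
  · have e : w⁻¹⁻¹ * ((w⁻¹ : G) : G ⧸ T).out ∈ T := QuotientGroup.eq.1 (QuotientGroup.out_eq' _).symm
    rw [inv_inv] at e
    refine ⟨((w⁻¹ : G) : G ⧸ T).out⁻¹, List.mem_cons_of_mem _ (List.mem_filter.2 ⟨List.mem_map.2
      ⟨_, Finset.mem_toList.2 (Finset.mem_univ _), rfl⟩, decide_eq_true fun h' => hw ?_⟩),
      h.2.2.2.1 _ (by rwa [inv_inv])⟩
    simpa using T.mul_mem e h'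

namespace CovA

theorem cov_iff {b k : ℕ} {N : Subgroup (Fr b)} [N.Normal] {τ : Fin k → Fr b} {r : List (Fr b)} :
    ((∀ i j, ⁅τ i, τ j⁆ ∈ N) ∧ (∃ s ∈ r, ∃ t, 1 * s⁻¹ * (zp τ t)⁻¹ ∈ N) ∧
      ∀ s ∈ r, ∀ x, (∃ s' ∈ r, ∃ t, s * FreeGroup.of x * s'⁻¹ * (zp τ t)⁻¹ ∈ N) ∧
        ∃ s' ∈ r, ∃ t, s * (FreeGroup.of x)⁻¹ * s'⁻¹ * (zp τ t)⁻¹ ∈ N) ↔ Cov N τ r := by
  refine ⟨fun ⟨h1, h2, h3⟩ => ⟨h1, fun w => ?_⟩, fun h => ⟨h.1, h.2 _, fun s _ x => ⟨h.2 _, h.2 _⟩⟩⟩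
  have hc : ∀ i j, QuotientGroup.mk' N (τ i) * QuotientGroup.mk' N (τ j) =
      QuotientGroup.mk' N (τ j) * QuotientGroup.mk' N (τ i) := fun i j =>
    commutatorElement_eq_one_iff_mul_comm.1 ((QuotientGroup.eq_one_iff ⁅τ i, τ j⁆).2 (h1 i j))
  have step : ∀ y : Fr b, (∀ s ∈ r, ∃ s' ∈ r, ∃ t, s * y * s'⁻¹ * (zp τ t)⁻¹ ∈ N) →
      ∀ w, (∃ s ∈ r, ∃ t, w * s⁻¹ * (zp τ t)⁻¹ ∈ N) →
        ∃ s ∈ r, ∃ t, w * y * s⁻¹ * (zp τ t)⁻¹ ∈ N := by
    rintro y hy w ⟨s, hs, t, e⟩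
    obtain ⟨s', hs', t', e'⟩ := hy s hs
    refine ⟨s', hs', t + t', gb_eq.2 ?_⟩
    have a : QuotientGroup.mk' N _ = QuotientGroup.mk' N _ := gb_eq.1 e
    have a' : QuotientGroup.mk' N _ = QuotientGroup.mk' N _ := gb_eq.1 e'
    change QuotientGroup.mk' N _ = QuotientGroup.mk' N _
    rw [map_zp] at a a' ⊢
    rw [zp_add hc, ← a, ← a', ← map_mul]
    congr 1
    group
  have all : ∀ y w : Fr b, (∃ s ∈ r, ∃ t, w * s⁻¹ * (zp τ t)⁻¹ ∈ N) →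
      ∃ s ∈ r, ∃ t, w * y * s⁻¹ * (zp τ t)⁻¹ ∈ N := fun y => by
    induction y using FreeGroup.induction_on with
    | C1 => exact fun w hw => by rwa [mul_one]
    | of x => exact step _ fun s hs => (h3 s hs x).1
    | inv_of x _ => exact step _ fun s hs => (h3 s hs x).2
    | mul x y hx hy => exact fun w hw => by rw [← mul_assoc]; exact hy _ (hx w hw)
  simpa only [one_mul] using all w 1 h2

end CovA

variable {A : Type} [Rep A] {b k : A → ℕ}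

namespace CovA

open FOpsAux

theorem cs_in {N : ∀ a, Subgroup (Fr (b a))} {τ : ∀ a, Fin (k a) → Fr (b a)}
    {r : ∀ a, List (Fr (b a))} {w : ∀ a, Fr (b a)} (hk : CS k) (hN : CS N) (hτ : CS τ)
    (hr : CS r) (hw : CS w) :
    CS (fun a => ∃ s ∈ r a, ∃ t, w a * s⁻¹ * (zp (τ a) t)⁻¹ ∈ N a) :=
  CS.exMem hr (MVAAux.cs_inN (hk.comp s1) (hN.comp s1) (hτ.comp s1)
    (CS.mul MulF.free (hw.comp s1) (CS.inv InvF.free s2)))

end CovA

open FOpsAux in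
theorem cs_cov {N : ∀ a, Subgroup (Fr (b a))} {τ : ∀ a, Fin (k a) → Fr (b a)}
    {r : ∀ a, List (Fr (b a))} (hb : CS b) (hk : CS k) (hN : CS N) (hn : ∀ a, (N a).Normal)
    (hτ : CS τ) (hr : CS r) : CS (fun a => Cov (N a) (τ a) (r a)) := by
  refine CS.of_iff (CS.and ?_ (CS.and (CovA.cs_in hk hN hτ hr (CS.one OneF.free))
    (CS.allMem hr (CS.all (CFin.fin (hb.comp s1)) (CS.and ?_ ?_))))) fun a _ => CovA.cov_iff
  · exact CS.all (CFin.fin hk) (CS.all (CFin.fin (hk.comp s1))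
      (CS.memSubgroup (hN.comp (s1.comp s1)) (CS.commutator MulF.free InvF.free
        (CS.app (hτ.comp (s1.comp s1)) (s2.comp s1)) (CS.app (hτ.comp (s1.comp s1)) s2))))
  · exact CovA.cs_in (hk.comp (s1.comp s1)) (hN.comp (s1.comp s1)) (hτ.comp (s1.comp s1))
      (hr.comp (s1.comp s1)) (CS.mul MulF.free (s2.comp s1) (CS.freeOf s2))
  · exact CovA.cs_in (hk.comp (s1.comp s1)) (hN.comp (s1.comp s1)) (hτ.comp (s1.comp s1))
      (hr.comp (s1.comp s1)) (CS.mul MulF.free (s2.comp s1) (CS.inv InvF.free (CS.freeOf s2)))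

end Pool.Agent.P.MP_257122_al.X
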