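import Pool.Agent.P.MP_257122_al.TNon

/-!
# Groups of rational matrices: definitions
-/

namespace Pool.Agent.P.MP_257122_al.X

open scoped commutatorElement

section
variable {G : Type} [Group G] {n : ℕ}

/-- Long products of the matrices `σ x - 1`, `x ∈ N`, vanish. -/
def UniM (σ : G →* GL (Fin n) ℚ) (N : Subgroup G) (k : ℕ) : Prop :=
  ∀ l : List G, (∀ x ∈ l, x ∈ N) → k ≤ l.length → (l.map fun x => (σ x).val - 1).prod = 0

/-- A normal subgroup with virtually abelian quotient acts unipotently. -/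
def Tri (σ : G →* GL (Fin n) ℚ) : Prop :=
  ∃ N : Subgroup G, N.Normal ∧ VAb N ∧ ∃ k, UniM σ N k

/-- The conjugate representation. -/
def cjH (β : GL (Fin n) ℚ) (σ : G →* GL (Fin n) ℚ) : G →* GL (Fin n) ℚ :=
  (MulAut.conj β).toMonoidHom.comp σ

theorem cjH_apply (β : GL (Fin n) ℚ) (σ : G →* GL (Fin n) ℚ) (w : G) :
    cjH β σ w = β * σ w * β⁻¹ := rfl

theorem cjH_ker (β : GL (Fin n) ℚ) (σ : G →* GL (Fin n) ℚ) : (cjH β σ).ker = σ.ker :=
  Subgroup.ext fun w => by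
    rw [MonoidHom.mem_ker, MonoidHom.mem_ker, cjH_apply, mul_inv_eq_one, mul_eq_left]

/-- The `τ j` commute modulo `N`, and the cosets of their products by `r` cover the group. -/
def Cov {k : ℕ} (N : Subgroup G) (τ : Fin k → G) (r : List G) : Prop :=
  (∀ i j, ⁅τ i, τ j⁆ ∈ N) ∧ ∀ w, ∃ s ∈ r, ∃ t, w * s⁻¹ * (zp τ t)⁻¹ ∈ N

end

/-- Conjugated generators. -/
def cjG {b n : ℕ} (β : GL (Fin n) ℚ) (g : Fin b → GL (Fin n) ℚ) : Fin b → GL (Fin n) ℚ :=
  fun x => β * g x * β⁻¹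

theorem lift_cjG {b n : ℕ} (β : GL (Fin n) ℚ) (g : Fin b → GL (Fin n) ℚ) :
    FreeGroup.lift (cjG β g) = cjH β (FreeGroup.lift g) :=
  FreeGroup.ext_hom _ _ fun x => by
    rw [FreeGroup.lift_apply_of, cjH_apply, FreeGroup.lift_apply_of]; rfl

/-- A change of basis, weights, a bound for the weights, normal generators. -/
abbrev NFD (b n : ℕ) : Type := GL (Fin n) ℚ × (Fin n → ℕ) × ℕ × List (Fr b)

/-- The data describe the subgroup of all words with unipotent value. -/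
def NF {b n : ℕ} (g : Fin b → GL (Fin n) ℚ) (x : NFD b n) : Prop :=
  Adapt x.2.1 x.2.2.1 (FreeGroup.lift (cjG x.1 g)) (K.ncl x.2.2.2) ∧ VAb (K.ncl x.2.2.2) ∧
    ∀ w, IsNilpotent ((FreeGroup.lift g w).val - 1) → w ∈ K.ncl x.2.2.2

section
variable {A : Type} [Rep A] {b n : A → ℕ}

theorem grpF (hb : CS b) : GrpF (fun a => Fr (b a)) := GrpF.free (Enum.fin hb) Disc.fin Haus.fin

theorem grpL (hn : CS n) : GrpF (fun a => GL (Fin (n a)) ℚ) := GrpF.gl (CFin.fin hn) Disc.fin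

theorem cs_lift {g : ∀ a, Fin (b a) → GL (Fin (n a)) ℚ} (hn : CS n) (hg : CS g) :
    CS (fun a => FreeGroup.lift (g a)) :=
  CS.freeLift (grpL hn).mul (grpL hn).inv (grpL hn).one hg

theorem cs_kerL {g : ∀ a, Fin (b a) → GL (Fin (n a)) ℚ} (hn : CS n) (hg : CS g) :
    CS (fun a => (FreeGroup.lift (g a)).ker) :=
  CS.ker (grpL hn).disc (grpL hn).one (cs_lift hn hg)

theorem cs_nclL {Y : ∀ a, List (Fr (b a))} (hb : CS b) (hY : CS Y) : CS (fun a => K.ncl (Y a)) :=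
  CS.normalClosure (grpF hb) (CS.setOf
    (CS.memList ((grpF hb).disc.comp FOpsAux.s1) FOpsAux.s2 (hY.comp FOpsAux.s1)))

theorem cs_cjG {β : ∀ a, GL (Fin (n a)) ℚ} {g : ∀ a, Fin (b a) → GL (Fin (n a)) ℚ} (hn : CS n)
    (hβ : CS β) (hg : CS g) : CS (fun a => cjG (β a) (g a)) :=
  have hG := (grpL hn).comp (FOpsAux.s1 (β := fun a => Fin (b a)))
  CS.lam (CS.mul hG.mul (CS.mul hG.mul (hβ.comp FOpsAux.s1)
    (CS.app (hg.comp FOpsAux.s1) FOpsAux.s2)) (CS.inv hG.inv (hβ.comp FOpsAux.s1)))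

end

end Pool.Agent.P.MP_257122_al.X
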