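import Pool.Agent.P.MP_257122_al.X.Math

/-!
# The class of representations with a unipotent normal subgroup of virtually abelian quotient

PLAN.  `tri_of_vsol`: `H1.malcev` for the preimage of `H`, then the normal core `T` of the subgroup
of finite index and `N = ⁅T, T⁆`.  `Tri.finRank`: `exists_flag`, `K.finRank_ker`, `K.vab_finRank`.
`Tri.goodPar`: `exists_nil_Ncan`; `dres e` lies in the image of `N` (`res_le_of_index`), which is
nilpotent (`C.comm_fil`, `C.fil_zero`).
-/

namespace Pool.Agent.P.MP_257122_al.X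

open scoped commutatorElement

variable {G H : Type} [Group G] [Group H] {n c : ℕ} {wt : Fin n → ℕ} {σ : G →* GL (Fin n) ℚ}

theorem Tri.comp (h : Tri σ) (f : H →* G) : Tri (σ.comp f) := by
  obtain ⟨N, h1, h2, k, h3⟩ := h
  refine ⟨N.comap f, inferInstance, h2.comap f, k, fun l hl hk => ?_⟩
  have := h3 (l.map f) (fun x hx => by
    obtain ⟨y, hy, rfl⟩ := List.mem_map.1 hx
    exact hl y hy) (by rwa [List.length_map])
  rwa [List.map_map] at this

theorem tri_of_adapt {N : Subgroup G} [N.Normal] (h : Adapt wt c σ N) (hN : VAb N) : Tri σ := by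
  refine ⟨N, inferInstance, hN, c, fun l hl hk => C.fil_zero h.1 hk ?_⟩
  clear hk
  induction l with
  | nil => exact gb_one
  | cons x l ih =>
    rw [List.map_cons, List.prod_cons, List.length_cons, add_comm]
    exact fil_mul' (h.2.2 x (hl x List.mem_cons_self)) (ih fun y hy => hl y (List.mem_cons_of_mem _ hy))

theorem tri_of_vsol (h : ∃ H : Subgroup σ.range, H.FiniteIndex ∧ Group.IsSolvable H) : Tri σ := by
  obtain ⟨S, h1, d, hd⟩ := h
  obtain ⟨f, hf⟩ := H1.malcev n d
  let φ : Matrix (Fin n) (Fin n) ℚ ≃ₐ[ℚ] Module.End ℚ (Fin n → ℚ) := Matrix.toLinAlgEquiv'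
  let ρ : G →* Module.End ℚ (Fin n → ℚ) :=
    (φ : Matrix (Fin n) (Fin n) ℚ →* _).comp ((Units.coeHom _).comp σ)
  obtain ⟨P, p1, -, p2⟩ := hf ℚ (Fin n → ℚ) (by simp) (S.comap σ.rangeRestrict)
    (ρ.comp (Subgroup.subtype _)) fun g hg => by
      have e := map_derivedSeries_le_derivedSeries (σ.rangeRestrict.subgroupComap S) d ⟨g, hg, rfl⟩
      rw [hd, Subgroup.mem_bot] at e
      have e' : σ g = 1 := congrArg (fun x : S => x.1.1) e
      change φ (σ g).val = 1
      rw [e', Units.val_one, map_one]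
  have p3 : (P.map (Subgroup.subtype _)).FiniteIndex := ⟨by
    rw [Subgroup.index_map_subtype, Subgroup.index_comap_of_surjective _
      σ.rangeRestrict_surjective]
    exact mul_ne_zero p1 h1.index_ne_zero⟩
  have hT := (P.map (Subgroup.subtype _)).normalCore_le
  refine ⟨⁅_, _⁆, inferInstance, ⟨(P.map (Subgroup.subtype _)).normalCore, inferInstance,
    inferInstance, Subgroup.commutator_le_left _ _, le_rfl⟩, n, fun l hl hk => φ.injective ?_⟩
  rw [map_zero, map_list_prod, List.map_map,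
    ← p2.map_subtype l (fun x hx => Subgroup.commutator_mono hT hT (hl x hx)) hk]
  congr 2
  funext x
  exact (map_sub φ _ _).trans (by rw [map_one]; rfl)

theorem Tri.finRank [Group.FG G] (h : Tri σ) : FinRank (G ⧸ σ.ker) := by
  obtain ⟨N, h1, h2, k, h3⟩ := h
  obtain ⟨β, wt, h4⟩ := exists_flag h3
  exact (K.finRank_ker h4 (K.vab_finRank h2)).quot_mono (cjH_ker β σ).le

theorem Tri.goodPar [Group.FG G] (h : Tri σ) :
    ∃ e, ∀ e₁, e ≤ e₁ → ∃ e', ∀ e₂, e' ≤ e₂ → GoodPar e₁ e₂ (G ⧸ σ.ker) := by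
  have hR := h.finRank
  obtain ⟨N, h1, ⟨T, t1, t2, t3, t4⟩, k, h3⟩ := h
  obtain ⟨β, wt, h4⟩ := exists_flag h3
  have key : ∀ j, N.lowerCentralSeries j ≤ (K.krU wt j).comap (cjH β σ) := fun j => by
    induction j with
    | zero => exact h4.2.2
    | succ j ih =>
      refine Subgroup.commutator_le.2 fun x hx y hy => ?_
      rw [Subgroup.mem_comap, map_commutatorElement]
      exact C.comm_fil h4.1 (ih hx) (h4.2.2 y hy)
  have hN : NilMod N σ.ker := ⟨k, fun x hx => by
    rw [← cjH_ker β, MonoidHom.mem_ker]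
    exact Units.ext (sub_eq_zero.1 (C.fil_zero h4.1 k.le_succ (key k hx)))⟩
  have := K.kr_index (T := T) (QuotientGroup.mk'_surjective σ.ker)
  refine ⟨(T.map (QuotientGroup.mk' σ.ker)).index, fun e₁ he => exists_nil_Ncan hR
    (K.nilMod_mono (K.nilMod_quot.2 hN) ?_ le_rfl)⟩
  refine (Subgroup.commutator_mono (res_le_of_index he) (res_le_of_index he)).trans ?_
  rw [← Subgroup.map_commutator]
  exact Subgroup.map_mono t4

end Pool.Agent.P.MP_257122_al.X
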