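import Pool.Agent.P.MP_257122_al.X.Nf
import Pool.Agent.P.MP_257122_al.X.Tri

/-!
# The image of the kernel under a second representation

PLAN.  `θ` is the block sum of `ρ = lift g` and `σ = lift h` on `Fin (n + m)`; it satisfies `Tri`
(`K.vab_inf`, `tri_of_adapt`).  `mv_nf` for `θ` gives `β, wt', c', Y`, and `ker ρ ≤ ncl Y` because
`θ w - 1` is nilpotent for `w ∈ ker ρ`.  `DS.mapNcl`, `C.ds_iff` give `(Λ, l)` describing the
logarithms of `β θ(ncl Y) β⁻¹`.  With `π₁, π₂` the two diagonal blocks of `β⁻¹ x β`: the new lattice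
is `lmap π₂ (Λ ⊓ lcomap π₁ ⊥)`; a coset `r + Λ` is kept, with a representative in the kernel of `π₁`,
iff `π₁ r ∈ lmap π₁ Λ` (`CS.memAdd`, `CS.notMemAdd`, `MV.list`).  `C.map_lg` for the ring
homomorphism `(x, y) ↦ β (x ⊕ y) β⁻¹`; `lg c u` does not depend on `c` once `(u - 1) ^ c = 0`;
`lg c' u = 0` forces `u = 1` (`C.CBasAux.ex_lg'`).
-/

namespace Pool.Agent.P.MP_257122_al.X

open scoped commutatorElement
open Matrix FOpsAux

namespace DskAux

section pure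

theorem lg_le {R : Type} [Ring R] [Algebra ℚ R] {u : R} {c d : ℕ} (h : (u - 1) ^ c = 0)
    (hd : c ≤ d) : lg d u = lg c u := by
  refine (Finset.sum_subset (Finset.range_mono hd) fun k _ hk => ?_).symm
  rw [Finset.mem_range, not_lt] at hk
  rw [pow_eq_zero_of_le (hk.trans k.le_succ) h, smul_zero]

theorem lg_cut {R : Type} [Ring R] [Algebra ℚ R] {u : R} {c d : ℕ} (h : (u - 1) ^ c = 0)
    (h' : (u - 1) ^ d = 0) : lg d u = lg c u :=
  (lg_le h' (le_max_right c d)).symm.trans (lg_le h (le_max_left c d))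

theorem lg_zero {R : Type} [Ring R] [Algebra ℚ R] {u : R} {c : ℕ} (h : (u - 1) ^ c = 0)
    (h0 : lg c u = 0) : u = 1 := by
  have e := C.ex_lg' h
  rw [h0] at e
  cases c with
  | zero =>
    have : Subsingleton R := subsingleton_of_zero_eq_one (by simpa using h.symm)
    exact Subsingleton.elim _ _
  | succ d =>
    rw [← e, ex, Finset.sum_range_succ']
    simp

theorem lg_prod {R S : Type} [Ring R] [Algebra ℚ R] [Ring S] [Algebra ℚ S] (c : ℕ) (x : R)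
    (y : S) : lg c (x, y) = (lg c x, lg c y) :=
  Prod.ext (C.map_lg (RingHom.fst R S) (x, y)) (C.map_lg (RingHom.snd R S) (x, y))

variable {b n m : ℕ}

/-- The block sum of two matrices. -/
def bsM (n m : ℕ) : Matrix (Fin n) (Fin n) ℚ × Matrix (Fin m) (Fin m) ℚ →+*
    Matrix (Fin (n + m)) (Fin (n + m)) ℚ where
  toFun x := (fromBlocks x.1 0 0 x.2).submatrix finSumFinEquiv.symm finSumFinEquiv.symm
  map_one' := by rw [Prod.fst_one, Prod.snd_one, fromBlocks_one, submatrix_one_equiv]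
  map_mul' x y := by rw [submatrix_mul_equiv, fromBlocks_multiply]; simp
  map_zero' := by rw [Prod.fst_zero, Prod.snd_zero, fromBlocks_zero]; rfl
  map_add' x y := by
    have := fromBlocks_add x.1 0 0 x.2 y.1 0 0 y.2
    rw [add_zero, add_zero] at this
    rw [Prod.fst_add, Prod.snd_add, ← this]; rfl

/-- A principal submatrix as a linear map. -/
def subL {k n : ℕ} (e : Fin n → Fin k) : Matrix (Fin k) (Fin k) ℚ →ₗ[ℚ] Matrix (Fin n) (Fin n) ℚ where
  toFun x := x.submatrix e e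
  map_add' _ _ := rfl
  map_smul' _ _ := rfl

theorem sub1 (x : Matrix (Fin n) (Fin n) ℚ × Matrix (Fin m) (Fin m) ℚ) :
    subL (Fin.castAdd m) (bsM n m x) = x.1 := by
  ext i j
  show fromBlocks x.1 0 0 x.2 (finSumFinEquiv.symm (Fin.castAdd m i))
    (finSumFinEquiv.symm (Fin.castAdd m j)) = _
  rw [finSumFinEquiv_symm_apply_castAdd, finSumFinEquiv_symm_apply_castAdd, fromBlocks_apply₁₁]

theorem sub2 (x : Matrix (Fin n) (Fin n) ℚ × Matrix (Fin m) (Fin m) ℚ) :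
    subL (Fin.natAdd n) (bsM n m x) = x.2 := by
  ext i j
  show fromBlocks x.1 0 0 x.2 (finSumFinEquiv.symm (Fin.natAdd n i))
    (finSumFinEquiv.symm (Fin.natAdd n j)) = _
  rw [finSumFinEquiv_symm_apply_natAdd, finSumFinEquiv_symm_apply_natAdd, fromBlocks_apply₂₂]

/-- The block sum of invertible matrices. -/
def bsH (n m : ℕ) : GL (Fin n) ℚ × GL (Fin m) ℚ →* GL (Fin (n + m)) ℚ :=
  (Units.map (bsM n m).toMonoidHom).comp MulEquiv.prodUnits.symm.toMonoidHom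

/-- The block sum of generators. -/
def bsG (g : Fin b → GL (Fin n) ℚ) (h : Fin b → GL (Fin m) ℚ) : Fin b → GL (Fin (n + m)) ℚ :=
  fun i => bsH n m (g i, h i)

variable {g : Fin b → GL (Fin n) ℚ} {h : Fin b → GL (Fin m) ℚ}

theorem lift_bsG (w : Fr b) : (FreeGroup.lift (bsG g h) w).val =
    bsM n m ((FreeGroup.lift g w).val, (FreeGroup.lift h w).val) := by
  have : FreeGroup.lift (bsG g h) =
      (bsH n m).comp ((FreeGroup.lift g).prod (FreeGroup.lift h)) :=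
    FreeGroup.ext_hom _ _ fun i => by
      simp only [MonoidHom.comp_apply, MonoidHom.prod_apply, FreeGroup.lift_apply_of]; rfl
  rw [this]; rfl

theorem lift_bsG_sub (w : Fr b) : (FreeGroup.lift (bsG g h) w).val - 1 =
    bsM n m ((FreeGroup.lift g w).val - 1, (FreeGroup.lift h w).val - 1) := by
  rw [lift_bsG, ← map_one (bsM n m), ← map_sub]; rfl

theorem tri_bs (h1 : Tri (FreeGroup.lift g)) (h2 : Tri (FreeGroup.lift h)) :
    Tri (FreeGroup.lift (bsG g h)) := by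
  obtain ⟨N, a1, a2, k, a3⟩ := h1
  obtain ⟨N', b1, b2, k', b3⟩ := h2
  refine ⟨N ⊓ N', inferInstance, K.vab_inf a2 b2, max k k', fun l hl hk => ?_⟩
  have e : (l.map fun x => ((FreeGroup.lift g x).val - 1, (FreeGroup.lift h x).val - 1)).prod = 0 := by
    refine Prod.ext ?_ ?_
    · refine (map_list_prod (RingHom.fst _ _) _).trans ?_
      rw [List.map_map]
      exact a3 l (fun x hx => (hl x hx).1) ((le_max_left _ _).trans hk)
    · refine (map_list_prod (RingHom.snd _ _) _).trans ?_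
      rw [List.map_map]
      exact b3 l (fun x hx => (hl x hx).2) ((le_max_right _ _).trans hk)
  have := congrArg (bsM n m) e
  rw [map_list_prod, List.map_map, map_zero] at this
  simp only [lift_bsG_sub]
  exact this

theorem blk_lg (β : GL (Fin (n + m)) ℚ) (c : ℕ) (w : Fr b) :
    C.adL β⁻¹ (lg c (FreeGroup.lift (cjG β (bsG g h)) w).val) =
      bsM n m (lg c (FreeGroup.lift g w).val, lg c (FreeGroup.lift h w).val) := by
  rw [lift_cjG, cjH_apply, C.lg_conj, ← C.adL_mul, inv_mul_cancel, C.adL_one, lift_bsG,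
    ← C.map_lg]
  exact congrArg _ (lg_prod c _ _)

theorem blk_nil {β : GL (Fin (n + m)) ℚ} {c : ℕ} {w : Fr b}
    (hw : ((FreeGroup.lift (cjG β (bsG g h)) w).val - 1) ^ c = 0) :
    ((FreeGroup.lift g w).val - 1) ^ c = 0 ∧ ((FreeGroup.lift h w).val - 1) ^ c = 0 := by
  have e : (FreeGroup.lift (cjG β (bsG g h)) w).val - 1 =
      β.val * ((FreeGroup.lift (bsG g h) w).val - 1) * (β⁻¹).val := by
    rw [lift_cjG, cjH_apply, mul_sub, sub_mul, mul_one, Units.mul_inv]; rfl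
  rw [e, Units.conj_pow, Units.mul_left_eq_zero, Units.mul_right_eq_zero, lift_bsG_sub,
    ← map_pow] at hw
  exact ⟨(sub1 _).symm.trans ((congrArg _ hw).trans (map_zero _)),
    (sub2 _).symm.trans ((congrArg _ hw).trans (map_zero _))⟩

theorem cut_iff {wt : Fin m → ℕ} {c : ℕ} {N : Subgroup (Fr b)}
    (hA : Adapt wt c (FreeGroup.lift h) N) (hS : (FreeGroup.lift g).ker ≤ N)
    {x : NFD b (n + m)} (hx : NF (bsG g h) x) (z : Matrix (Fin m) (Fin m) ℚ) :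
    (∃ u ∈ (FreeGroup.lift g).ker.map (FreeGroup.lift h), lg c u.val = z) ↔
      ∃ y, (∃ u ∈ (K.ncl x.2.2.2).map (FreeGroup.lift (cjG x.1 (bsG g h))), lg x.2.2.1 u.val = y) ∧
        (subL (Fin.castAdd m) ∘ₗ C.adL x.1⁻¹) y = 0 ∧ (subL (Fin.natAdd n) ∘ₗ C.adL x.1⁻¹) y = z := by
  have k1 : ∀ w ∈ (FreeGroup.lift g).ker, ((FreeGroup.lift h w).val - 1) ^ c = 0 := fun w hw =>
    C.fil_zero hA.1 le_rfl (C.fil_pow (hA.2.2 w (hS hw)) c)
  have k2 := fun w (hw : w ∈ K.ncl x.2.2.2) =>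
    blk_nil (C.fil_zero hx.1.1 le_rfl (C.fil_pow (hx.1.2.2 w hw) _))
  constructor
  · rintro ⟨_, ⟨w, hw, rfl⟩, rfl⟩
    have e : FreeGroup.lift g w = 1 := hw
    have hw' : w ∈ K.ncl x.2.2.2 := hx.2.2 w ⟨c + 1, by
      rw [lift_bsG_sub, ← map_pow, e, Units.val_one, sub_self, Prod.pow_mk, pow_succ, pow_succ,
        k1 w hw, mul_zero, zero_mul]
      exact map_zero _⟩
    refine ⟨_, ⟨_, ⟨w, hw', rfl⟩, rfl⟩, ?_, ?_⟩
    · rw [LinearMap.comp_apply, blk_lg, sub1, e]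
      exact C.lg_one
    · rw [LinearMap.comp_apply, blk_lg, sub2]
      exact lg_cut (k1 w hw) (k2 w hw').2
  · rintro ⟨_, ⟨_, ⟨w, hw, rfl⟩, rfl⟩, h1, h2⟩
    rw [LinearMap.comp_apply, blk_lg, sub1] at h1
    rw [LinearMap.comp_apply, blk_lg, sub2] at h2
    have hw' : w ∈ (FreeGroup.lift g).ker := Units.ext (lg_zero (k2 w hw).1 h1)
    exact ⟨_, ⟨w, hw', rfl⟩, (lg_cut (k2 w hw).2 (k1 w hw')).trans h2⟩

variable {V W X : Type} [AddCommGroup V] [Module ℚ V] [AddCommGroup W] [Module ℚ W]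
  [AddCommGroup X] [Module ℚ X]

/-- The list `l'` represents the cosets that meet the kernel of `φ`. -/
def Cut (φ : V →ₗ[ℚ] W) (ψ : V →ₗ[ℚ] X) (Λ : AddSubgroup V) (l : List V) (l' : List X) : Prop :=
  (∀ z ∈ l', ∃ r ∈ l, ∃ y, y - r ∈ Λ ∧ φ y = 0 ∧ ψ y = z) ∧
    ∀ r ∈ l, ¬ φ r ∈ lmap φ Λ ∨ ∃ y, y - r ∈ Λ ∧ φ y = 0 ∧ ψ y ∈ l'

theorem exists_cut (φ : V →ₗ[ℚ] W) (ψ : V →ₗ[ℚ] X) (Λ : AddSubgroup V) (l : List V) :
    ∃ l', Cut φ ψ Λ l l' := by
  induction l with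
  | nil => exact ⟨[], by simp, by simp⟩
  | cons r l ih =>
    obtain ⟨l', h1, h2⟩ := ih
    by_cases h : φ r ∈ lmap φ Λ
    · obtain ⟨v, hv, e⟩ := h
      have e' : φ (r - v) = 0 := by rw [map_sub]; exact sub_eq_zero.2 e.symm
      have hv' : r - v - r ∈ Λ := by rw [sub_sub_cancel_left]; exact neg_mem hv
      refine ⟨ψ (r - v) :: l', fun z hz => ?_, fun s hs => ?_⟩
      · rcases List.mem_cons.1 hz with rfl | hz
        · exact ⟨r, List.mem_cons_self, _, hv', e', rfl⟩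
        · obtain ⟨s, hs, k⟩ := h1 z hz
          exact ⟨s, List.mem_cons_of_mem _ hs, k⟩
      · rcases List.mem_cons.1 hs with rfl | hs
        · exact Or.inr ⟨_, hv', e', List.mem_cons_self⟩
        · exact (h2 s hs).imp_right fun ⟨y, a, b, c⟩ => ⟨y, a, b, List.mem_cons_of_mem _ c⟩
    · refine ⟨l', fun z hz => ?_, fun s hs => ?_⟩
      · obtain ⟨s, hs, k⟩ := h1 z hz
        exact ⟨s, List.mem_cons_of_mem _ hs, k⟩
      · rcases List.mem_cons.1 hs with rfl | hs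
        · exact Or.inl h
        · exact h2 s hs

theorem Cut.iff {φ : V →ₗ[ℚ] W} {ψ : V →ₗ[ℚ] X} {Λ : AddSubgroup V} {l : List V} {l' : List X}
    (h : Cut φ ψ Λ l l') (x : X) : (∃ y, (∃ r ∈ l, y - r ∈ Λ) ∧ φ y = 0 ∧ ψ y = x) ↔
      ∃ z ∈ l', x - z ∈ lmap ψ (Λ ⊓ lcomap φ ⊥) := by
  constructor
  · rintro ⟨y, ⟨r, hr, h1⟩, h2, rfl⟩
    rcases h.2 r hr with k | ⟨y', k1, k2, k3⟩
    · refine absurd ⟨-(y - r), neg_mem h1, ?_⟩ k
      show φ (-(y - r)) = φ r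
      rw [map_neg, map_sub, h2, zero_sub, neg_neg]
    · refine ⟨_, k3, y - y', ⟨by simpa using sub_mem h1 k1, ?_⟩, map_sub ψ _ _⟩
      show φ (y - y') = 0
      rw [map_sub, h2, k2, sub_zero]
  · rintro ⟨z, hz, v, ⟨h1, h2⟩, h3⟩
    obtain ⟨r, hr, y, k1, k2, rfl⟩ := h.1 z hz
    have h4 : φ v = 0 := h2
    have h5 : ψ v = x - ψ y := h3
    refine ⟨v + y, ⟨r, hr, ?_⟩, ?_, ?_⟩
    · rw [add_sub_assoc]; exact add_mem h1 k1
    · rw [map_add, h4, k2, add_zero]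
    · rw [map_add, h5, sub_add_cancel]

end pure

variable {A : Type} [Rep A]

theorem mv_cut {V W X : A → Type} [∀ a, Rep (V a)] [∀ a, AddCommGroup (V a)] [∀ a, Module ℚ (V a)]
    [∀ a, Rep (W a)] [∀ a, AddCommGroup (W a)] [∀ a, Module ℚ (W a)]
    [∀ a, Rep (X a)] [∀ a, AddCommGroup (X a)] [∀ a, Module ℚ (X a)]
    {φ : ∀ a, V a →ₗ[ℚ] W a} {ψ : ∀ a, V a →ₗ[ℚ] X a} {Λ : ∀ a, AddSubgroup (V a)}
    {l : ∀ a, List (V a)} (hV : CoordF V) (hW : CoordF W) (hX : CoordF X) (hφ : CS φ) (hψ : CS ψ)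
    (hΛ : CS Λ) (hl : CS l) :
    MV (fun a (d : AddSubgroup (X a) × List (X a)) => ∀ x,
      (∃ y, (∃ r ∈ l a, y - r ∈ Λ a) ∧ φ a y = 0 ∧ ψ a y = x) ↔ ∃ z ∈ d.2, x - z ∈ d.1) := by
  have t2 : CS (fun q : Σ p : (Σ a, List (X a)), X p.1 => q.1.1) := s1.comp s1
  have t3 := t2.comp (s1 (β := fun q => V q.1.1))
  have t4 := t3.comp (s1 (β := fun q => V q.1.1.1))
  have u2 : CS (fun q : Σ p : (Σ a, List (X a)), V p.1 => q.1.1) := s1.comp s1
  have u3 := u2.comp (s1 (β := fun q => V q.1.1))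
  have m : MV (fun a (l' : List (X a)) => Cut (φ a) (ψ a) (Λ a) (l a) l') :=
    MV.search hX.enum.list (CS.and
      (CS.allMem s2 (CS.exMem (hl.comp t2) (CS.ex (hV.enum.comp t3) (CS.and
        (CS.memAdd (hΛ.comp t4) (CS.sub (hV.add.comp t4) (hV.neg.comp t4) s2 (s2.comp s1)))
        (CS.and (CS.eq (hW.disc.comp t4) (CS.linApp (hφ.comp t4) s2) (hW.zero.comp t4))
          (CS.eq (hX.disc.comp t4) (CS.linApp (hψ.comp t4) s2) ((s2.comp s1).comp s1)))))))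
      (CS.allMem (hl.comp s1) (CS.or
        (CS.notMemAdd ((CS.lmap hV hW hφ hΛ).comp u2) (CS.linApp (hφ.comp u2) s2))
        (CS.ex (hV.enum.comp u2) (CS.and
          (CS.memAdd (hΛ.comp u3) (CS.sub (hV.add.comp u3) (hV.neg.comp u3) s2 (s2.comp s1)))
          (CS.and (CS.eq (hW.disc.comp u3) (CS.linApp (hφ.comp u3) s2) (hW.zero.comp u3))
            (CS.memList (hX.disc.comp u3) (CS.linApp (hψ.comp u3) s2) ((s2.comp s1).comp s1))))))))
      (fun _ _ h => h) fun a _ => exists_cut _ _ _ _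
  exact m.bind (MV.of_cs (f := fun q => (lmap (ψ q.1.1) (Λ q.1.1 ⊓ lcomap (φ q.1.1) ⊥), q.1.2))
    (((CS.lmap hV hX hψ (CS.addInf hΛ (CS.lcomap hφ (CS.addBot hW)))).comp v1).pair v2)
    fun q _ => q.2.iff)

variable {b n m k : A → ℕ}

theorem cs_bsM {x : ∀ a, Matrix (Fin (n a)) (Fin (n a)) ℚ} {y : ∀ a, Matrix (Fin (m a)) (Fin (m a)) ℚ}
    (hn : CS n) (hx : CS x) (hy : CS y) : CS (fun a => bsM (n a) (m a) (x a, y a)) :=
  have e : CS (fun a => (Fin.append Sum.inl Sum.inr :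
      Fin (n a + m a) → Fin (n a) ⊕ Fin (m a))) :=
    CS.finAppend hn (CS.lam (CS.inl s2)) (CS.lam (CS.inr s2))
  CS.submatrix (CS.fromBlocks hx (ZeroF.matrix ZeroF.rat) (ZeroF.matrix ZeroF.rat) hy) e e

theorem cs_bsG {g : ∀ a, Fin (b a) → GL (Fin (n a)) ℚ} {h : ∀ a, Fin (b a) → GL (Fin (m a)) ℚ}
    (hn : CS n) (hg : CS g) (hh : CS h) : CS (fun a => bsG (g a) (h a)) :=
  have k1 := CS.app (hg.comp s1) s2
  have k2 := CS.app (hh.comp s1) s2
  CS.lam (CS.unitsIntro (cs_bsM (hn.comp s1) k1.unitsVal k2.unitsVal)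
    (cs_bsM (hn.comp s1) k1.unitsInv k2.unitsInv))

theorem cs_subL {e : ∀ a, Fin (n a) → Fin (k a)} (he : CS e) : CS (fun a => subL (e a)) :=
  CS.linIntro (CS.submatrix s2 (he.comp s1) (he.comp s1))

end DskAux
open DskAux

variable {A : Type} [Rep A] {b n m c : A → ℕ} {g : ∀ a, Fin (b a) → GL (Fin (n a)) ℚ}
  {h : ∀ a, Fin (b a) → GL (Fin (m a)) ℚ} {wt : ∀ a, Fin (m a) → ℕ}
  {N : ∀ a, Subgroup (Fr (b a))}

theorem DskAux.ds_amb {Y : ∀ a, Subgroup (GL (Fin (m a)) ℚ)} :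
    DS (fun a => ambOf (wt a) (c a) (h a)) Y ↔
      MV (fun a (d : AddSubgroup (Matrix (Fin (m a)) (Fin (m a)) ℚ) ×
        List (Matrix (Fin (m a)) (Fin (m a)) ℚ)) => Descr (c a) d (Y a)) := C.ds_iff

theorem DskAux.mv_blk {x : ∀ a, NFD (b a) (n a + m a)}
    {d : ∀ a, AddSubgroup (Matrix (Fin (n a + m a)) (Fin (n a + m a)) ℚ) ×
      List (Matrix (Fin (n a + m a)) (Fin (n a + m a)) ℚ)} (hn : CS n) (hm : CS m) (hx : CS x)
    (hd : CS d) (hA : ∀ a, Adapt (wt a) (c a) (FreeGroup.lift (h a)) (N a))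
    (hS : ∀ a, (FreeGroup.lift (g a)).ker ≤ N a) (hF : ∀ a, NF (bsG (g a) (h a)) (x a))
    (hD : ∀ a, Descr (x a).2.2.1 (d a)
      ((K.ncl (x a).2.2.2).map (FreeGroup.lift (cjG (x a).1 (bsG (g a) (h a)))))) :
    MV (fun a (d : AddSubgroup (Matrix (Fin (m a)) (Fin (m a)) ℚ) ×
        List (Matrix (Fin (m a)) (Fin (m a)) ℚ)) =>
      Descr (c a) d ((FreeGroup.lift (g a)).ker.map (FreeGroup.lift (h a)))) := by
  have hk : CS (fun a => n a + m a) := CS.add AddF.nat hn hm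
  have hβ : CS (fun a => C.adL (x a).1⁻¹) := C.cs_adL hk (CS.inv InvF.units hx.fst)
  have p1 : CS (fun a => subL (Fin.castAdd (m a)) ∘ₗ C.adL (x a).1⁻¹) :=
    CS.linComp (cs_subL CS.finCastAddF) hβ
  have p2 : CS (fun a => subL (Fin.natAdd (n a)) ∘ₗ C.adL (x a).1⁻¹) :=
    CS.linComp (cs_subL (CS.finNatAddF hn)) hβ
  refine (mv_cut (C.coordM hk) (C.coordM hn) (C.coordM hm) p1 p2 hd.fst hd.snd).mono
    fun a d' _ _ hd' z => ?_
  refine (cut_iff (hA a) (hS a) (hF a) z).trans (Iff.trans ?_ (hd' z))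
  exact exists_congr fun y => and_congr_left fun _ => hD a y

theorem DskAux.mv_nfk {x : ∀ a, NFD (b a) (n a + m a)} (hb : CS b) (hn : CS n) (hm : CS m)
    (hg : CS g) (hh : CS h) (hx : CS x)
    (hA : ∀ a, Adapt (wt a) (c a) (FreeGroup.lift (h a)) (N a))
    (hS : ∀ a, (FreeGroup.lift (g a)).ker ≤ N a) (hF : ∀ a, NF (bsG (g a) (h a)) (x a)) :
    MV (fun a (d : AddSubgroup (Matrix (Fin (m a)) (Fin (m a)) ℚ) ×
        List (Matrix (Fin (m a)) (Fin (m a)) ℚ)) =>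
      Descr (c a) d ((FreeGroup.lift (g a)).ker.map (FreeGroup.lift (h a)))) := by
  have hk : CS (fun a => n a + m a) := CS.add AddF.nat hn hm
  have d := ds_amb.1 (DS.mapNcl hb hk hx.snd.fst hx.snd.snd.fst
    (cs_cjG hk hx.fst (cs_bsG hn hg hh)) hx.snd.snd.snd fun a => (hF a).1)
  exact d.bind (mv_blk (hn.comp v1) (hm.comp v1) (hx.comp v1) v2 (fun q => hA q.1.1)
    (fun q => hS q.1.1) (fun q => hF q.1.1) fun q => q.2)

theorem ds_ker (hb : CS b) (hn : CS n) (hm : CS m) (hw : CS wt) (hc : CS c) (hg : CS g)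
    (hh : CS h) (hT : ∀ a, Tri (FreeGroup.lift (g a)))
    (hA : ∀ a, Adapt (wt a) (c a) (FreeGroup.lift (h a)) (N a))
    (hN : ∀ a, (N a).Normal ∧ VAb (N a)) (hS : ∀ a, (FreeGroup.lift (g a)).ker ≤ N a) :
    DS (fun a => ambOf (wt a) (c a) (h a))
      (fun a => (FreeGroup.lift (g a)).ker.map (FreeGroup.lift (h a))) :=
  ds_amb.2 ((mv_nf hb (CS.add AddF.nat hn hm) (cs_bsG hn hg hh) fun a =>
    have := (hN a).1; tri_bs (hT a) (tri_of_adapt (hA a) (hN a).2)).bind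
    (mv_nfk (hb.comp v1) (hn.comp v1) (hm.comp v1) (hg.comp v1) (hh.comp v1) v2
      (fun q => hA q.1.1) (fun q => hS q.1.1) fun q => q.2))

theorem cs_killSub (hb : CS b) (hn : CS n) (hm : CS m) (hw : CS wt) (hc : CS c) (hg : CS g)
    (hh : CS h) (hT : ∀ a, Tri (FreeGroup.lift (g a)))
    (hA : ∀ a, Adapt (wt a) (c a) (FreeGroup.lift (h a)) (N a))
    (hN : ∀ a, (N a).Normal ∧ VAb (N a)) (hS : ∀ a, (FreeGroup.lift (g a)).ker ≤ N a) :
    CS (fun a => (FreeGroup.lift (g a)).ker ≤ (FreeGroup.lift (h a)).ker) :=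
  have ham := CS.ambOf hb hm hw hc hh
  have hok := fun a => ambOf_ok (hA a)
  (DS.le ham hok (ds_ker hb hn hm hw hc hg hh hT hA hN hS) (CDerAux.dbot ham hok)
    (fun a => ambOf_nrm (hA a) (hS a)) fun _ => CDerAux.nrm_bot).of_iff fun a _ =>
    le_bot_iff.trans (Subgroup.map_eq_bot_iff (f := FreeGroup.lift (h a)) _)

end Pool.Agent.P.MP_257122_al.X
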