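import Pool.Agent.P.MP_257122_al.X.Nf

/-!
# Finite quotients of a group of matrices

PLAN.  `mv_nf` gives `ρ' = lift (cjG β g)` adapted to `N₀ = ncl Y₀ ≥ ker`.  Certificate: lists `Y`,
`r` with `π Y = 1`, `ρ' Y` unipotent (so `DS.mapNcl` applies to `K = ncl Y`), the set
`R = {w | ∃ s ∈ r, w * s⁻¹ ∈ K}` contains `1` and `Y₀`, the `s * s'⁻¹` and the conjugates of the `s` by
generators and their inverses (so it is a normal subgroup containing `N₀`), and every `s ∈ r` lies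
in `K` or `ρ' s ∉ ρ' K` (`DS.notMem`).  COMPLETE: `K = N₀ ⊓ ker π` (`K.vab_inf`, `VAb.exists_ncl`), `r`
a list of representatives in `N₀` of the finite group `π N₀`.
-/

namespace Pool.Agent.P.MP_257122_al.X

open scoped commutatorElement

namespace FinA

open FOpsAux

section
variable {b n : ℕ} {G : Type} [Group G]

/-- `w` lies in one of the cosets. -/
def InR (Y r : List (Fr b)) (w : Fr b) : Prop := ∃ s ∈ r, w * s⁻¹ ∈ K.ncl Y

/-- The certificate. -/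
def Ct (g : Fin b → GL (Fin n) ℚ) (π : Fin b → G) (Y₀ Y r : List (Fr b)) : Prop :=
  (∀ y ∈ Y, FreeGroup.lift π y = 1) ∧ (∀ y ∈ 1 :: Y₀, InR Y r y) ∧
    (∀ s ∈ r, ∀ s' ∈ r, InR Y r (s * s'⁻¹)) ∧
    (∀ x : Fin b × Bool, ∀ s ∈ r, InR Y r (FreeGroup.mk [x] * s * (FreeGroup.mk [x])⁻¹)) ∧
    ∀ s ∈ r, s ∈ K.ncl Y ∨ ¬ FreeGroup.lift g s ∈ (K.ncl Y).map (FreeGroup.lift g)

variable {g : Fin b → GL (Fin n) ℚ} {π : Fin b → G} {Y₀ Y r : List (Fr b)}

theorem inR_iff {w : Fr b} : InR Y r w ↔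
    ∃ s ∈ r, QuotientGroup.mk' (K.ncl Y) w = QuotientGroup.mk' (K.ncl Y) s :=
  exists_congr fun s => and_congr_right fun _ => by
    rw [← div_eq_mul_inv]
    exact QuotientGroup.eq_iff_div_mem.symm

theorem sound (h : Ct g π Y₀ Y r) (hS : (FreeGroup.lift g).ker ≤ K.ncl Y₀) :
    (FreeGroup.lift g).ker ≤ (FreeGroup.lift π).ker := by
  obtain ⟨h1, h2, h3, h4, h5⟩ := h
  let R : Subgroup (Fr b) := Subgroup.ofDiv {w | InR Y r w} ⟨1, h2 1 (by simp)⟩ fun w hw v hv => by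
    obtain ⟨s, k, e⟩ := inR_iff.1 hw
    obtain ⟨s', k', e'⟩ := inR_iff.1 hv
    obtain ⟨t, k₁, e₁⟩ := inR_iff.1 (h3 s k s' k')
    exact inR_iff.2 ⟨t, k₁, by rw [← e₁, map_mul, map_mul, map_inv, map_inv, e, e']⟩
  have : R.Normal := ⟨fun w hw c => by
    obtain ⟨l, rfl⟩ := Quot.exists_rep c
    change InR Y r (FreeGroup.mk l * w * (FreeGroup.mk l)⁻¹)
    induction l with
    | nil => rw [← FreeGroup.one_eq_mk, one_mul, inv_one, mul_one]; exact hw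
    | cons x l ih =>
      obtain ⟨s, k, e⟩ := inR_iff.1 ih
      obtain ⟨t, k₁, e₁⟩ := inR_iff.1 (h4 x s k)
      refine inR_iff.2 ⟨t, k₁, ?_⟩
      rw [← e₁, map_mul _ (_ * s), map_mul _ _ s, ← e, ← map_mul, ← map_mul,
        ← List.singleton_append, ← FreeGroup.mul_mk]
      congr 1
      group⟩
  have hK : K.ncl Y ≤ (FreeGroup.lift π).ker := Subgroup.normalClosure_le_normal h1
  intro w hw
  obtain ⟨s, k, e⟩ : InR Y r w := Subgroup.normalClosure_le_normal (N := R)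
    (fun y hy => h2 y (List.mem_cons_of_mem _ hy)) (hS hw)
  have := (h5 s k).resolve_right fun m => m ⟨_, inv_mem e, by
    rw [map_inv, map_mul, show FreeGroup.lift g w = 1 from hw, one_mul, map_inv, inv_inv]⟩
  exact hK (by simpa using mul_mem e this)

theorem complete [Finite G] (hV : VAb (K.ncl Y₀))
    (h : (FreeGroup.lift g).ker ≤ (FreeGroup.lift π).ker) :
    ∃ p : List (Fr b) × List (Fr b), ∃ _ : ∀ y ∈ p.1, y ∈ K.ncl Y₀, Ct g π Y₀ p.1 p.2 := by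
  classical
  obtain ⟨Y, hY⟩ := VAb.exists_ncl (K.vab_inf hV (N' := (FreeGroup.lift π).ker)
    ⟨_, inferInstance, inferInstance, le_rfl, Subgroup.commutator_le_left _ _⟩)
  have : ∀ z : G, ∃ s ∈ K.ncl Y₀, ∀ w ∈ K.ncl Y₀, FreeGroup.lift π w = z →
      FreeGroup.lift π s = z := fun z => by
    by_cases k : ∃ w ∈ K.ncl Y₀, FreeGroup.lift π w = z
    · obtain ⟨w, h1, h2⟩ := k
      exact ⟨w, h1, fun _ _ _ => h2⟩
    · exact ⟨1, one_mem _, fun w h1 h2 => absurd ⟨w, h1, h2⟩ k⟩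
  choose f f1 f2 using this
  have := Fintype.ofFinite G
  have y1 : ∀ y, y ∈ K.ncl Y ↔ y ∈ K.ncl Y₀ ∧ FreeGroup.lift π y = 1 := fun y => by
    rw [K.ncl, ← hY]; rfl
  have r1 : ∀ s ∈ Finset.univ.toList.map f, s ∈ K.ncl Y₀ := fun s k => by
    obtain ⟨z, -, rfl⟩ := List.mem_map.1 k
    exact f1 z
  have r2 : ∀ w ∈ K.ncl Y₀, InR Y (Finset.univ.toList.map f) w := fun w k =>
    ⟨f (FreeGroup.lift π w), List.mem_map_of_mem (by simp), (y1 _).2
      ⟨mul_mem k (inv_mem (f1 _)), by rw [map_mul, map_inv, f2 _ w k rfl, mul_inv_cancel]⟩⟩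
  have y2 := fun y (k : y ∈ Y) => (y1 y).1 (Subgroup.subset_normalClosure k)
  refine ⟨(Y, Finset.univ.toList.map f), fun y k => (y2 y k).1, fun y k => (y2 y k).2,
    fun y k => r2 y ?_, fun s k s' k' => r2 _ (mul_mem (r1 s k) (inv_mem (r1 s' k'))),
    fun x s k => r2 _ (Subgroup.Normal.conj_mem inferInstance s (r1 s k) _), fun s k => ?_⟩
  · rcases List.mem_cons.1 k with rfl | k
    exacts [one_mem _, Subgroup.subset_normalClosure k]
  refine or_not.imp_left fun ⟨u, m, e⟩ => (y1 s).2 ⟨r1 s k, ?_⟩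
  have : FreeGroup.lift π (s * u⁻¹) = 1 :=
    h (by rw [MonoidHom.mem_ker, map_mul, map_inv, e, mul_inv_cancel])
  rwa [map_mul, map_inv, ((y1 u).1 m).2, inv_one, mul_one] at this

end

variable {A : Type} [Rep A] {b n c : A → ℕ} {g : ∀ a, Fin (b a) → GL (Fin (n a)) ℚ}
  {G : A → Type} [∀ a, Rep (G a)] [∀ a, Group (G a)] {π : ∀ a, Fin (b a) → G a}
  {wt : ∀ a, Fin (n a) → ℕ} {Y₀ Y r : ∀ a, List (Fr (b a))}

theorem cs_inR {w : ∀ a, Fr (b a)} (hb : CS b) (hY : CS Y) (hr : CS r) (hw : CS w) :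
    CS (fun a => InR (Y a) (r a) (w a)) :=
  CS.exMem hr (CS.memSubgroup ((cs_nclL hb hY).comp s1) (CS.mul ((grpF hb).mul.comp s1)
    (hw.comp s1) (CS.inv ((grpF hb).inv.comp s1) s2)))

theorem cs_ct (hG : GrpF G) (hb : CS b) (hn : CS n) (hw : CS wt) (hc : CS c) (hg : CS g)
    (hπ : CS π) (h0 : CS Y₀) (hY : CS Y) (hr : CS r)
    (hA : ∀ a, Adapt (wt a) (c a) (FreeGroup.lift (g a)) (K.ncl (Y a))) :
    CS (fun a => Ct (g a) (π a) (Y₀ a) (Y a) (r a)) := by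
  have hF := grpF hb
  have u : CS (fun p : Σ q : (Σ a, Fin (b a) × Bool), Fr (b q.1) => FreeGroup.mk [p.1.2]) :=
    CS.freeMk (CS.cons (s2.comp s1) CS.nil)
  have v : CS (fun p : Σ q : (Σ a, Fin (b a) × Bool), Fr (b q.1) => p.1.1) := s1.comp s1
  have v' : CS (fun p : Σ q : (Σ a, Fr (b a)), Fr (b q.1) => p.1.1) := s1.comp s1
  refine CS.and (CS.allMem hY (CS.eq (hG.disc.comp s1) (CS.homApp
    ((CS.freeLift hG.mul hG.inv hG.one hπ).comp s1) s2) (CS.one (hG.one.comp s1)))) (CS.and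
    (CS.allMem (CS.cons (CS.one hF.one) h0) (cs_inR (hb.comp s1) (hY.comp s1) (hr.comp s1) s2))
    (CS.and (CS.allMem hr (CS.allMem (hr.comp s1) ?_)) (CS.and
      (CS.all (CFin.prod (CFin.fin hb) CFin.bool) (CS.allMem (hr.comp s1) ?_))
      (CS.allMem hr (CS.or (CS.memSubgroup ((cs_nclL hb hY).comp s1) s2) ?_)))))
  · exact cs_inR (hb.comp v') (hY.comp v') (hr.comp v') (CS.mul (hF.mul.comp v') (s2.comp s1)
      (CS.inv (hF.inv.comp v') s2))
  · exact cs_inR (hb.comp v) (hY.comp v) (hr.comp v) (CS.mul (hF.mul.comp v)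
      (CS.mul (hF.mul.comp v) u s2) (CS.inv (hF.inv.comp v) u))
  · exact DS.notMem ((CS.ambOf hb hn hw hc hg).comp s1) (fun p => ambOf_ok (hA p.1))
      ((DS.mapNcl hb hn hw hc hg hY hA).comp s1) (fun p => ambOf_nrm (hA p.1) le_rfl)
      (CS.homApp ((cs_lift hn hg).comp s1) s2)

theorem core (hG : GrpF G) (hf : CFin G) (hb : CS b) (hn : CS n) (hw : CS wt) (hc : CS c)
    (hg : CS g) (hπ : CS π) (h0 : CS Y₀)
    (hA : ∀ a, Adapt (wt a) (c a) (FreeGroup.lift (g a)) (K.ncl (Y₀ a)))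
    (hV : ∀ a, VAb (K.ncl (Y₀ a))) (hS : ∀ a, (FreeGroup.lift (g a)).ker ≤ K.ncl (Y₀ a)) :
    CS (fun a => (FreeGroup.lift (g a)).ker ≤ (FreeGroup.lift (π a)).ker) := by
  have hE := (grpF hb).enum.list
  refine CS.of_iff (CS.ex (P := fun a (p : List (Fr (b a)) × List (Fr (b a))) =>
    ∃ _ : ∀ y ∈ p.1, y ∈ K.ncl (Y₀ a), Ct (g a) (π a) (Y₀ a) p.1 p.2) (hE.prod hE) (CS.exD
      (CS.allMem s2.fst (CS.memSubgroup ((cs_nclL hb h0).comp (s1.comp s1)) s2))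
      (cs_ct (hG.comp v1) (hb.comp v1) (hn.comp v1) (hw.comp v1) (hc.comp v1) (hg.comp v1)
        (hπ.comp v1) (h0.comp v1) v2.fst v2.snd fun p => ⟨(hA _).1, (hA _).2.1, fun y hy =>
          (hA _).2.2 y (Subgroup.normalClosure_le_normal p.2 hy)⟩)))
    fun a ha => ⟨fun ⟨_, _, h⟩ => sound h (hS a), fun h => ?_⟩
  obtain ⟨l, -, -, hl⟩ := MV.exists hf ha
  have : Finite (G a) := Set.finite_univ_iff.1 ((List.finite_toSet l).subset fun x _ => hl x)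
  exact complete (hV a) h

end FinA

variable {A : Type} [Rep A] {b n : A → ℕ} {g : ∀ a, Fin (b a) → GL (Fin (n a)) ℚ}
  {G : A → Type} [∀ a, Rep (G a)] [∀ a, Group (G a)] {π : ∀ a, Fin (b a) → G a}

open FOpsAux in
theorem cs_killFin (hG : GrpF G) (hf : CFin G) (hb : CS b) (hn : CS n) (hg : CS g) (hπ : CS π)
    (hT : ∀ a, Tri (FreeGroup.lift (g a))) :
    CS (fun a => (FreeGroup.lift (g a)).ker ≤ (FreeGroup.lift (π a)).ker) := by
  refine (mv_nf hb hn hg hT).elim (CS.of_iff (FinA.core (hG.comp v1) (hf.comp v1) (hb.comp v1)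
    (hn.comp v1) v2.snd.fst v2.snd.snd.fst (cs_cjG (hn.comp v1) v2.fst (hg.comp v1)) (hπ.comp v1)
    v2.snd.snd.snd (fun p => p.2.1) (fun p => p.2.2.1) fun p w hw => p.2.2.2 w ?_)
    fun p _ => by rw [lift_cjG, cjH_ker])
  rw [lift_cjG, cjH_ker, MonoidHom.mem_ker] at hw
  simp [hw]

end Pool.Agent.P.MP_257122_al.X
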