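import Pool.Agent.P.MP_257122_al.X.Top

/-!
# From lists of matrices to generators
-/

namespace Pool.Agent.P.MP_257122_al.X

open Matrix FOpsAux

theorem rep_list {α : Type} [Rep α] [Encodable α] (h : ∀ x : α, Rep.R (Encodable.encode x) x)
    (l : List α) : Rep.R (Encodable.encode l) l := by
  have e : Encodable.encode l = Encodable.encode (l.map Encodable.encode) := by
    induction l with
    | nil => rfl
    | cons x l ih => simp only [List.map_cons, Encodable.encode_list_cons, ih]; rfl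
  show List.Forall₂ Rep.R (Denumerable.ofNat (List ℕ) (Encodable.encode l)) l
  rw [e, Denumerable.ofNat_encode, List.forall₂_map_left_iff]
  exact List.forall₂_same.2 fun x _ => h x

theorem rep_prod {α β : Type} [Rep α] [Encodable α] [Rep β] [Encodable β]
    (h : ∀ x : α, Rep.R (Encodable.encode x) x) (h' : ∀ x : β, Rep.R (Encodable.encode x) x)
    (p : α × β) : Rep.R (Encodable.encode p) p := by
  obtain ⟨x, y⟩ := p
  show Rep.R (Nat.pair _ _).unpair.1 x ∧ Rep.R (Nat.pair _ _).unpair.2 y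
  rw [Nat.unpair_pair]
  exact ⟨h x, h' y⟩

/-- The group generated by the invertible matrices of a list. -/
abbrev genL {n : ℕ} (L : List (Matrix (Fin n) (Fin n) ℚ)) : Subgroup (GL (Fin n) ℚ) :=
  Subgroup.closure {g | g.val ∈ L}

theorem exists_units {n : ℕ} (L : List (Matrix (Fin n) (Fin n) ℚ)) :
    ∃ l : List (GL (Fin n) ℚ), (∀ g ∈ l, g.val ∈ L) ∧
      ∀ M ∈ L, (∃ g ∈ l, g.val = M) ∨ ∃ v : Fin n → ℚ, v ≠ 0 ∧ M *ᵥ v = 0 := by
  induction L with
  | nil => exact ⟨[], by simp, by simp⟩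
  | cons M L ih =>
    obtain ⟨l, h1, h2⟩ := ih
    by_cases h : M.det = 0
    · refine ⟨l, fun g hg => List.mem_cons_of_mem _ (h1 g hg), fun M' hM => ?_⟩
      rcases List.mem_cons.1 hM with rfl | hM
      · exact Or.inr (Matrix.exists_mulVec_eq_zero_iff.2 h)
      · exact h2 M' hM
    · refine ⟨Matrix.GeneralLinearGroup.mkOfDetNeZero M h :: l, fun g hg => ?_, fun M' hM => ?_⟩
      · rcases List.mem_cons.1 hg with rfl | hg
        · exact List.mem_cons_self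
        · exact List.mem_cons_of_mem _ (h1 g hg)
      · rcases List.mem_cons.1 hM with rfl | hM
        · exact Or.inl ⟨_, List.mem_cons_self, rfl⟩
        · exact (h2 M' hM).imp_left fun ⟨g, hg, e⟩ => ⟨g, List.mem_cons_of_mem _ hg, e⟩

theorem range_units {n : ℕ} {L : List (Matrix (Fin n) (Fin n) ℚ)} {l : List (GL (Fin n) ℚ)}
    (h1 : ∀ g ∈ l, g.val ∈ L)
    (h2 : ∀ M ∈ L, (∃ g ∈ l, g.val = M) ∨ ∃ v : Fin n → ℚ, v ≠ 0 ∧ M *ᵥ v = 0) :
    (FreeGroup.lift l.get).range = genL L := by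
  rw [FreeGroup.range_lift_eq_closure]
  congr 1
  ext g
  refine ⟨fun ⟨i, e⟩ => h1 g (e ▸ List.get_mem l i), fun hg => ?_⟩
  rcases h2 _ hg with ⟨g', hg', e⟩ | ⟨v, hv, e⟩
  · exact List.mem_iff_get.1 (Units.ext e ▸ hg')
  · have := congrArg (fun x => g.inv *ᵥ x) e
    simp only [Matrix.mulVec_mulVec, g.inv_val, Matrix.one_mulVec, Matrix.mulVec_zero] at this
    exact absurd this hv

variable {A : Type} [Rep A] {n n' : A → ℕ}

theorem mv_pres {L : ∀ a, List (Matrix (Fin (n a)) (Fin (n a)) ℚ)} (hn : CS n) (hL : CS L)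
    (hV : ∀ a, ∃ H : Subgroup (genL (L a)), H.FiniteIndex ∧ Group.IsSolvable H) :
    MV (fun a (p : Pres) => Nonempty (p.G ≃* genL (L a))) := by
  have hM : CoordF fun a => Matrix (Fin (n a)) (Fin (n a)) ℚ :=
    CoordF.matrix (CFin.fin hn) Disc.fin (CFin.fin hn) Disc.fin
  have hv : CoordF fun a => Fin (n a) → ℚ := CoordF.pi (CFin.fin hn) Disc.fin
  have t2 : CS (fun q : Σ p : (Σ a, List (GL (Fin (n a)) ℚ)), GL (Fin (n p.1)) ℚ => q.1.1) :=
    s1.comp s1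
  have u2 : CS (fun q : Σ p : (Σ a, List (GL (Fin (n a)) ℚ)),
      Matrix (Fin (n p.1)) (Fin (n p.1)) ℚ => q.1.1) := s1.comp s1
  have u3 := u2.comp (s1 (β := fun q => GL (Fin (n q.1.1)) ℚ))
  have u4 := u2.comp (s1 (β := fun q => Fin (n q.1.1) → ℚ))
  have m : MV (fun a (l : List (GL (Fin (n a)) ℚ)) => (FreeGroup.lift l.get).range = genL (L a)) :=
    MV.search (Q' := fun a l => (∀ g ∈ l, g.val ∈ L a) ∧
      ∀ M ∈ L a, (∃ g ∈ l, g.val = M) ∨ ∃ v : Fin (n a) → ℚ, v ≠ 0 ∧ M *ᵥ v = 0)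
      (grpL hn).enum.list
      (CS.and (CS.allMem s2 (CS.memList (hM.disc.comp t2) s2.unitsVal (hL.comp t2)))
        (CS.allMem (hL.comp s1) (CS.or
          (CS.exMem (s2.comp s1) (CS.eq (hM.disc.comp u3) s2.unitsVal (s2.comp s1)))
          (CS.ex (hv.enum.comp u2) (CS.and (CS.ne (hv.haus.comp u4) s2 (hv.zero.comp u4))
            (CS.eq (hv.disc.comp u4) (CS.mulVec (CFin.fin (hn.comp u4)) AddF.rat ZeroF.rat MulF.rat
              (s2.comp s1) s2) (hv.zero.comp u4)))))))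
      (fun _ _ h => range_units h.1 h.2) fun a _ => exists_units (L a)
  refine m.bind (MV.of_cs (f := fun q => (⟨q.1.2.length, n q.1.1, q.1.2.get,
    tri_of_vsol (q.2 ▸ hV q.1.1)⟩ : Pres)) ?_ fun q _ => ?_)
  · refine CS.sigmaIntro (CS.length v2) (CS.sigmaIntro (hn.comp v1) ?_)
    exact CS.lam (CS.get (v2.comp s1) s2)
  · exact ⟨(QuotientGroup.quotientKerEquivRange _).trans (MulEquiv.subgroupCongr q.2)⟩

theorem cs_isoMat {L : ∀ a, List (Matrix (Fin (n a)) (Fin (n a)) ℚ)}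
    {L' : ∀ a, List (Matrix (Fin (n' a)) (Fin (n' a)) ℚ)} (hn : CS n) (hn' : CS n') (hL : CS L)
    (hL' : CS L') (hV : ∀ a, ∃ H : Subgroup (genL (L a)), H.FiniteIndex ∧ Group.IsSolvable H)
    (hV' : ∀ a, ∃ H : Subgroup (genL (L' a)), H.FiniteIndex ∧ Group.IsSolvable H) :
    CS (fun a => Nonempty (genL (L a) ≃* genL (L' a))) ∧
      CS (fun a => ¬ Nonempty (genL (L a) ≃* genL (L' a))) := by
  have m := (mv_pres hn hL hV).prod (mv_pres hn' hL' hV')
  have e : ∀ a (x : Pres × Pres), Nonempty (x.1.G ≃* genL (L a)) ∧ Nonempty (x.2.G ≃* genL (L' a)) →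
      (Nonempty (x.1.G ≃* x.2.G) ↔ Nonempty (genL (L a) ≃* genL (L' a))) :=
    fun a x ⟨⟨φ⟩, ⟨ψ⟩⟩ => ⟨fun ⟨χ⟩ => ⟨(φ.symm.trans χ).trans ψ⟩, fun ⟨χ⟩ => ⟨(φ.trans χ).trans ψ.symm⟩⟩
  refine ⟨m.elimP (cs_iso.comp s2) fun a x _ _ h => e a x h,
    m.elimP (P' := fun _ x => ¬ Nonempty (x.1.G ≃* x.2.G))
      (cs_nonIso.comp (g := fun q : Σ _ : A, Pres × Pres =>
        (⟨q.2, q.2.1.finRank, q.2.2.finRank⟩ : PP)) s2) fun a x _ _ h => (e a x h).not⟩

end Pool.Agent.P.MP_257122_al.X
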