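import Pool.Agent.P.MP_257122_al.X.Dsk
import Pool.Agent.P.MP_257122_al.X.Fin

/-!
# Inclusion of kernels is recursively enumerable

PLAN.  `cs_leNcl`: certificate `τ, r` with `Cov (ncl Y) τ r`; `π : Fin b → Perm (Fin e)` that kills
`Y` and `τ`, every `s ∈ r` lies in `ncl Y` or `π s ≠ 1`, `ker ≤ ker π` (`cs_killFin`); a
representation `λ` with weights `< 2`, `IsPar` generators, `λ (τ j)` unipotent, `λ Y = 1`, the
`λ (τ j) - 1` independent (`CS.linIndep`), so `Adapt wt 2 λ (ker π)`, and `ker ≤ ker λ`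
(`cs_killSub` on the subtype).  SOUND: `MAffAux.isSec_cj`.  COMPLETE: `K.vtf` gives `T`,
`exists_isMark`, `exists_cov`, `π` is the action on the cosets of `T`, `exists_aff T (ncl Y)`
(`K.vab_finRank`); independence over `ℤ` gives independence over `ℚ`.
`cs_kill`: `mv_nf` for `h`, `cs_leNcl`, `cs_killSub`, `cjH_ker`.
-/

namespace Pool.Agent.P.MP_257122_al.X

open scoped commutatorElement

namespace Kill

section pure
variable {G : Type} [Group G]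

theorem sec_zp {V : Type} [AddCommGroup V] [Module ℚ V] {D : Subgroup G}
    {act : G →* Module.End ℚ V} {δ : G → V} (h : IsSec D act δ) {k : ℕ} {τ : Fin k → G}
    (hτ : ∀ j, τ j ∈ D) (t : Fin k → ℤ) : δ (zp τ t) = ∑ j, t j • δ (τ j) := by
  induction k with
  | zero =>
    rw [Fin.sum_univ_zero]
    exact h.one
  | succ k ih =>
    have e : zp τ t = τ 0 ^ t 0 * zp (fun j => τ j.succ) fun j => t j.succ := by
      simp only [zp, List.ofFn_succ, List.prod_cons]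
    rw [e, h.1 _ (D.zpow_mem (hτ 0) _) _ (zp_mem (fun j => hτ _) _), h.zpow (hτ 0),
      ih fun j => hτ _, Fin.sum_univ_succ]

theorem vab_fin (T : Subgroup G) [T.Normal] [T.FiniteIndex] : VAb T :=
  ⟨T, inferInstance, inferInstance, le_rfl, Subgroup.commutator_le_self _⟩

theorem exists_perm (T : Subgroup G) [T.Normal] [T.FiniteIndex] :
    ∃ (e : ℕ) (π : G →* Equiv.Perm (Fin e)), π.ker = T := by
  obtain ⟨e, ⟨ι⟩⟩ := Finite.exists_equiv_fin (G ⧸ T)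
  refine ⟨e, (Equiv.Perm.viaEmbeddingHom ι.toEmbedding).comp (MulAction.toPermHom G (G ⧸ T)), ?_⟩
  rw [← MonoidHom.comap_ker, (MonoidHom.ker_eq_bot_iff _).2
    (Equiv.Perm.viaEmbeddingHom_injective _), MonoidHom.comap_bot, ← Subgroup.normalCore_eq_ker,
    Subgroup.normalCore_eq_self]

end pure

/-- The first part of the certificate. -/
def Pre {b k e d : ℕ} (Y : List (Fr b)) (τ : Fin k → Fr b) (r : List (Fr b))
    (π : Fr b →* Equiv.Perm (Fin e)) (wt : Fin d → ℕ) (l : Fin b → GL (Fin d) ℚ) : Prop :=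
  Cov (K.ncl Y) τ r ∧
    ((∀ y ∈ Y, π y = 1) ∧ (∀ j, π (τ j) = 1) ∧ ∀ s ∈ r, s ∈ K.ncl Y ∨ ¬ π s = 1) ∧
    ((∀ i, wt i < 2) ∧ (∀ x, IsPar wt (l x)) ∧ (∀ j, IsUni wt (FreeGroup.lift l (τ j))) ∧
      ∀ y ∈ Y, FreeGroup.lift l y = 1) ∧
    LinearIndependent ℚ fun j => (FreeGroup.lift l (τ j)).val - 1

section cert
variable {b k e d : ℕ} {Y : List (Fr b)} {τ : Fin k → Fr b} {r : List (Fr b)}
  {π : Fr b →* Equiv.Perm (Fin e)} {wt : Fin d → ℕ} {l : Fin b → GL (Fin d) ℚ}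

theorem Pre.red (h : Pre Y τ r π wt l) {w : Fr b} (hw : w ∈ π.ker) :
    ∃ t, w * (zp τ t)⁻¹ ∈ K.ncl Y := by
  obtain ⟨h1, ⟨h2, h3, h4⟩, -⟩ := h
  have k1 : K.ncl Y ≤ π.ker := Subgroup.normalClosure_le_normal h2
  obtain ⟨s, hs, t, ht⟩ := h1.2 w
  have k2 : zp τ t ∈ π.ker := zp_mem h3 t
  have k3 : s ∈ π.ker := by
    have := mul_mem (inv_mem (mul_mem (k1 ht) k2)) hw
    rwa [show (w * s⁻¹ * (zp τ t)⁻¹ * zp τ t)⁻¹ * w = s by group] at this
  have k4 : s ∈ K.ncl Y := (h4 s hs).resolve_right fun c => c k3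
  refine ⟨t, ?_⟩
  have := mul_mem ht (Subgroup.Normal.conj_mem inferInstance s k4 (zp τ t))
  rwa [show w * s⁻¹ * (zp τ t)⁻¹ * (zp τ t * s * (zp τ t)⁻¹) = w * (zp τ t)⁻¹ by group] at this

theorem Pre.val (h : Pre Y τ r π wt l) {w : Fr b} {t : Fin k → ℤ}
    (ht : w * (zp τ t)⁻¹ ∈ K.ncl Y) : FreeGroup.lift l w = FreeGroup.lift l (zp τ t) := by
  have k1 : K.ncl Y ≤ (FreeGroup.lift l).ker := Subgroup.normalClosure_le_normal h.2.2.1.2.2.2
  have k2 := MonoidHom.mem_ker.1 (k1 ht)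
  rwa [map_mul, map_inv, mul_inv_eq_one] at k2

theorem Pre.adapt (h : Pre Y τ r π wt l) : Adapt wt 2 (FreeGroup.lift l) π.ker := by
  refine ⟨h.2.2.1.1, isPar_lift h.2.2.1.2.1, fun w hw => ?_⟩
  obtain ⟨t, ht⟩ := h.red hw
  rw [h.val ht]
  refine isUni_ncl (isPar_lift h.2.2.1.2.1) (s := Set.range τ) ?_ _
    (zp_mem (fun j => Subgroup.subset_normalClosure (Set.mem_range_self j)) t)
  rintro _ ⟨j, rfl⟩
  exact h.2.2.1.2.2.1 j

theorem Pre.sound (h : Pre Y τ r π wt l) {S : Subgroup (Fr b)} (h1 : S ≤ π.ker)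
    (h2 : S ≤ (FreeGroup.lift l).ker) : S ≤ K.ncl Y := by
  intro w hw
  obtain ⟨t, ht⟩ := h.red (h1 hw)
  have k1 := sec_zp (MAffAux.isSec_cj h.adapt) (τ := τ) h.2.1.2.1 t
  rw [← h.val ht, MonoidHom.mem_ker.1 (h2 hw), Units.val_one, sub_self] at k1
  have k2 := Fintype.linearIndependent_iff.1
    ((LinearIndependent.iff_fractionRing ℤ ℚ).2 h.2.2.2) t k1.symm
  obtain rfl : t = 0 := funext k2
  rwa [zp_zero, inv_one, mul_one] at ht

end cert

/-- The guessed data. -/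
abbrev Dat (b : ℕ) : Type :=
  (Σ k : ℕ, Fin k → Fr b) × List (Fr b) × (Σ e : ℕ, Fin b → Equiv.Perm (Fin e)) ×
    Σ d : ℕ, (Fin d → ℕ) × (Fin b → GL (Fin d) ℚ)

/-- The certificate. -/
def Cert {b k e d : ℕ} (S : Subgroup (Fr b)) (Y : List (Fr b)) (τ : Fin k → Fr b) (r : List (Fr b))
    (π : Fin b → Equiv.Perm (Fin e)) (wt : Fin d → ℕ) (l : Fin b → GL (Fin d) ℚ) : Prop :=
  ∃ _ : Pre Y τ r (FreeGroup.lift π) wt l ∧ S ≤ (FreeGroup.lift π).ker,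
    S ≤ (FreeGroup.lift l).ker

theorem complete {b : ℕ} {S : Subgroup (Fr b)} {Y : List (Fr b)} (hV : VAb (K.ncl Y))
    (h : S ≤ K.ncl Y) :
    ∃ x : Dat b, Cert S Y x.1.2 x.2.1 x.2.2.1.2 x.2.2.2.2.1 x.2.2.2.2.2 := by
  obtain ⟨T, ⟨h1, h2, h3, h4⟩, h5⟩ := K.vtf hV le_rfl (by rw [Subgroup.relIndex_self]; omega)
  obtain ⟨k, τ, hM⟩ := exists_isMark h3 h4 h5
  obtain ⟨r, hr, hr'⟩ := exists_cov hM
  obtain ⟨e, π, hπ⟩ := exists_perm T
  obtain ⟨π, rfl⟩ := FreeGroup.lift.surjective π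
  obtain ⟨d, wt, σ, hA, hσ⟩ := exists_aff T (K.ncl Y) (vab_fin T) h4 h3 (K.vab_finRank hV)
  obtain ⟨l, rfl⟩ := FreeGroup.lift.surjective σ
  have k1 : K.ncl Y ≤ (FreeGroup.lift l).ker := fun y hy =>
    (hσ y (h3 hy)).2 ⟨1, one_pos, pow_mem hy 1⟩
  have k2 : ∀ y ∈ T, FreeGroup.lift π y = 1 := fun y hy => MonoidHom.mem_ker.1 (hπ.ge hy)
  refine ⟨⟨⟨k, τ⟩, r, ⟨e, π⟩, d, wt, l⟩, ⟨⟨hr, ⟨fun y hy => k2 y (h3 ?_),
    fun j => k2 _ (hM.2.2.1 j), fun s hs => ?_⟩, ⟨hA.1, fun x => ?_, fun j => hA.2.2 _ (hM.2.2.1 j),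
    fun y hy => k1 (Subgroup.subset_normalClosure hy)⟩, ?_⟩, h.trans (h3.trans hπ.ge)⟩,
    h.trans k1⟩
  · exact Subgroup.subset_normalClosure hy
  · refine (hr' s hs).imp (fun c => ?_) fun c c' => c (hπ.le c')
    rw [c]
    exact one_mem _
  · have := hA.2.1 (FreeGroup.of x)
    rwa [FreeGroup.lift_apply_of] at this
  · refine (LinearIndependent.iff_fractionRing ℤ ℚ).1 (Fintype.linearIndependent_iff.2 fun t ht => ?_)
    have k3 := (sec_zp (MAffAux.isSec_cj hA) hM.2.2.1 t).trans ht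
    have k4 := zp_mem hM.2.2.1 t
    obtain ⟨m, hm, k5⟩ := (hσ _ k4).1 (Units.ext (sub_eq_zero.1 k3))
    exact congrFun (hM.2.2.2.2 t (h5 _ k4 m hm k5))

section comp
open FOpsAux
variable {A : Type} [Rep A] {b n k e d : A → ℕ} {Y r : ∀ a, List (Fr (b a))}
  {τ : ∀ a, Fin (k a) → Fr (b a)} {π : ∀ a, Fin (b a) → Equiv.Perm (Fin (e a))}
  {wt : ∀ a, Fin (d a) → ℕ} {l : ∀ a, Fin (b a) → GL (Fin (d a)) ℚ}
  {g : ∀ a, Fin (b a) → GL (Fin (n a)) ℚ}

theorem cs_pre (hb : CS b) (hk : CS k) (he : CS e) (hd : CS d) (hY : CS Y) (hτ : CS τ) (hr : CS r)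
    (hπ : CS π) (hw : CS wt) (hl : CS l) :
    CS (fun a => Pre (Y a) (τ a) (r a) (FreeGroup.lift (π a)) (wt a) (l a)) := by
  have hP := GResAux.grpPerm he
  have hL := grpL hd
  have hN := cs_nclL hb hY
  have h1 := CS.freeLift hP.mul hP.inv hP.one hπ
  have h2 := cs_lift hd hl
  have h3 : CS fun q : Σ a, Fin (k a) => τ q.1 q.2 := CS.app (hτ.comp s1) s2
  have hV : CoordF fun a => Matrix (Fin (d a)) (Fin (d a)) ℚ :=
    CoordF.matrix (CFin.fin hd) Disc.fin (CFin.fin hd) Disc.fin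
  have h4 : CS fun a j => (FreeGroup.lift (l a) (τ a j)).val - 1 :=
    CS.lam (CS.sub (hV.add.comp s1) (hV.neg.comp s1) (CS.homApp (h2.comp s1) h3).unitsVal
      (CS.one (OneF.matrix Disc.fin Haus.fin ZeroF.rat OneF.rat)))
  exact (cs_cov hb hk hN (fun _ => inferInstance) hτ hr).and
    (((CS.allMem hY (CS.eq (hP.disc.comp s1) (CS.homApp (h1.comp s1) s2) (hP.one.comp s1))).and
      ((CS.all (CFin.fin hk)
        (CS.eq (hP.disc.comp s1) (CS.homApp (h1.comp s1) h3) (hP.one.comp s1))).and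
        (CS.allMem hr ((CS.memSubgroup (hN.comp s1) s2).or
          (CS.notEq ((Haus.perm (CFin.fin he) Disc.fin).comp s1) (CS.homApp (h1.comp s1) s2)
            (hP.one.comp s1)))))).and
    (((CS.all (CFin.fin hd) (CS.lt LtF.nat (CS.app (hw.comp s1) s2) CS.const)).and
      ((CS.all (CFin.fin hb) (CS.isPar (hd.comp s1) (hw.comp s1) (CS.app (hl.comp s1) s2))).and
        ((CS.all (CFin.fin hk) (CS.isUni (hd.comp s1) (hw.comp s1) (CS.homApp (h2.comp s1) h3))).and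
          (CS.allMem hY
            (CS.eq (hL.disc.comp s1) (CS.homApp (h2.comp s1) s2) (hL.one.comp s1)))))).and
      (CS.linIndep hV (CFin.fin hk) Disc.fin h4)))

theorem cs_cert (hb : CS b) (hn : CS n) (hk : CS k) (he : CS e) (hd : CS d) (hg : CS g) (hY : CS Y)
    (hτ : CS τ) (hr : CS r) (hπ : CS π) (hw : CS wt) (hl : CS l)
    (hT : ∀ a, Tri (FreeGroup.lift (g a))) :
    CS (fun a => Cert (FreeGroup.lift (g a)).ker (Y a) (τ a) (r a) (π a) (wt a) (l a)) :=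
  have v := FEnumAux.v1 (p := fun a =>
    Pre (Y a) (τ a) (r a) (FreeGroup.lift (π a)) (wt a) (l a) ∧
      (FreeGroup.lift (g a)).ker ≤ (FreeGroup.lift (π a)).ker)
  CS.exD ((cs_pre hb hk he hd hY hτ hr hπ hw hl).and
      (cs_killFin (GResAux.grpPerm he) (CFin.perm (CFin.fin he) Disc.fin) hb hn hg hπ hT))
    (cs_killSub (hb.comp v) (hn.comp v) (hd.comp v) (hw.comp v) CS.const (hg.comp v) (hl.comp v)
      (fun a => hT a.1) (fun a => a.2.1.adapt) (fun _ => ⟨inferInstance, vab_fin _⟩)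
      fun a => a.2.2)

theorem enum_dat (hb : CS b) : Enum (fun a => Dat (b a)) :=
  (Enum.sigma Enum.nat (Enum.pi (CFin.fin s2) Disc.fin ((grpF hb).enum.comp (s1.comp s1)))).prod
    ((Enum.list (grpF hb).enum).prod
      ((Enum.sigma Enum.nat
        (Enum.pi (CFin.fin (hb.comp s1)) Disc.fin ((GResAux.grpPerm s2).enum.comp s1))).prod
        (Enum.sigma Enum.nat ((Enum.pi (CFin.fin s2) Disc.fin Enum.nat).prod
          (Enum.pi (CFin.fin (hb.comp s1)) Disc.fin ((grpL s2).enum.comp s1))))))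

end comp

end Kill

variable {A : Type} [Rep A] {b n m : A → ℕ} {g : ∀ a, Fin (b a) → GL (Fin (n a)) ℚ}

open FOpsAux Kill in
theorem cs_leNcl {Y : ∀ a, List (Fr (b a))} (hb : CS b) (hn : CS n) (hg : CS g) (hY : CS Y)
    (hT : ∀ a, Tri (FreeGroup.lift (g a))) (hV : ∀ a, VAb (K.ncl (Y a))) :
    CS (fun a => (FreeGroup.lift (g a)).ker ≤ K.ncl (Y a)) := by
  have x := s2 (β := fun a => Dat (b a))
  have x1 := FEnumAux.s2 x.fst
  have x2 := FEnumAux.s2 x.snd.snd.fst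
  have x3 := FEnumAux.s2 x.snd.snd.snd
  refine (CS.ex (P := fun a (x : Dat (b a)) => Cert (FreeGroup.lift (g a)).ker (Y a) x.1.2 x.2.1
    x.2.2.1.2 x.2.2.2.2.1 x.2.2.2.2.2) (enum_dat hb)
    (cs_cert (hb.comp s1) (hn.comp s1) x.fst.sfst x.snd.snd.fst.sfst x.snd.snd.snd.sfst
      (hg.comp s1) (hY.comp s1) x1 x.snd.fst x2 x3.fst x3.snd fun a => hT a.1)).of_iff
    fun a _ => ⟨fun ⟨_, h1, h2⟩ => h1.1.sound h1.2 h2, complete (hV a)⟩

open FOpsAux Kill in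
theorem cs_kill {h : ∀ a, Fin (b a) → GL (Fin (m a)) ℚ} (hb : CS b) (hn : CS n) (hm : CS m)
    (hg : CS g) (hh : CS h) (hT : ∀ a, Tri (FreeGroup.lift (g a)))
    (hT' : ∀ a, Tri (FreeGroup.lift (h a))) :
    CS (fun a => (FreeGroup.lift (g a)).ker ≤ (FreeGroup.lift (h a)).ker) := by
  refine (mv_nf hb hm hh hT').elim ?_
  have u := v1 (β := fun a => NFD (b a) (m a)) (Q := fun p => NF (h p.1) p.2)
  have x := v2 (β := fun a => NFD (b a) (m a)) (Q := fun p => NF (h p.1) p.2)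
  have v := FEnumAux.v1 (p := fun p : {p : Σ a, NFD (b a) (m a) // NF (h p.1) p.2} =>
    (FreeGroup.lift (g p.1.1)).ker ≤ K.ncl p.1.2.2.2.2)
  refine (CS.exD (Q := fun p _ => (FreeGroup.lift (g p.1.1)).ker ≤
      (FreeGroup.lift (cjG p.1.2.1 (h p.1.1))).ker)
    (cs_leNcl (hb.comp u) (hn.comp u) (hg.comp u) x.snd.snd.snd (fun p => hT p.1.1)
      fun p => p.2.2.1)
    (cs_killSub (hb.comp (u.comp v)) (hn.comp (u.comp v)) (hm.comp (u.comp v)) (x.snd.fst.comp v)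
      (x.snd.snd.fst.comp v) (hg.comp (u.comp v)) ((cs_cjG (hm.comp u) x.fst (hh.comp u)).comp v)
      (fun p => hT p.1.1.1) (fun p => p.1.2.1) (fun p => ⟨inferInstance, p.1.2.2.1⟩)
      fun p => p.2)).of_iff fun p _ => ?_
  rw [lift_cjG, cjH_ker]
  refine ⟨fun ⟨_, k⟩ => k, fun k => ⟨fun w hw => p.2.2.2 w ?_, k⟩⟩
  rw [MonoidHom.mem_ker.1 (k hw), Units.val_one, sub_self]
  exact IsNilpotent.zero

end Pool.Agent.P.MP_257122_al.X
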