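import Pool.Agent.P.MP_257122_al.X.Pres

/-!
# Matrices that see the action on the canonical abelian section; markings
-/

namespace Pool.Agent.P.MP_257122_al.X

open scoped commutatorElement
open Matrix MAffAux

/-- The preimage of the derived subgroup, up to relations. -/
def D1 (p : Pres) (e : ℕ) : Subgroup (Fr p.1) :=
  ⁅(res e p.G).comap p.q, (res e p.G).comap p.q⁆

theorem map_D1 (p : Pres) (e : ℕ) : (D1 p e).map p.q = dres e p.G := by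
  rw [D1, Subgroup.map_commutator,
    Subgroup.map_comap_eq_self_of_surjective (QuotientGroup.mk'_surjective p.S)]
  rfl

theorem vab_D1 (p : Pres) (e : ℕ) : (D1 p e).Normal ∧ VAb (D1 p e) := by
  have := res_finiteIndex (G := p.G) e
  refine ⟨Subgroup.commutator_normal _ _, (res e p.G).comap p.q, inferInstance, ⟨?_⟩,
    Subgroup.commutator_le_self _, le_rfl⟩
  rw [Subgroup.index_comap_of_surjective _ (QuotientGroup.mk'_surjective p.S)]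
  exact Subgroup.FiniteIndex.index_ne_zero

/-- The certificate. -/
def Cert (p : Pres) (e : ℕ) {k r : ℕ} (τ : Fin k → Fr p.1) (M : Fin k → GL (Fin r) ℚ) : Prop :=
  (∃ x : Dat p.1 r, (∃ _ : Adapt x.2.1 2 (FreeGroup.lift x.2.2.1) (D1 p e),
      p.S ≤ (FreeGroup.lift x.2.2.1).ker) ∧ (∀ i, x.2.2.2 i ∈ D1 p e) ∧
      Lin τ M (FreeGroup.lift x.2.2.1) x.2.2.2) ∧
    ∃ _ : ∀ i j, M i * M j = M j * M i, Faith M

theorem adapt_lift {p : Pres} {e n : ℕ} {wt : Fin n → ℕ} {σ : Fr p.1 →* GL (Fin n) ℚ}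
    (h : Adapt wt 2 σ (D1 p e)) (hS : p.S ≤ σ.ker) :
    Adapt wt 2 (QuotientGroup.lift p.S σ hS) (dres e p.G) := by
  refine ⟨h.1, fun g => ?_, fun y hy => ?_⟩
  · obtain ⟨x, rfl⟩ := QuotientGroup.mk_surjective g
    exact h.2.1 x
  · rw [← map_D1] at hy
    obtain ⟨x, hx, rfl⟩ := hy
    exact h.2.2 x hx

theorem sound {p : Pres} {e₁ e₂ k r : ℕ} {τ : Fin k → Fr p.1} {M : Fin k → GL (Fin r) ℚ}
    (hT : ∀ j, τ j ∈ p.T e₁ e₂) (h : Cert p e₁ τ M) :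
    Sees (dres e₁ p.G) (Ncan e₁ e₂ p.G) (fun j => p.q (τ j)) M ∧ Faith M := by
  obtain ⟨⟨⟨n, wt, g, c⟩, ⟨h1, h2⟩, h3, h4, h5⟩, h6, h7⟩ := h
  refine ⟨⟨h6, sees_of_sec (isSec_cj (adapt_lift h1 h2)) (c := fun i => p.q (c i))
    (fun i => ?_) h4 (fun j => (hT j).1) fun j => mem_tw.2 (h5 j)⟩, h7⟩
  rw [← map_D1]
  exact Subgroup.mem_map_of_mem _ (h3 i)

theorem complete {p : Pres} {e₁ e₂ k : ℕ} {τ : Fin k → Fr p.1} (hG : FinRank p.G)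
    (hT : ∀ j, τ j ∈ p.T e₁ e₂) (hI : ∀ t, zp τ t ∈ p.N e₁ e₂ → t = 0) :
    ∃ B : Σ r : ℕ, Fin k → GL (Fin r) ℚ, Cert p e₁ τ B.2 := by
  have := res_finiteIndex (G := p.G) e₁
  have hv : VAb (dres e₁ p.G) :=
    ⟨res e₁ p.G, inferInstance, this, Subgroup.commutator_le_self _, le_rfl⟩
  have hS : ∀ K : Subgroup p.G, p.S ≤ K.comap p.q := fun K y hy => by
    rw [Subgroup.mem_comap, QuotientGroup.mk'_apply, (QuotientGroup.eq_one_iff y).2 hy]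
    exact one_mem _
  obtain ⟨n, wt, σ, h1, h2⟩ := exists_aff ((dres e₁ p.G).comap p.q)
    ((⁅dres e₁ p.G, dres e₁ p.G⁆).comap p.q) (hv.comap _) (gb_comm_comap _ _ _)
    (Subgroup.comap_mono (Subgroup.commutator_le_self _)) (hG.quot_mono (hS _))
  obtain ⟨g, rfl⟩ := FreeGroup.lift.surjective σ
  have h3 : Adapt wt 2 (FreeGroup.lift g) (D1 p e₁) :=
    ⟨h1.1, h1.2.1, fun y hy => h1.2.2 y (gb_comm_comap _ _ _ hy)⟩
  have h4 : p.S ≤ (FreeGroup.lift g).ker := fun y hy =>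
    (h2 y (hS _ hy)).2 ⟨1, one_pos, hS _ (pow_mem hy 1)⟩
  have hs := isSec_cj (adapt_lift h3 h4)
  obtain ⟨r, c, ρ, k1, k2, k3, k4⟩ := exists_mat hs
  have k5 : ∀ i, ∃ x ∈ D1 p e₁, p.q x = c i := fun i => Subgroup.mem_map.1 (map_D1 p e₁ ▸ k1 i)
  choose c' k5 k6 using k5
  obtain rfl : c = fun i => p.q (c' i) := funext fun i => (k6 i).symm
  have k9 : Lin τ (fun j => ρ (p.q (τ j))) (FreeGroup.lift g) c' :=
    ⟨k2, fun j => mem_tw.1 (k3 (p.q (τ j)))⟩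
  refine ⟨⟨r, fun j => ρ (p.q (τ j))⟩, ⟨⟨n, wt, g, c'⟩, ⟨h3, h4⟩, k5, k9⟩,
    fun i j => comm_mat hs k1 k2 k3 (hT i).1 (hT j).1, fun t ⟨m, hm⟩ => hI t ?_⟩
  · refine mem_Ncan.2 ⟨zp_mem hT t, m, fun d hd => ?_⟩
    have k7 := itc_zero hs k4 (tw_zp _ (fun j => k3 (p.q (τ j))) t) hm hd
    rw [← map_zp] at k7
    have k8 := itc_mem (p.q (zp τ t)) hd m
    obtain ⟨y, hy⟩ := QuotientGroup.mk'_surjective p.S (itc (p.q (zp τ t)) d m)
    rw [← hy] at k7 k8 ⊢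
    obtain ⟨s, hs1, hs2⟩ := (h2 y k8).1 (Units.ext (sub_eq_zero.1 k7))
    exact ⟨s, hs1, by rwa [Subgroup.mem_comap, map_pow] at hs2⟩

section comp
open FOpsAux
variable {A : Type} [Rep A] {p : A → Pres} {e b k r n : A → ℕ} {wt : ∀ a, Fin (n a) → ℕ}

theorem cs_D1 (hp : CS p) (he : CS e) : CS (fun a => D1 (p a) (e a)) :=
  CS.subgroupComm (grpF hp.sfst) (CS.presRes hp he) (CS.presRes hp he)

theorem cs_adapt {g : ∀ a, Fin (p a).1 → GL (Fin (n a)) ℚ} (hp : CS p) (he : CS e) (hn : CS n)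
    (hw : CS wt) (hg : CS g) :
    CS (fun a => Adapt (wt a) 2 (FreeGroup.lift (g a)) (D1 (p a) (e a))) := by
  have h1 : CS (fun a => ∀ i, wt a i < 2) :=
    CS.all (CFin.fin hn) (CS.lt LtF.nat (CS.app (hw.comp s1) s2) CS.const)
  have h2 : CS (fun a => ∀ x, IsPar (wt a) (g a x)) :=
    CS.all (CFin.fin hp.sfst) (CS.isPar (hn.comp s1) (hw.comp s1) (CS.app (hg.comp s1) s2))
  refine (MV.gensRes hp he).elimP (P' := fun a E => (∀ i, wt a i < 2) ∧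
    (∀ x, IsPar (wt a) (g a x)) ∧
      ∀ x ∈ E, ∀ y ∈ E, IsUni (wt a) (FreeGroup.lift (g a) ⁅x, y⁆))
    ((h1.comp s1).and ((h2.comp s1).and
      (cs_uni (hn.comp s1) (hw.comp s1) ((cs_lift hn hg).comp s1) s2))) fun a E _ _ hE => ?_
  refine and_congr_right fun _ => ⟨fun h => ⟨isPar_lift h.1, fun y hy => ?_⟩,
    fun h => ⟨fun x => ?_, fun x hx y hy => h.2 _ ?_⟩⟩
  · refine isUni_ncl (isPar_lift h.1) (s := {z | ∃ x ∈ E, ∃ y ∈ E, ⁅x, y⁆ = z}) ?_ y ?_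
    · rintro _ ⟨x, hx, y, hy, rfl⟩
      exact h.2 x hx y hy
    · rw [D1, ← hE] at hy
      refine gb_comm_le (fun x hx y hy => Subgroup.subset_normalClosure ?_) hy
      exact ⟨x, hx, y, hy, rfl⟩
  · have := h.1 (FreeGroup.of x)
    rwa [FreeGroup.lift_apply_of] at this
  · rw [D1, ← hE]
    exact Subgroup.commutator_mem_commutator (Subgroup.subset_closure hx)
      (Subgroup.subset_closure hy)

theorem cs_aff {g : ∀ a, Fin (p a).1 → GL (Fin (n a)) ℚ} (hp : CS p) (he : CS e) (hn : CS n)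
    (hw : CS wt) (hg : CS g) :
    CS (fun a => ∃ _ : Adapt (wt a) 2 (FreeGroup.lift (g a)) (D1 (p a) (e a)),
      (p a).S ≤ (FreeGroup.lift (g a)).ker) :=
  have v := FEnumAux.v1 (p := fun a => Adapt (wt a) 2 (FreeGroup.lift (g a)) (D1 (p a) (e a)))
  CS.exD (cs_adapt hp he hn hw hg) (cs_kill (hp.sfst.comp v) ((pn hp).comp v) (hn.comp v)
    ((pg hp).comp v) (hg.comp v) (fun a => (p a.1).2.2.2)
    fun a => have := (vab_D1 (p a.1) (e a.1)).1; tri_of_adapt a.2 (vab_D1 _ _).2)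

theorem cs_cert {τ : ∀ a, Fin (k a) → Fr (p a).1} {M : ∀ a, Fin (k a) → GL (Fin (r a)) ℚ}
    (hp : CS p) (he : CS e) (hk : CS k) (hr : CS r) (hτ : CS τ) (hM : CS M) :
    CS (fun a => Cert (p a) (e a) (τ a) (M a)) := by
  have h1 := s2 (β := fun a => Dat (p a).1 (r a))
  have h2 := FEnumAux.s2 h1
  have v := FEnumAux.v1 (p := fun a => ∀ i j, M a i * M a j = M a j * M a i)
  have w : CS fun q : Σ q : (Σ a, Fin (k a)), Fin (k q.1) => q.1.1 := s1.comp s1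
  have m1 := CS.app (hM.comp w) (s2.comp s1)
  have m2 := CS.app (hM.comp w) s2
  have hG := (grpL hr).comp w
  exact (CS.ex (enum_dat hp.sfst hr)
    ((cs_aff (hp.comp s1) (he.comp s1) h1.sfst h2.fst h2.snd.fst).and
      ((CS.all (CFin.fin (hr.comp s1)) (CS.memSubgroup ((cs_D1 hp he).comp (s1.comp s1))
        (CS.app (h2.snd.snd.comp s1) s2))).and
        (cs_lin (hk.comp s1) (hr.comp s1) h1.sfst (hτ.comp s1) (hM.comp s1)
          (cs_lift h1.sfst h2.snd.fst) h2.snd.snd)))).and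
    (CS.exD (CS.all (CFin.fin hk) (CS.all (CFin.fin (hk.comp s1))
      (CS.eq hG.disc (CS.mul hG.mul m1 m2) (CS.mul hG.mul m2 m1))))
      (cs_faith (hk.comp v) (hr.comp v) (hM.comp v) fun a => a.2))

theorem cs_certB {τ : ∀ a, Fin (k a) → Fr (p a).1} (hp : CS p) (he : CS e) (hk : CS k)
    (hτ : CS τ) : CS (fun q : Σ a, Σ r : ℕ, Fin (k a) → GL (Fin r) ℚ =>
      Cert (p q.1) (e q.1) (τ q.1) q.2.2) :=
  have h := s2 (β := fun a => Σ r : ℕ, Fin (k a) → GL (Fin r) ℚ)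
  have h' := FEnumAux.s2 h
  cs_cert (hp.comp s1) (he.comp s1) (hk.comp s1) h.sfst (hτ.comp s1) h'

end comp

section
variable {A : Type} [Rep A] {p : A → Pres} {e₁ e₂ k : A → ℕ} {τ : ∀ a, Fin (k a) → Fr (p a).1}

/-- Independence modulo the canonical subgroup is r.e. -/
theorem cs_presInd (hp : CS p) (h1 : CS e₁) (h2 : CS e₂) (hk : CS k) (hτ : CS τ)
    (hG : ∀ a, FinRank (p a).G) (hT : ∀ a j, τ a j ∈ (p a).T (e₁ a) (e₂ a)) :
    CS (fun a => ∀ t, zp (τ a) t ∈ (p a).N (e₁ a) (e₂ a) → t = 0) := by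
  refine (CS.ex (enum_mat hk) (cs_certB hp h1 hk hτ)).of_iff fun a _ =>
    ⟨fun ⟨B, hB⟩ t ht => ?_, complete (hG a) (hT a)⟩
  obtain ⟨k1, k2⟩ := sound (hT a) hB
  exact faith_of_sees k1 k2 (map_zp (p a).q (τ a) t ▸ ht)

theorem mv_sees (hp : CS p) (h1 : CS e₁) (h2 : CS e₂) (hk : CS k) (hτ : CS τ)
    (hG : ∀ a, FinRank (p a).G) (hT : ∀ a j, τ a j ∈ (p a).T (e₁ a) (e₂ a))
    (hI : ∀ a t, zp (τ a) t ∈ (p a).N (e₁ a) (e₂ a) → t = 0) :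
    MV (fun a (B : Σ r : ℕ, Fin (k a) → GL (Fin r) ℚ) =>
      Sees (dres (e₁ a) (p a).G) (Ncan (e₁ a) (e₂ a) (p a).G) (fun j => (p a).q (τ a j)) B.2 ∧
        Faith B.2) :=
  MV.search (enum_mat hk) (cs_certB hp h1 hk hτ) (fun a _ h => sound (hT a) h)
    fun a _ => complete (hG a) (hT a) (hI a)

end

open FOpsAux

theorem Pres.S_le_N (p : Pres) (e₁ e₂ : ℕ) : p.S ≤ p.N e₁ e₂ := fun g hg => by
  have h : p.q g = 1 := (QuotientGroup.eq_one_iff g).2 hg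
  rw [Pres.N, Subgroup.mem_comap, h]
  exact one_mem _
instance Pres.N_normal (p : Pres) (e₁ e₂ : ℕ) : (p.N e₁ e₂).Normal :=
  Subgroup.Normal.comap inferInstance _
instance Pres.T_normal (p : Pres) (e₁ e₂ : ℕ) : (p.T e₁ e₂).Normal :=
  Subgroup.Normal.comap inferInstance _
instance Pres.T_finiteIndex (p : Pres) (e₁ e₂ : ℕ) : (p.T e₁ e₂).FiniteIndex :=
  ⟨by
    rw [Pres.T, Subgroup.index_comap_of_surjective _ (QuotientGroup.mk'_surjective p.S)]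
    exact (res₂_finiteIndex e₁ e₂).index_ne_zero⟩
theorem Pres.vab_N (p : Pres) (e₁ e₂ : ℕ) : VAb (p.N e₁ e₂) :=
  VAb.comap ⟨res₂ e₁ e₂ p.G, inferInstance, res₂_finiteIndex e₁ e₂,
    fun _ hg => (mem_Ncan.1 hg).1, comm_res₂_le e₁ e₂⟩ _
theorem Pres.nilMod {p : Pres} {e₁ e₂ : ℕ} (h : GoodPar e₁ e₂ p.G) : NilMod (p.N e₁ e₂) p.S :=
  by
    have h1 := h.1.comap p.q
    rwa [MonoidHom.comap_bot, QuotientGroup.ker_mk'] at h1
theorem mm_le (p : Pres) (e₁ e₂ : ℕ) : p.N e₁ e₂ ≤ p.T e₁ e₂ := fun _ hg => (mem_Ncan.1 hg).1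

theorem mm_comm (p : Pres) (e₁ e₂ : ℕ) : ⁅p.T e₁ e₂, p.T e₁ e₂⁆ ≤ p.N e₁ e₂ :=
  (gb_comm_comap _ _ _).trans (Subgroup.comap_mono (comm_res₂_le e₁ e₂))

theorem mm_iso {p p' : Pres} {u : Fr p.1 →* Fr p'.1} {v : Fr p'.1 →* Fr p.1}
    (h : Compat p.S p'.S u v) :
    ∃ φ : p.G ≃* p'.G, (∀ g, φ (p.q g) = p'.q (u g)) ∧ ∀ g, φ.symm (p'.q g) = p.q (v g) :=
  ⟨MonoidHom.toMulEquiv (QuotientGroup.map p.S p'.S u h.1) (QuotientGroup.map p'.S p.S v h.2.1)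
    (QuotientGroup.monoidHom_ext _ (MonoidHom.ext fun g => gb_eq.1 (h.2.2.1 g)))
    (QuotientGroup.monoidHom_ext _ (MonoidHom.ext fun g => gb_eq.1 (h.2.2.2 g))),
    fun _ => rfl, fun _ => rfl⟩

theorem mm_mark {p : Pres} {e₁ e₂ : ℕ} {x : Mk p.1} {E : List (Fr p.1)}
    (hE : Subgroup.closure {y | y ∈ E} = p.T e₁ e₂) :
    ((∀ y ∈ x.2.2, y ∈ p.N e₁ e₂) ∧ ∃ _ : ∀ j, x.2.1 j ∈ p.T e₁ e₂,
      ∀ t, zp x.2.1 t ∈ p.N e₁ e₂ → t = 0) ∧
    (∀ a ∈ E, ∀ a' ∈ E, ⁅a, a'⁆ ∈ Subgroup.normalClosure {y | y ∈ x.2.2}) ∧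
    (∀ a ∈ E, ∃ t, a * (zp x.2.1 t)⁻¹ ∈ Subgroup.normalClosure {y | y ∈ x.2.2}) ↔
    p.Mark e₁ e₂ x := by
  have hEm : ∀ a ∈ E, a ∈ p.T e₁ e₂ := fun a ha => hE ▸ Subgroup.subset_closure ha
  constructor
  · rintro ⟨⟨h1, h2, h3⟩, h4, h5⟩
    have k1 : Subgroup.normalClosure {y | y ∈ x.2.2} ≤ p.N e₁ e₂ :=
      Subgroup.normalClosure_le_normal h1
    have k2 := gb_comm_le (E := {y | y ∈ E}) h4
    rw [hE] at k2
    have hc : ∀ i j, QuotientGroup.mk' (Subgroup.normalClosure {y | y ∈ x.2.2}) (x.2.1 i) *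
        QuotientGroup.mk' _ (x.2.1 j) = QuotientGroup.mk' _ (x.2.1 j) *
          QuotientGroup.mk' _ (x.2.1 i) := fun i j => by
      rw [← map_mul, ← map_mul]
      refine gb_eq.1 ?_
      rw [_root_.mul_inv_rev, ← mul_assoc]
      exact k2 (Subgroup.commutator_mem_commutator (h2 i) (h2 j))
    have k3 : ∀ g ∈ p.T e₁ e₂, ∃ t,
        g * (zp x.2.1 t)⁻¹ ∈ Subgroup.normalClosure {y | y ∈ x.2.2} := fun g hg => by
      rw [← hE] at hg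
      simp only [gb_eq, ← QuotientGroup.mk'_apply, map_zp] at h5 ⊢
      induction hg using Subgroup.closure_induction with
      | mem a ha => exact h5 a ha
      | one => exact ⟨0, by rw [map_one, zp_zero]⟩
      | mul a b _ _ ha hb =>
        obtain ⟨s, hs⟩ := ha
        obtain ⟨t, ht⟩ := hb
        exact ⟨s + t, by rw [map_mul, hs, ht, zp_add hc]⟩
      | inv a _ ha =>
        obtain ⟨s, hs⟩ := ha
        exact ⟨-s, by rw [map_inv, hs, zp_neg hc]⟩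
    refine ⟨le_antisymm (fun g hg => ?_) k1, mm_le _ _ _, mm_comm _ _ _, h2,
      fun g hg => (k3 g hg).imp fun t ht => k1 ht, h3⟩
    obtain ⟨t, ht⟩ := k3 g (mm_le _ _ _ hg)
    have k4 : zp x.2.1 t ∈ p.N e₁ e₂ := by
      simpa using mul_mem (inv_mem (k1 ht)) hg
    rwa [h3 t k4, zp_zero, inv_one, mul_one] at ht
  · rintro ⟨h1, h2, h3, h4, h5, h6⟩
    rw [← h1]
    exact ⟨⟨fun y hy => h1 ▸ Subgroup.subset_normalClosure hy, h4, h6⟩,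
      fun a ha a' ha' => h3 (Subgroup.commutator_mem_commutator (hEm a ha) (hEm a' ha')),
      fun a ha => h5 a (hEm a ha)⟩

theorem Pres.exists_mark {p : Pres} {e₁ e₂ : ℕ} (h : GoodPar e₁ e₂ p.G) :
    ∃ x, p.Mark e₁ e₂ x := by
  obtain ⟨Y, hY⟩ := (p.vab_N e₁ e₂).exists_ncl
  obtain ⟨k, τ, hτ⟩ := exists_isMark (mm_le p e₁ e₂) (mm_comm p e₁ e₂)
    fun g hg m hm k => h.2 _ hg m hm (by rw [← map_pow]; exact k)
  exact ⟨⟨k, τ, Y⟩, hY, hτ⟩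

/-- A compatible pair for the relations is compatible with the canonical subgroups. -/
theorem Compat.canon {p p' : Pres} {u : Fr p.1 →* Fr p'.1} {v : Fr p'.1 →* Fr p.1}
    (h : Compat p.S p'.S u v) (e₁ e₂ : ℕ) :
    Compat (p.N e₁ e₂) (p'.N e₁ e₂) u v ∧ (∀ g ∈ p.T e₁ e₂, u g ∈ p'.T e₁ e₂) ∧
      ∀ g ∈ p'.T e₁ e₂, v g ∈ p.T e₁ e₂ := by
  obtain ⟨φ, h1, h2⟩ := mm_iso h
  refine ⟨⟨fun y hy => ?_, fun y hy => ?_, fun g => p.S_le_N _ _ (h.2.2.1 g),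
    fun g => p'.S_le_N _ _ (h.2.2.2 g)⟩, fun g hg => ?_, fun g hg => ?_⟩
  · exact Subgroup.mem_comap.2 (h1 y ▸ Ncan_map φ hy)
  · exact Subgroup.mem_comap.2 (h2 y ▸ Ncan_map φ.symm hy)
  · exact Subgroup.mem_comap.2 (h1 g ▸ (mem_res₂_equiv φ).2 hg)
  · exact Subgroup.mem_comap.2 (h2 g ▸ (mem_res₂_equiv φ.symm).2 hg)

variable {A : Type} [Rep A] {p p' : A → Pres} {e₁ e₂ : A → ℕ} {x : ∀ a, Mk (p a).1}
  {x' : ∀ a, Mk (p' a).1}

theorem mm_grp (hp : CS p) : GrpF (fun a => Fr (p a).1) :=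
  GrpF.free (Enum.fin (CS.sfst hp)) Disc.fin Haus.fin

theorem mm_ncl (hp : CS p) (hx : CS x) :
    CS (fun a => Subgroup.normalClosure {y | y ∈ (x a).2.2}) :=
  CS.normalClosure (mm_grp hp) (CS.setOf
    (CS.memList ((mm_grp hp).disc.comp s1) s2 ((CS.snd (CS.ssnd hx)).comp s1)))

theorem mm_w {w : ∀ a, Fr (p a).1} {t : ∀ a, Fin (x a).1 → ℤ} (hp : CS p) (hx : CS x)
    (hw : CS w) (ht : CS t) : CS (fun a => w a * (zp (x a).2.1 (t a))⁻¹) :=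
  CS.mul (mm_grp hp).mul hw (CS.inv (mm_grp hp).inv (CS.zp (mm_grp hp).mul (mm_grp hp).inv
    (mm_grp hp).one (CS.sfst hx) (CS.fst (CS.ssnd hx)) ht))

theorem mm_lift {u : ∀ a, Fin (p a).1 → Fr (p' a).1} (hp' : CS p') (hu : CS u) :
    CS (fun a => FreeGroup.lift (u a)) :=
  CS.freeLift (mm_grp hp').mul (mm_grp hp').inv (mm_grp hp').one hu

theorem mm_gen {U : ∀ a, Fr (p a).1 →* Fr (p' a).1} {V : ∀ a, Fr (p' a).1 →* Fr (p a).1}
    (hp : CS p) (hU : CS U) (hV : CS V) : CS (fun q : Σ a, Fin (p a).1 =>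
      V q.1 (U q.1 (FreeGroup.of q.2)) * (FreeGroup.of q.2)⁻¹) :=
  CS.mul ((mm_grp hp).mul.comp s1) (CS.homApp (hV.comp s1) (CS.homApp (hU.comp s1) (CS.freeOf s2)))
    (CS.inv ((mm_grp hp).inv.comp s1) (CS.freeOf s2))

theorem mm_one {w : ∀ a, Fr (p a).1} (hp : CS p) (hp' : CS p') (h1 : CS e₁) (h2 : CS e₂)
    (hx' : CS x') (hw : CS w) (hG : ∀ a, FinRank (p a).G) (hG' : ∀ a, FinRank (p' a).G)
    (hT : ∀ a, w a ∈ (p a).T (e₁ a) (e₂ a)) (hM' : ∀ a, (p' a).Mark (e₁ a) (e₂ a) (x' a)) :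
    MV (fun a (R : ℕ) => ∀ u v, Compat (p a).S (p' a).S u v → ∀ t,
      u (w a) * (zp (x' a).2.1 t)⁻¹ ∈ (p' a).N (e₁ a) (e₂ a) → ∀ l, (t l).natAbs ≤ R) := by
  have hk : CS (fun a => (x' a).1) := CS.sfst hx'
  have m1 : MV (fun a (l : List ℤ) => lp l ≠ 0 ∧ Ann (dres (e₁ a) (p a).G) ((p a).q (w a)) l) :=
    MV.search (Enum.list Enum.int)
      (CS.and (CS.ne (Haus.poly AddF.int ZeroF.int Haus.int) (CS.lp s2) (CS.zero ZeroF.poly))
        (CS.presAnn (hp.comp s1) (h1.comp s1) (hw.comp s1) s2 fun q => (hT q.1).1))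
      (fun _ _ h => h) fun a _ => exists_ann (hG a) _ _
  have m2 := mv_sees hp' h1 h2 hk (CS.fst (CS.ssnd hx')) hG' (fun a => (hM' a).2.2.2.1)
    fun a => (hM' a).2.2.2.2.2
  refine (m1.prod m2).bind ((mv_theta (f := fun q => lp q.1.2.1) (M := fun q => q.1.2.2.2)
    (hk.comp v1) (CS.sfst (CS.snd v2)) (CS.ssnd (CS.snd v2)) ?_
    (fun q => q.2.2.1.1) (fun q => q.2.2.2) fun q => q.2.1.1).mono
    fun q R _ _ hR u v h t ht => hR t ?_)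
  · with_reducible exact CS.lp (CS.fst v2)
  obtain ⟨φ, k1, -⟩ := mm_iso h
  refine q.2.2.1.2 ((p' q.1.1).q (u (w q.1.1))) t _ ?_ (k1 _ ▸ q.2.1.2.equiv φ)
  rw [← map_zp, ← map_inv, ← map_mul]
  exact ht

theorem cs_presMark (hp : CS p) (h1 : CS e₁) (h2 : CS e₂) (hx : CS x)
    (hG : ∀ a, FinRank (p a).G) : CS (fun a => (p a).Mark (e₁ a) (e₂ a) (x a)) := by
  have hτ : CS (fun a => (x a).2.1) := CS.fst (CS.ssnd hx)
  have hY : CS (fun a => (x a).2.2) := CS.snd (CS.ssnd hx)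
  have hk : CS (fun a => (x a).1) := CS.sfst hx
  have c1 : CS (fun a => ∀ y ∈ (x a).2.2, y ∈ (p a).N (e₁ a) (e₂ a)) :=
    CS.allMem hY (CS.memSubgroup ((CS.presN hp h1 h2).comp s1) s2)
  have c2 : CS (fun a => ∃ _ : ∀ j, (x a).2.1 j ∈ (p a).T (e₁ a) (e₂ a),
      ∀ t, zp (x a).2.1 t ∈ (p a).N (e₁ a) (e₂ a) → t = 0) :=
    CS.exD (CS.all (CFin.fin hk)
      (CS.memSubgroup ((CS.presT hp h1 h2).comp s1) (CS.app (hτ.comp s1) s2)))
      (cs_presInd (hp.comp mm_v) (h1.comp mm_v) (h2.comp mm_v) (hk.comp mm_v) (hτ.comp mm_v)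
        (fun a => hG a.1) fun a => a.2)
  have hK := mm_ncl hp hx
  have hF := mm_grp hp
  have c3 : CS (fun q : Σ a, List (Fr (p a).1) => ∀ a ∈ q.2, ∀ a' ∈ q.2,
      ⁅a, a'⁆ ∈ Subgroup.normalClosure {y | y ∈ (x q.1).2.2}) :=
    CS.allMem s2 (CS.allMem (CS.comp s2 s1) (CS.memSubgroup (hK.comp (CS.comp s1 (CS.comp s1 s1)))
      (CS.commutator (hF.mul.comp (CS.comp s1 (CS.comp s1 s1)))
        (hF.inv.comp (CS.comp s1 (CS.comp s1 s1))) (CS.comp s2 s1) s2)))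
  have c4 : CS (fun q : Σ a, List (Fr (p a).1) => ∀ a ∈ q.2, ∃ t,
      a * (zp (x q.1).2.1 t)⁻¹ ∈ Subgroup.normalClosure {y | y ∈ (x q.1).2.2}) :=
    CS.allMem s2 (CS.ex (mm_enum (hk.comp (CS.comp s1 s1)))
      (CS.memSubgroup (hK.comp (CS.comp s1 (CS.comp s1 s1)))
        (mm_w (hp.comp (CS.comp s1 (CS.comp s1 s1))) (hx.comp (CS.comp s1 (CS.comp s1 s1)))
          (CS.comp s2 s1) s2)))
  exact (MV.gensT hp h1 h2).elimP (((c1.comp s1).and (c2.comp s1)).and (c3.and c4))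
    fun a E _ _ hE => mm_mark hE

theorem cs_presNotN {w : ∀ a, Fr (p a).1} (hp : CS p) (h1 : CS e₁) (h2 : CS e₂) (hx : CS x)
    (hw : CS w) (hM : ∀ a, (p a).Mark (e₁ a) (e₂ a) (x a)) :
    CS (fun a => ¬ w a ∈ (p a).N (e₁ a) (e₂ a)) := by
  have hk : CS (fun a => (x a).1) := CS.sfst hx
  refine ((CS.presNotT hp h1 h2 hw).or (CS.ex (mm_enum hk) (CS.and
    (CS.ne (Haus.pi (CFin.fin (hk.comp s1)) Haus.int) s2 (CS.lam CS.const))
    (CS.memSubgroup ((CS.presN hp h1 h2).comp s1)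
      (mm_w (hp.comp s1) (hx.comp s1) (hw.comp s1) s2))))).of_iff
    fun a _ => ((hM a).2.notMem_iff _).symm

theorem cs_compat {u : ∀ a, Fin (p a).1 → Fr (p' a).1} {v : ∀ a, Fin (p' a).1 → Fr (p a).1}
    (hp : CS p) (hp' : CS p') (hx : CS x) (hx' : CS x') (hu : CS u) (hv : CS v)
    (hM : ∀ a, (p a).Mark (e₁ a) (e₂ a) (x a)) (hM' : ∀ a, (p' a).Mark (e₁ a) (e₂ a) (x' a)) :
    CS (fun a => Compat ((p a).N (e₁ a) (e₂ a)) ((p' a).N (e₁ a) (e₂ a))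
      (FreeGroup.lift (u a)) (FreeGroup.lift (v a))) := by
  have hU := mm_lift hp' hu
  have hV := mm_lift hp hv
  have hK := mm_ncl hp hx
  have hK' := mm_ncl hp' hx'
  refine CS.of_iff (CS.and ?_ (CS.and ?_ (CS.and ?_ ?_))) fun a _ => by
    rw [(hM a).1, (hM' a).1, compat_iff_gens]
  · exact CS.allMem (CS.snd (CS.ssnd hx)) (CS.memSubgroup (hK'.comp s1)
      (CS.homApp (hU.comp s1) s2))
  · exact CS.allMem (CS.snd (CS.ssnd hx')) (CS.memSubgroup (hK.comp s1)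
      (CS.homApp (hV.comp s1) s2))
  · exact CS.all (CFin.fin (CS.sfst hp)) (CS.memSubgroup (hK.comp s1) (mm_gen hp hU hV))
  · exact CS.all (CFin.fin (CS.sfst hp')) (CS.memSubgroup (hK'.comp s1) (mm_gen hp' hV hU))

theorem cs_notCompat {u : ∀ a, Fin (p a).1 → Fr (p' a).1} {v : ∀ a, Fin (p' a).1 → Fr (p a).1}
    (hp : CS p) (hp' : CS p') (h1 : CS e₁) (h2 : CS e₂) (hx : CS x) (hx' : CS x') (hu : CS u)
    (hv : CS v) (hM : ∀ a, (p a).Mark (e₁ a) (e₂ a) (x a))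
    (hM' : ∀ a, (p' a).Mark (e₁ a) (e₂ a) (x' a)) :
    CS (fun a => ¬ Compat ((p a).N (e₁ a) (e₂ a)) ((p' a).N (e₁ a) (e₂ a))
      (FreeGroup.lift (u a)) (FreeGroup.lift (v a))) := by
  have hU := mm_lift hp' hu
  have hV := mm_lift hp hv
  refine CS.of_iff (CS.notAnd ?_ (CS.notAnd ?_ (CS.notAnd ?_ ?_))) fun a _ => by
    rw [(hM a).1, (hM' a).1, compat_iff_gens, ← (hM a).1, ← (hM' a).1]
  · exact CS.notAllMem (CS.snd (CS.ssnd hx)) (cs_presNotN (hp'.comp s1) (h1.comp s1)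
      (h2.comp s1) (hx'.comp s1) (CS.homApp (hU.comp s1) s2) fun a => hM' a.1)
  · exact CS.notAllMem (CS.snd (CS.ssnd hx')) (cs_presNotN (hp.comp s1) (h1.comp s1)
      (h2.comp s1) (hx.comp s1) (CS.homApp (hV.comp s1) s2) fun a => hM a.1)
  · exact CS.notAll (Enum.fin (CS.sfst hp)) (cs_presNotN (hp.comp s1) (h1.comp s1)
      (h2.comp s1) (hx.comp s1) (mm_gen hp hU hV) fun a => hM a.1)
  · exact CS.notAll (Enum.fin (CS.sfst hp')) (cs_presNotN (hp'.comp s1) (h1.comp s1)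
      (h2.comp s1) (hx'.comp s1) (mm_gen hp' hV hU) fun a => hM' a.1)

theorem mv_bound (hp : CS p) (hp' : CS p') (h1 : CS e₁) (h2 : CS e₂) (hx : CS x) (hx' : CS x')
    (hG : ∀ a, FinRank (p a).G) (hG' : ∀ a, FinRank (p' a).G)
    (hM : ∀ a, (p a).Mark (e₁ a) (e₂ a) (x a)) (hM' : ∀ a, (p' a).Mark (e₁ a) (e₂ a) (x' a)) :
    MV (fun a (R : ℕ) => ∀ u v, Compat (p a).S (p' a).S u v → ∀ j t,
      u ((x a).2.1 j) * (zp (x' a).2.1 t)⁻¹ ∈ (p' a).N (e₁ a) (e₂ a) → ∀ l, (t l).natAbs ≤ R) :=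
  by
    have hk : CS (fun a => (x a).1) := CS.sfst hx
    have hτ : CS (fun a => (x a).2.1) := CS.fst (CS.ssnd hx)
    have m1 := MV.pi (Q := fun a (j : Fin (x a).1) (R : ℕ) => ∀ u v, Compat (p a).S (p' a).S u v →
      ∀ t, u ((x a).2.1 j) * (zp (x' a).2.1 t)⁻¹ ∈ (p' a).N (e₁ a) (e₂ a) →
        ∀ l, (t l).natAbs ≤ R) (CFin.fin hk) Disc.fin
      (mm_one (w := fun q : Σ a, Fin (x a).1 => (x q.1).2.1 q.2) (hp.comp s1) (hp'.comp s1)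
        (h1.comp s1) (h2.comp s1) (hx'.comp s1) (CS.app (hτ.comp s1) s2) (fun q => hG q.1)
        (fun q => hG' q.1) (fun q => (hM q.1).2.2.2.1 q.2) fun q => hM' q.1)
    refine m1.bind (MV.of_cs (f := fun q => ∑ j, q.1.2 j)
      (CS.sum (CFin.fin (hk.comp v1)) AddF.nat ZeroF.nat (CS.app (CS.comp v2 s1) s2))
      fun q _ u v h j t ht l => (q.2 j u v h t ht l).trans ?_)
    exact Finset.single_le_sum (f := fun j => q.1.2 j) (fun _ _ => Nat.zero_le _)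
      (Finset.mem_univ j)

end Pool.Agent.P.MP_257122_al.X
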