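import Pool.Agent.P.MP_257122_al.X.Defs

/-!
# Adapted bases for groups of rational matrices

PLAN.  `exists_flag`: `U j` is the span of the vectors `(l.map (σ x - 1)).prod *ᵥ v`, `l ⊆ N` of
length `j`; `BFlagAux.adaptB` gives a basis, `β` is the change of basis.  `exists_gr`: the weight
preserving part (`grm`, `grm_mul`, `grm_one` with integer weights).  `nf_math`: flag for `N`, graded
representation `γ₀`, which is commutative on `T`; `U` is the set of `w ∈ T` with `γ₀ w` unipotent, a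
normal subgroup; `SCanAux.prod_zero` makes long products vanish in `γ₀`, hence `UniM σ U (k * c)`;
flag for `U` and its graded representation `γ`.
-/

namespace Pool.Agent.P.MP_257122_al.X

open scoped commutatorElement
open Matrix

variable {G : Type} [Group G] {n c : ℕ} {wt : Fin n → ℕ}

namespace Math

theorem nil_pow' {R : Type} [Ring R] {x : R} (h : IsNilpotent (x - 1)) (m : ℕ) :
    IsNilpotent (x ^ m - 1) := by
  rw [← mul_geom_sum]
  exact Commute.isNilpotent_mul_right (Commute.sum_right _ _ _ fun i _ =>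
    (((Commute.refl x).sub_left (Commute.one_left x)).pow_right i)) h

theorem prod_fil {α : Type} {f : α → Matrix (Fin n) (Fin n) ℚ} (hf : ∀ x, f x ∈ fil wt 0)
    (l : List α) : (l.map f).prod ∈ fil wt 0 := by
  induction l with
  | nil => exact C.one_mem_fil
  | cons x l ih => rw [List.map_cons, List.prod_cons]; exact C.fil_mul (hf x) ih

theorem prod_close {α : Type} {f f' : α → Matrix (Fin n) (Fin n) ℚ} (hf : ∀ x, f x ∈ fil wt 0)
    (hf' : ∀ x, f' x ∈ fil wt 0) (h : ∀ x, f x - f' x ∈ fil wt 1) (l : List α) :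
    (l.map f).prod - (l.map f').prod ∈ fil wt 1 := by
  induction l with
  | nil => rw [List.map_nil, List.map_nil, sub_self]; exact zero_mem _
  | cons x l ih =>
    rw [List.map_cons, List.prod_cons, List.map_cons, List.prod_cons]
    have e : f x * (l.map f).prod - f' x * (l.map f').prod =
        (f x - f' x) * (l.map f).prod + f' x * ((l.map f).prod - (l.map f').prod) := by
      noncomm_ring
    rw [e]
    exact add_mem (C.fil_mul (j := 0) (h x) (prod_fil hf l)) (C.fil_mul (i := 0) (hf' x) ih)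

theorem prod_long {α : Type} {f : α → Matrix (Fin n) (Fin n) ℚ} (hf : ∀ x, f x ∈ fil wt 0)
    {P : α → Prop} {k : ℕ}
    (h : ∀ l : List α, (∀ x ∈ l, P x) → l.length = k → (l.map f).prod ∈ fil wt 1) (j : ℕ) :
    ∀ l : List α, (∀ x ∈ l, P x) → k * j ≤ l.length → (l.map f).prod ∈ fil wt j := by
  induction j with
  | zero => exact fun l _ _ => prod_fil hf l
  | succ j ih =>
    intro l hl hk
    rw [Nat.mul_succ] at hk
    rw [← List.take_append_drop k l, List.map_append, List.prod_append, Nat.add_comm j 1]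
    refine C.fil_mul (h _ (fun x hx => hl x (List.mem_of_mem_take hx)) ?_)
      (ih _ (fun x hx => hl x (List.mem_of_mem_drop hx)) ?_)
    · rw [List.length_take]; omega
    · rw [List.length_drop]; omega

theorem nil_cj' (β : GL (Fin n) ℚ) {g : GL (Fin n) ℚ} (h : IsNilpotent (g.val - 1)) :
    IsNilpotent ((β * g * β⁻¹).val - 1) := by
  obtain ⟨k, hk⟩ := h
  have e : (β * g * β⁻¹).val - 1 = β.val * (g.val - 1) * (β⁻¹).val := by
    rw [mul_sub, sub_mul, mul_one, Units.mul_inv, Units.val_mul, Units.val_mul]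
  exact ⟨k, by rw [e, Units.conj_pow, hk, mul_zero, zero_mul]⟩

theorem prod_conj (σ : G →* GL (Fin n) ℚ) (g : G) (l : List G) :
    (l.map fun x => (σ x).val - 1).prod * (σ g).val =
      (σ g).val * ((l.map fun x => g⁻¹ * x * g).map fun x => (σ x).val - 1).prod := by
  induction l with
  | nil => simp
  | cons x l ih =>
    rw [List.map_cons, List.prod_cons, List.map_cons, List.map_cons, List.prod_cons, mul_assoc, ih,
      ← mul_assoc, ← mul_assoc]
    congr 1
    rw [sub_mul, mul_sub, one_mul, mul_one, ← Units.val_mul, ← Units.val_mul, ← map_mul, ← map_mul,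
      ← mul_assoc, mul_inv_cancel_left]

/-- The vectors killed by all products of length at least `k - j`. -/
def flg (σ : G →* GL (Fin n) ℚ) (N : Subgroup G) (k j : ℕ) : Submodule ℚ (Fin n → ℚ) where
  carrier := {v | ∀ l : List G, (∀ x ∈ l, x ∈ N) → k ≤ l.length + j →
    (l.map fun x => (σ x).val - 1).prod *ᵥ v = 0}
  zero_mem' := fun _ _ _ => mulVec_zero _
  add_mem' := fun {x y} hx hy l hl hk => by rw [mulVec_add, hx l hl hk, hy l hl hk, add_zero]
  smul_mem' := fun q {x} hx l hl hk => by rw [mulVec_smul, hx l hl hk, smul_zero]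

theorem flg_par (σ : G →* GL (Fin n) ℚ) {N : Subgroup G} [hN : N.Normal] {k j : ℕ} (g : G)
    {v : Fin n → ℚ} (hv : v ∈ flg σ N k j) : (σ g).val *ᵥ v ∈ flg σ N k j := by
  intro l hl hk
  rw [mulVec_mulVec, prod_conj, ← mulVec_mulVec, hv _ ?_ (by rwa [List.length_map]), mulVec_zero]
  intro x hx
  obtain ⟨y, hy, rfl⟩ := List.mem_map.1 hx
  exact hN.conj_mem' _ (hl y hy) g

theorem flg_uni (σ : G →* GL (Fin n) ℚ) {N : Subgroup G} {k j : ℕ} {y : G} (hy : y ∈ N)
    {v : Fin n → ℚ} (hv : v ∈ flg σ N k j) : ((σ y).val - 1) *ᵥ v ∈ flg σ N k (j + 1) := by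
  intro l hl hk
  have := hv (l ++ [y]) (fun x hx => by
    rcases List.mem_append.1 hx with h | h
    · exact hl x h
    · rw [List.mem_singleton.1 h]; exact hy) (by rw [List.length_append, List.length_singleton]; omega)
  rwa [List.map_append, List.prod_append, List.map_singleton, List.prod_singleton,
    ← mulVec_mulVec] at this

theorem basis_fil (b : Module.Basis (Fin n) ℚ (Fin n → ℚ)) {U : ℕ → Submodule ℚ (Fin n → ℚ)}
    (hb : ∀ k, U k = Submodule.span ℚ (b '' {i | k ≤ wt i})) {M : Matrix (Fin n) (Fin n) ℚ} {d : ℕ}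
    (hM : ∀ j, ∀ v ∈ U j, M *ᵥ v ∈ U (j + d)) :
    b.toMatrix (Pi.basisFun ℚ (Fin n)) * M * (Pi.basisFun ℚ (Fin n)).toMatrix b ∈ fil wt d := by
  intro p q hpq
  have h1 : M *ᵥ b q ∈ U (wt q + d) :=
    hM _ _ (by rw [hb]; exact Submodule.subset_span ⟨q, le_refl (wt q), rfl⟩)
  rw [hb, Module.Basis.mem_span_image] at h1
  have h2 : b.repr (M *ᵥ b q) p = 0 := by
    by_contra h
    have h3 : wt q + d ≤ wt p := h1 (Finsupp.mem_support_iff.2 h)
    omega
  have h3 : ∀ v : Fin n → ℚ, b.toMatrix (Pi.basisFun ℚ (Fin n)) *ᵥ v = b.repr v := fun v => by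
    rw [← Module.Basis.toMatrix_mulVec_repr (Pi.basisFun ℚ (Fin n)) b v]
    congr 1
  rw [← h2, ← h3, mulVec_mulVec, mul_apply]
  refine Finset.sum_congr rfl fun r _ => ?_
  rw [Module.Basis.toMatrix_apply, Pi.basisFun_repr]

end Math

open Math

theorem unip_fin {g : GL (Fin n) ℚ} (h : IsNilpotent (g.val - 1)) {m : ℕ} (hm : 0 < m)
    (e : g ^ m = 1) : g = 1 := by
  have h1 : IsNilpotent (∑ i ∈ Finset.range m, (g.val ^ i - 1)) :=
    Commute.isNilpotent_sum (fun i _ => nil_pow' h i) fun i j _ _ =>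
      (((Commute.refl g.val).pow_pow i j).sub_right (Commute.one_right _)).sub_left
        (Commute.one_left _)
  have h2 : IsUnit (algebraMap ℚ (Matrix (Fin n) (Fin n) ℚ) m) :=
    (IsUnit.mk0 (m : ℚ) (by exact_mod_cast hm.ne')).map _
  have h3 := h1.isUnit_add_left_of_commute h2 (Algebra.commutes _ _).symm
  have h4 : algebraMap ℚ (Matrix (Fin n) (Fin n) ℚ) m + ∑ i ∈ Finset.range m, (g.val ^ i - 1) =
      ∑ i ∈ Finset.range m, g.val ^ i := by
    rw [Finset.sum_sub_distrib, Finset.sum_const, Finset.card_range, nsmul_one, map_natCast,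
      add_sub_cancel]
  rw [h4] at h3
  have h5 := mul_geom_sum g.val m
  rw [← Units.val_pow_eq_pow_val, e, Units.val_one, sub_self, h3.mul_left_eq_zero, sub_eq_zero] at h5
  exact Units.ext h5

theorem nil_pow {g : GL (Fin n) ℚ} (h : IsNilpotent (g.val - 1)) (m : ℕ) :
    IsNilpotent ((g ^ m).val - 1) := by
  rw [Units.val_pow_eq_pow_val]
  exact nil_pow' h m

theorem nil_close (hc : ∀ i, wt i < c) {x y : Matrix (Fin n) (Fin n) ℚ} (hx : x ∈ fil wt 0)
    (hy : y ∈ fil wt 0) (h : x - y ∈ fil wt 1) (hn : IsNilpotent y) : IsNilpotent x := by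
  obtain ⟨k, hk⟩ := hn
  have h1 := prod_close (f := fun _ : Unit => x) (f' := fun _ => y) (fun _ => hx) (fun _ => hy)
    (fun _ => h) (List.replicate k ())
  rw [List.map_replicate, List.map_replicate, List.prod_replicate, List.prod_replicate, hk,
    sub_zero] at h1
  exact IsNilpotent.of_pow ⟨c, C.fil_zero hc le_rfl (C.fil_pow h1 c)⟩

theorem nil_cj (β g : GL (Fin n) ℚ) :
    IsNilpotent ((β * g * β⁻¹).val - 1) ↔ IsNilpotent (g.val - 1) := by
  refine ⟨fun h => ?_, nil_cj' β⟩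
  have h1 := nil_cj' β⁻¹ h
  rwa [inv_inv, ← mul_assoc, inv_mul_cancel_left, inv_mul_cancel_right] at h1

theorem exists_flag {σ : G →* GL (Fin n) ℚ} {N : Subgroup G} [N.Normal] {k : ℕ}
    (h : UniM σ N k) : ∃ (β : GL (Fin n) ℚ) (wt : Fin n → ℕ), Adapt wt k (cjH β σ) N := by
  have hk : flg σ N k k = ⊥ := eq_bot_iff.2 fun v hv => by
    have := hv [] (by simp) (by simp)
    rwa [List.map_nil, List.prod_nil, one_mulVec] at this
  obtain ⟨b, wt, hb⟩ := BFlagAux.adaptB k (flg σ N k)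
    (fun i j hij v hv l hl hk => hv l hl (by omega))
    (eq_top_iff.2 fun v _ l hl hk => by rw [h l hl hk, zero_mulVec]) hk
  let β : GL (Fin n) ℚ := ⟨b.toMatrix (Pi.basisFun ℚ (Fin n)), (Pi.basisFun ℚ (Fin n)).toMatrix b,
    Module.Basis.toMatrix_mul_toMatrix_flip _ _, Module.Basis.toMatrix_mul_toMatrix_flip _ _⟩
  have hp : ∀ g, (cjH β σ g).val ∈ fil wt 0 := fun g =>
    basis_fil b hb fun j v hv => flg_par σ g hv
  refine ⟨β, wt, fun i => ?_, fun g => ⟨hp g, ?_⟩, fun y hy => ?_⟩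
  · by_contra hi
    have h1 : b i ∈ flg σ N k k := by
      rw [hb]; exact Submodule.subset_span ⟨i, not_lt.1 hi, rfl⟩
    rw [hk, Submodule.mem_bot] at h1
    exact b.ne_zero i h1
  · have h1 := hp g⁻¹
    rwa [map_inv] at h1
  · have e : (cjH β σ y).val - 1 = β.val * ((σ y).val - 1) * (β⁻¹).val := by
      rw [mul_sub, sub_mul, mul_one, Units.mul_inv, cjH_apply, Units.val_mul, Units.val_mul]
    rw [IsUni, e]
    exact basis_fil b hb fun j v hv => flg_uni σ hy hv

theorem exists_gr {σ : G →* GL (Fin n) ℚ} (h : ∀ g, IsPar wt (σ g)) :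
    ∃ γ : G →* GL (Fin n) ℚ, ∀ g, IsPar wt (γ g) ∧ (γ g).val - (σ g).val ∈ fil wt 1 ∧
      (IsUni wt (σ g) → γ g = 1) := by
  have h0 : ∀ x : Matrix (Fin n) (Fin n) ℚ, NCompl.dg wt x ∈ fil wt 0 := fun x p q hpq => by
    rw [NCompl.dg_apply, if_neg (by omega)]
  refine ⟨NCompl.dgH σ h, fun g => ⟨⟨h0 _, h0 _⟩, fun p q hpq => ?_, fun hg => Units.ext ?_⟩⟩
  · change NCompl.dg wt (σ g).val p q - (σ g).val p q = 0
    rw [NCompl.dg_apply]
    split_ifs with e
    · exact sub_self _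
    · rw [(h g).1 p q (by omega), sub_self]
  · have h1 := NCompl.dg_fil hg
    rwa [map_sub, NCompl.dg_one, sub_eq_zero] at h1

theorem nf_math [Group.FG G] {σ : G →* GL (Fin n) ℚ} (h : Tri σ) :
    ∃ (β : GL (Fin n) ℚ) (wt : Fin n → ℕ) (c : ℕ) (γ : G →* GL (Fin n) ℚ),
      Adapt wt c (cjH β σ) γ.ker ∧ VAb γ.ker ∧
      (∀ g, IsPar wt (γ g) ∧ (γ g).val - (cjH β σ g).val ∈ fil wt 1) ∧
      ∀ w, IsNilpotent ((γ w).val - 1) → γ w = 1 := by
  obtain ⟨N, hN, ⟨T, hT, hTi, hNT, hTT⟩, k, hk⟩ := h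
  obtain ⟨β₀, w₀, hc₀, hp₀, hu₀⟩ := exists_flag hk
  obtain ⟨γ₀, hγ₀⟩ := exists_gr hp₀
  have hN₀ : ∀ y ∈ N, γ₀ y = 1 := fun y hy => (hγ₀ y).2.2 (hu₀ y hy)
  have hcm : ∀ a ∈ T, ∀ b ∈ T, Commute (γ₀ a).val (γ₀ b).val := fun a ha b hb => by
    have h1 := hN₀ _ (hTT (Subgroup.commutator_mem_commutator ha hb))
    rw [map_commutatorElement, commutatorElement_eq_one_iff_commute] at h1
    exact h1.units_val
  let U : Subgroup G :=
    { carrier := {w | w ∈ T ∧ IsNilpotent ((γ₀ w).val - 1)}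
      one_mem' := ⟨T.one_mem, by rw [map_one, Units.val_one, sub_self]; exact IsNilpotent.zero⟩
      mul_mem' := fun {a b} ha hb => ⟨T.mul_mem ha.1 hb.1, by
        have e : (γ₀ (a * b)).val - 1 = ((γ₀ a).val - 1) * (γ₀ b).val + ((γ₀ b).val - 1) := by
          rw [map_mul, Units.val_mul]; noncomm_ring
        have h1 : Commute ((γ₀ a).val - 1) (γ₀ b).val :=
          (hcm a ha.1 b hb.1).sub_left (Commute.one_left _)
        rw [e]
        exact Commute.isNilpotent_add
          ((h1.mul_left (Commute.refl _)).sub_right (Commute.one_right _))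
          (h1.isNilpotent_mul_right ha.2) hb.2⟩
      inv_mem' := fun {a} ha => ⟨T.inv_mem ha.1, by
        have e : (γ₀ a⁻¹).val - 1 = -(((γ₀ a).val - 1) * (γ₀ a⁻¹).val) := by
          rw [sub_mul, ← Units.val_mul, ← map_mul, mul_inv_cancel, map_one, Units.val_one, one_mul,
            neg_sub]
        rw [e]
        exact (((hcm a ha.1 _ (T.inv_mem ha.1)).sub_left
          (Commute.one_left _)).isNilpotent_mul_right ha.2).neg⟩ }
  have hU : U.Normal := ⟨fun a ha g => ⟨hT.conj_mem a ha.1 g, by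
    rw [map_mul, map_mul, map_inv]; exact nil_cj' _ ha.2⟩⟩
  have hNU : N ≤ U := fun y hy => ⟨hNT hy, by
    rw [hN₀ y hy, Units.val_one, sub_self]; exact IsNilpotent.zero⟩
  let φ : Matrix (Fin n) (Fin n) ℚ →+* Module.End ℤ (Matrix (Fin n) (Fin n) ℚ) :=
    Module.toModuleEnd ℤ _
  obtain ⟨k', hk'⟩ := SCanAux.prod_zero (φ.toMonoidHom.comp ((Units.coeHom _).comp γ₀)) (T := T)
    (N := U) ((Group.fg_iff_subgroup_fg T).1 inferInstance)
    (fun a ha b hb => ((hcm a ha b hb).map φ).eq) (fun y hy => hy.1) fun y hy => by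
      have h1 := hy.2.map φ
      rwa [map_sub, map_one] at h1
  have f0 : ∀ {w : Fin n → ℕ} {g : GL (Fin n) ℚ}, IsPar w g → g.val - 1 ∈ fil w 0 := fun hg =>
    sub_mem hg.1 C.one_mem_fil
  have hUn : UniM (cjH β₀ σ) U (k' * k) := fun l hl hlk => by
    refine C.fil_zero hc₀ le_rfl (prod_long (fun x => f0 (hp₀ x)) (fun l hl e => ?_) k l hl hlk)
    have h1 : (l.map fun x => (γ₀ x).val - 1).prod = 0 := by
      have h2 : φ (l.map fun x => (γ₀ x).val - 1).prod = 0 := by
        rw [← hk' l hl e, map_list_prod, List.map_map]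
        congr 2
        funext x
        exact (map_sub φ _ _).trans (by rw [map_one]; rfl)
      have h3 := DFunLike.congr_fun h2 1
      exact (mul_one _).symm.trans h3
    have h4 := prod_close (fun x => f0 (hγ₀ x).1) (fun x => f0 (hp₀ x))
      (fun x => by rw [sub_sub_sub_cancel_right]; exact (hγ₀ x).2.1) l
    rw [h1, zero_sub] at h4
    exact neg_mem_iff.1 h4
  obtain ⟨β₁, wt, hc, hp, hu⟩ := exists_flag hUn
  obtain ⟨γ, hγ⟩ := exists_gr hp
  have eβ : cjH (β₁ * β₀) σ = cjH β₁ (cjH β₀ σ) := MonoidHom.ext fun g => by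
    simp only [cjH_apply, _root_.mul_inv_rev, mul_assoc]
  refine ⟨β₁ * β₀, wt, k' * k, γ, ?_, ⟨T ⊔ γ.ker, inferInstance,
    Subgroup.finiteIndex_of_le le_sup_left, le_sup_right, Subgroup.commutator_le.2 ?_⟩, ?_,
    fun w hw => ?_⟩
  · rw [eβ]
    refine ⟨hc, hp, fun y hy => ?_⟩
    have h1 := neg_mem (hγ y).2.1
    rwa [MonoidHom.mem_ker.1 hy, neg_sub] at h1
  · intro a ha b hb
    rw [← Subgroup.comap_map_eq] at ha hb
    obtain ⟨a', ha', ea⟩ := ha
    obtain ⟨b', hb', eb⟩ := hb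
    rw [MonoidHom.mem_ker, map_commutatorElement, ← ea, ← eb, ← map_commutatorElement]
    exact (hγ _).2.2 (hu _ (hNU (hTT (Subgroup.commutator_mem_commutator ha' hb'))))
  · rw [eβ]
    exact fun g => ⟨(hγ g).1, (hγ g).2.1⟩
  · refine unip_fin hw (Nat.pos_of_ne_zero hTi.index_ne_zero) ?_
    rw [← map_pow]
    refine (hγ _).2.2 (hu _ ⟨T.pow_index_mem w, ?_⟩)
    have h1 := nil_pow hw T.index
    rw [← map_pow] at h1
    have h2 := nil_close hc (f0 (hp _)) (f0 (hγ _).1) (by
      rw [sub_sub_sub_cancel_right, ← neg_sub]; exact neg_mem (hγ _).2.1) h1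
    exact nil_close hc₀ (f0 (hγ₀ _).1) (f0 (hp₀ _)) (by
      rw [sub_sub_sub_cancel_right]; exact (hγ₀ _).2.1) ((nil_cj _ _).1 h2)

end Pool.Agent.P.MP_257122_al.X
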