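import Pool.Agent.P.MP_257122_al.X.Math
import Pool.Agent.P.MP_257122_al.X.Cov

/-!
# The normal form can be computed

PLAN.  Search `x = (β, wt, c, Y)` with a certificate: `wt < c`, the conjugated generators are
`IsPar`, the elements of `Y` are `IsUni`; generators `γ` that are `IsPar`, congruent to the
conjugated generators modulo `fil wt 1` and kill `Y`; `τ, r` with `Cov (ncl Y) τ r`, the matrices
`A j = γ (τ j)` commute and `Faith A` (`cs_faith`); every `s ∈ r` lies in `ncl Y` or there are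
`m > 0`, `t`, `u` with `|u j| < m`, `γ s ^ m = zp A (m • t + u)`, `γ s ≠ zp A t`.
SOUND: if `γ w` is unipotent, a power lies in the group of the `zp A t` (pigeonhole on `r`), so it
is `1` by `Faith`, so `γ w = 1` (`unip_fin`); then `w ≡ zp τ t * s` gives `s ∈ ncl Y`, `t = 0`.
`VAb (ncl Y)` holds since `ncl Y` contains the subgroup `N` of `Tri` (`K.vab_mono`).
COMPLETE: `nf_math`, `VAb.exists_ncl`, `K.vtf`, `exists_isMark`, `exists_cov`.
-/

namespace Pool.Agent.P.MP_257122_al.X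

open scoped commutatorElement

namespace Nf

open FOpsAux

/-- A witness that `z` is not a product of powers of the `A j`. -/
def Out {H : Type} [Group H] {k : ℕ} (A : Fin k → H) (z : H) : Prop :=
  ∃ p : ℕ × (Fin k → ℤ) × (Fin k → ℤ), (∀ j, (p.2.2 j).natAbs < p.1) ∧
    z ^ p.1 = zp A p.2.1 ^ p.1 * zp A p.2.2 ∧ z ≠ zp A p.2.1

/-- A witness that only elements of `N` have a unipotent value. -/
def Good {G : Type} [Group G] {k n : ℕ} (γ : G →* GL (Fin n) ℚ) (N : Subgroup G)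
    (τ : Fin k → G) (r : List G) : Prop :=
  Cov N τ r ∧ (∃ _ : ∀ i j, γ (τ i) * γ (τ j) = γ (τ j) * γ (τ i), Faith fun j => γ (τ j)) ∧
    ∀ s ∈ r, s ∈ N ∨ Out (fun j => γ (τ j)) (γ s)

/-- The certificate. -/
def Cert {b n : ℕ} (g : Fin b → GL (Fin n) ℚ) (x : NFD b n) : Prop :=
  (∀ i, x.2.1 i < x.2.2.1) ∧ (∀ i, IsPar x.2.1 (cjG x.1 g i)) ∧
    (∀ y ∈ x.2.2.2, IsUni x.2.1 (FreeGroup.lift (cjG x.1 g) y)) ∧
    ∃ γ : Fin b → GL (Fin n) ℚ, (∀ i, IsUni x.2.1 (γ i * (cjG x.1 g i)⁻¹)) ∧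
      (∀ y ∈ x.2.2.2, FreeGroup.lift γ y = 1) ∧
      ∃ p : Σ k : ℕ, (Fin k → Fr b) × List (Fr b),
        Good (FreeGroup.lift γ) (K.ncl x.2.2.2) p.2.1 p.2.2

section math
variable {G : Type} [Group G] {k n : ℕ}

theorem zp_inj {A : Fin k → GL (Fin n) ℚ} (hA : ∀ i j, A i * A j = A j * A i) (hF : Faith A)
    {t t' : Fin k → ℤ} (e : zp A t = zp A t') : t = t' := by
  have h : zp A (t + -t') = 1 := by rw [zp_add hA, zp_neg hA, e, mul_inv_cancel]
  refine add_neg_eq_zero.1 (hF _ ?_)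
  rw [h, Units.val_one, sub_self]
  exact IsNilpotent.zero

theorem out_ne {A : Fin k → GL (Fin n) ℚ} (hA : ∀ i j, A i * A j = A j * A i) (hF : Faith A)
    {z : GL (Fin n) ℚ} (h : Out A z) (t : Fin k → ℤ) : z ≠ zp A t := by
  obtain ⟨⟨m, t₀, u⟩, h1, h2, h3⟩ := h
  rintro rfl
  refine h3 (congrArg _ (funext fun j => ?_))
  dsimp only at h1 h2 ⊢
  rw [← zpow_natCast, ← zpow_natCast, ← zp_smul hA, ← zp_smul hA, ← zp_add hA] at h2
  have e := congrFun (zp_inj hA hF h2) j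
  rw [Pi.add_apply, Pi.smul_apply, Pi.smul_apply, smul_eq_mul, smul_eq_mul] at e
  have e' : u j = m * (t j - t₀ j) := by rw [mul_sub, e, add_sub_cancel_left]
  have h4 := h1 j
  rw [e', Int.natAbs_mul, Int.natAbs_natCast] at h4
  have h5 : (t j - t₀ j).natAbs = 0 := by
    by_contra h6
    exact absurd h4 (not_lt.2 (Nat.le_mul_of_pos_right _ (Nat.pos_of_ne_zero h6)))
  exact sub_eq_zero.1 (Int.natAbs_eq_zero.1 h5)

theorem good_sound {γ : G →* GL (Fin n) ℚ} {N : Subgroup G} {τ : Fin k → G} {r : List G}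
    (hN : N ≤ γ.ker) (h : Good γ N τ r) (w : G) (hw : IsNilpotent ((γ w).val - 1)) : w ∈ N := by
  obtain ⟨⟨-, hc⟩, ⟨hA, hF⟩, ho⟩ := h
  have key : ∀ {w s : G} {t}, w * s⁻¹ * (zp τ t)⁻¹ ∈ N →
      γ w * (γ s)⁻¹ = zp (fun j => γ (τ j)) t := fun h => by
    have := hN h
    rwa [MonoidHom.mem_ker, map_mul, map_mul, map_inv, map_inv, map_zp, mul_inv_eq_one] at this
  have h1 : γ w = 1 := by
    choose s hs t ht using fun i : ℕ => hc (w ^ i)
    have h2 : ∀ i j, i < j → s i = s j → γ w = 1 := fun i j hij e => by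
      obtain ⟨m, rfl⟩ := Nat.exists_eq_add_of_lt hij
      have e1 : γ w ^ (m + 1) = zp (fun j => γ (τ j)) (t (i + m + 1) + -t i) := by
        rw [zp_add hA, zp_neg hA, ← key (ht _), ← key (ht _), e, map_pow, map_pow]
        group
      have e2 := hF _ (e1 ▸ nil_pow hw (m + 1))
      rw [e2, zp_zero] at e1
      exact unip_fin hw (Nat.succ_pos m) e1
    have : Finite {x // x ∈ r} := (List.finite_toSet r).to_subtype
    obtain ⟨i, j, hij, e⟩ :=
      Finite.exists_ne_map_eq_of_infinite fun i : ℕ => (⟨s i, hs i⟩ : {x // x ∈ r})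
    rcases lt_or_gt_of_ne hij with h | h
    · exact h2 i j h (congrArg Subtype.val e)
    · exact h2 j i h (congrArg Subtype.val e).symm
  obtain ⟨s, hs, t, ht⟩ := hc w
  have e := key ht
  rw [h1, one_mul, inv_eq_iff_eq_inv, ← zp_neg hA] at e
  rcases ho s hs with h | h
  · have e' : zp (fun j => γ (τ j)) (-t) = zp (fun j => γ (τ j)) 0 := by
      rw [← e, zp_zero]
      exact hN h
    rw [neg_eq_zero.1 (zp_inj hA hF e'), zp_zero, inv_one, mul_one] at ht
    exact (N.mul_mem_cancel_right (N.inv_mem h)).1 ht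
  · exact absurd e (out_ne hA hF h _)

theorem good_complete [Group.FG G] {γ : G →* GL (Fin n) ℚ} (hV : VAb γ.ker)
    (hu : ∀ w, IsNilpotent ((γ w).val - 1) → γ w = 1) :
    ∃ (k : ℕ) (τ : Fin k → G) (r : List G), Good γ γ.ker τ r := by
  obtain ⟨T, ⟨t1, t2, t3, t4⟩, t5⟩ := K.vtf hV le_rfl (by rw [Subgroup.relIndex_self]; omega)
  obtain ⟨k, τ, hτ⟩ := exists_isMark t3 t4 t5
  obtain ⟨r, hr, hr'⟩ := exists_cov hτ
  have hA : ∀ i j, γ (τ i) * γ (τ j) = γ (τ j) * γ (τ i) := fun i j => by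
    have := hr.1 i j
    rw [MonoidHom.mem_ker, map_commutatorElement] at this
    exact commutatorElement_eq_one_iff_mul_comm.1 this
  refine ⟨k, τ, r, hr, ⟨hA, fun t ht => hτ.2.2.2.2 t (hu _ ?_)⟩, fun s hs => ?_⟩
  · rwa [map_zp]
  · rcases hr' s hs with rfl | h
    · exact Or.inl (one_mem _)
    · obtain ⟨v, hv⟩ := hτ.2.2.2.1 _ (T.pow_index_mem s)
      have hm : (0 : ℤ) < T.index := Int.natCast_pos.2 (Nat.pos_of_ne_zero t2.1)
      rw [MonoidHom.mem_ker, map_mul, map_inv, map_zp, map_pow, mul_inv_eq_one] at hv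
      refine Or.inr ⟨(T.index, fun j => v j / T.index, fun j => v j % T.index), fun j => ?_, ?_,
        fun e => h ?_⟩
      · have h1 := Int.emod_nonneg (v j) hm.ne'
        have h2 := Int.emod_lt_of_pos (v j) hm
        dsimp only
        omega
      · dsimp only
        rw [hv, ← zpow_natCast, ← zp_smul hA, ← zp_add hA]
        exact congrArg _ (funext fun j => (Int.mul_ediv_add_emod _ _).symm)
      · rw [← map_zp, ← mul_inv_eq_one, ← map_inv, ← map_mul] at e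
        exact (T.mul_mem_cancel_right (T.inv_mem (zp_mem hτ.2.2.1 _))).1 (t3 e)

variable {b : ℕ} {wt : Fin n → ℕ}

theorem uni_lift {g γ : Fin b → GL (Fin n) ℚ} (hg : ∀ i, IsPar wt (g i))
    (h : ∀ i, IsUni wt (γ i * (g i)⁻¹)) (w : Fr b) :
    IsUni wt (FreeGroup.lift γ w * (FreeGroup.lift g w)⁻¹) := by
  induction w using FreeGroup.induction_on with
  | C1 => rw [map_one, map_one, mul_inv_cancel]; exact IsUni.one
  | of x => rw [FreeGroup.lift_apply_of, FreeGroup.lift_apply_of]; exact h x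
  | inv_of x hx =>
    have := IsUni.conj (isPar_lift hg (FreeGroup.of x)).inv hx.inv
    rw [map_inv, map_inv]
    convert this using 1
    group
  | mul x y hx hy =>
    have := hx.mul (IsUni.conj (isPar_lift hg x) hy)
    rw [map_mul, map_mul]
    convert this using 1
    group

theorem sound {g : Fin b → GL (Fin n) ℚ} (hT : Tri (FreeGroup.lift g)) {x : NFD b n}
    (h : Cert g x) : NF g x := by
  obtain ⟨h1, h2, h3, γ, h4, h5, p, h6⟩ := h
  have hp := isPar_lift h2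
  have hu : ∀ w, IsNilpotent ((FreeGroup.lift g w).val - 1) → w ∈ K.ncl x.2.2.2 := fun w hw => by
    refine good_sound (Subgroup.normalClosure_le_normal h5) h6 w ?_
    have k1 := uni_lift h2 h4 w
    have k2 := k1.isPar.mul (hp w)
    rw [inv_mul_cancel_right] at k2
    refine nil_close h1 (Submodule.sub_mem _ k2.1 gb_one) (Submodule.sub_mem _ (hp w).1 gb_one)
      ?_ ?_
    · have := fil_mul' k1 (hp w).1
      rwa [sub_mul, one_mul, ← Units.val_mul, inv_mul_cancel_right, ← sub_sub_sub_cancel_right _ _ 1]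
        at this
    · rw [lift_cjG, cjH_apply]
      exact (nil_cj _ _).2 hw
  obtain ⟨N, -, hV, c, hc⟩ := hT
  refine ⟨⟨h1, hp, isUni_ncl hp h3⟩, K.vab_mono hV fun y hy => hu y ⟨c, ?_⟩, hu⟩
  have := hc (List.replicate c y) (fun z hz => (List.eq_of_mem_replicate hz).symm ▸ hy)
    List.length_replicate.ge
  rwa [List.map_replicate, List.prod_replicate] at this

theorem complete {g : Fin b → GL (Fin n) ℚ} (hT : Tri (FreeGroup.lift g)) : ∃ x, Cert g x := by
  have : Group.FG (Fr b) := (K.mgen_gensL b).fg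
  obtain ⟨β, wt, c, γ, h1, h2, h3, h4⟩ := nf_math hT
  obtain ⟨Y, hY⟩ := h2.exists_ncl
  obtain ⟨k, τ, r, h5⟩ := good_complete h2 h4
  obtain ⟨γ, rfl⟩ := FreeGroup.lift.surjective γ
  rw [← lift_cjG] at h1 h3
  have hy : ∀ y ∈ Y, y ∈ (FreeGroup.lift γ).ker := fun y hy =>
    hY ▸ Subgroup.subset_normalClosure hy
  refine ⟨(β, wt, c, Y), h1.1, fun i => ?_, fun y h => h1.2.2 y (hy y h), γ, fun i => ?_, hy,
    ⟨k, τ, r⟩, ?_⟩
  · have := h1.2.1 (FreeGroup.of i)
    rwa [FreeGroup.lift_apply_of] at this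
  · have := fil_mul' (h3 (FreeGroup.of i)).2 (h1.2.1 (FreeGroup.of i)).inv.1
    rw [FreeGroup.lift_apply_of, FreeGroup.lift_apply_of, sub_mul, Units.mul_inv] at this
    exact this
  · rw [hY] at h5
    exact h5

end math

section comp
variable {A : Type} [Rep A] {b k n : A → ℕ}

theorem hausL (hn : CS n) : Haus (fun a => GL (Fin (n a)) ℚ) :=
  (Haus.matrix (CFin.fin hn) (CFin.fin hn) Haus.rat).units

theorem cs_out {M : ∀ a, Fin (k a) → GL (Fin (n a)) ℚ} {z : ∀ a, GL (Fin (n a)) ℚ} (hk : CS k)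
    (hn : CS n) (hM : CS M) (hz : CS z) : CS (fun a => Out (M a) (z a)) := by
  have p := s2 (β := fun a => ℕ × (Fin (k a) → ℤ) × (Fin (k a) → ℤ))
  have hE : Enum (fun a => Fin (k a) → ℤ) := Enum.pi (CFin.fin hk) Disc.fin Enum.int
  have hG := (grpL hn).comp (s1 (β := fun a => ℕ × (Fin (k a) → ℤ) × (Fin (k a) → ℤ)))
  have z1 := CS.zp hG.mul hG.inv hG.one (hk.comp s1) (hM.comp s1) p.snd.fst
  have z2 := CS.zp hG.mul hG.inv hG.one (hk.comp s1) (hM.comp s1) p.snd.snd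
  exact CS.ex (Enum.nat.prod (hE.prod hE))
    ((CS.all (CFin.fin (hk.comp s1))
      (CS.lt LtF.nat (CS.natAbs (CS.app (p.snd.snd.comp s1) s2)) (p.fst.comp s1))).and
    ((CS.eq hG.disc (CS.pow hG.mul hG.one (hz.comp s1) p.fst)
      (CS.mul hG.mul (CS.pow hG.mul hG.one z1 p.fst) z2)).and
      (CS.ne (hausL (hn.comp s1)) (hz.comp s1) z1)))

theorem cs_cf {M : ∀ a, Fin (k a) → GL (Fin (n a)) ℚ} (hk : CS k) (hn : CS n) (hM : CS M) :
    CS (fun a => ∃ _ : ∀ i j, M a i * M a j = M a j * M a i, Faith (M a)) := by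
  have v := FEnumAux.v1 (p := fun a => ∀ i j, M a i * M a j = M a j * M a i)
  have w : CS fun q : Σ q : (Σ a, Fin (k a)), Fin (k q.1) => q.1.1 := s1.comp s1
  have m1 := CS.app (hM.comp w) (s2.comp s1)
  have m2 := CS.app (hM.comp w) s2
  have hG := (grpL hn).comp w
  exact CS.exD (CS.all (CFin.fin hk) (CS.all (CFin.fin (hk.comp s1))
      (CS.eq hG.disc (CS.mul hG.mul m1 m2) (CS.mul hG.mul m2 m1))))
      (cs_faith (hk.comp v) (hn.comp v) (hM.comp v) fun a => a.2)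

theorem cs_good {γ : ∀ a, Fr (b a) →* GL (Fin (n a)) ℚ} {N : ∀ a, Subgroup (Fr (b a))}
    {τ : ∀ a, Fin (k a) → Fr (b a)} {r : ∀ a, List (Fr (b a))} (hb : CS b) (hk : CS k)
    (hn : CS n) (hγ : CS γ) (hN : CS N) (hN' : ∀ a, (N a).Normal) (hτ : CS τ) (hr : CS r) :
    CS (fun a => Good (γ a) (N a) (τ a) (r a)) := by
  have hM : CS fun a => fun j => γ a (τ a j) :=
    CS.lam (CS.homApp (hγ.comp s1) (CS.app (hτ.comp s1) s2))
  exact (cs_cov hb hk hN hN' hτ hr).and ((cs_cf hk hn hM).and (CS.allMem hr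
    ((CS.memSubgroup (hN.comp s1) s2).or
      (cs_out (hk.comp s1) (hn.comp s1) (hM.comp s1) (CS.homApp (hγ.comp s1) s2)))))

theorem cs_exGood {γ : ∀ a, Fr (b a) →* GL (Fin (n a)) ℚ} {Y : ∀ a, List (Fr (b a))}
    (hb : CS b) (hn : CS n) (hγ : CS γ) (hY : CS Y) :
    CS (fun a => ∃ p : Σ k : ℕ, (Fin k → Fr (b a)) × List (Fr (b a)),
      Good (γ a) (K.ncl (Y a)) p.2.1 p.2.2) := by
  have h1 := s2 (β := fun a => Σ k : ℕ, (Fin k → Fr (b a)) × List (Fr (b a)))
  have h2 := FEnumAux.s2 h1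
  exact CS.ex (Enum.sigma Enum.nat
      ((Enum.pi (CFin.fin s2) Disc.fin ((grpF hb).enum.comp (s1.comp s1))).prod
        ((grpF hb).enum.comp s1).list))
    (cs_good (hb.comp s1) h1.sfst (hn.comp s1) (hγ.comp s1) ((cs_nclL hb hY).comp s1)
      (fun _ => Subgroup.normalClosure_normal) h2.fst h2.snd)

theorem cs_gam {wt : ∀ a, Fin (n a) → ℕ} {g : ∀ a, Fin (b a) → GL (Fin (n a)) ℚ}
    {Y : ∀ a, List (Fr (b a))} (hb : CS b) (hn : CS n) (hw : CS wt) (hg : CS g) (hY : CS Y) :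
    CS (fun a => ∃ γ : Fin (b a) → GL (Fin (n a)) ℚ, (∀ i, IsUni (wt a) (γ i * (g a i)⁻¹)) ∧
      (∀ y ∈ Y a, FreeGroup.lift γ y = 1) ∧
      ∃ p : Σ k : ℕ, (Fin k → Fr (b a)) × List (Fr (b a)),
        Good (FreeGroup.lift γ) (K.ncl (Y a)) p.2.1 p.2.2) := by
  have h0 := s1 (β := fun a => Fin (b a) → GL (Fin (n a)) ℚ)
  have h1 := s2 (β := fun a => Fin (b a) → GL (Fin (n a)) ℚ)
  have hl := cs_lift (hn.comp h0) h1
  have w : CS fun q : Σ q : (Σ a, Fin (b a) → GL (Fin (n a)) ℚ), Fin (b q.1) => q.1.1 :=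
    s1.comp s1
  have w' : CS fun q : Σ q : (Σ a, Fin (b a) → GL (Fin (n a)) ℚ), Fr (b q.1) => q.1.1 :=
    s1.comp s1
  have hG := (grpL hn).comp w
  have hG' := (grpL hn).comp w'
  exact CS.ex (Enum.pi (CFin.fin hb) Disc.fin ((grpL hn).enum.comp s1))
    ((CS.all (CFin.fin (hb.comp s1)) (CS.isUni (hn.comp w) (hw.comp w)
      (CS.mul hG.mul (CS.app (h1.comp s1) s2) (CS.inv hG.inv (CS.app (hg.comp w) s2))))).and
    ((CS.allMem (hY.comp s1) (CS.eq hG'.disc (CS.homApp (hl.comp s1) s2) hG'.one)).and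
      (cs_exGood (hb.comp h0) (hn.comp h0) hl (hY.comp h0))))

theorem cs_cert {g : ∀ a, Fin (b a) → GL (Fin (n a)) ℚ} {x : ∀ a, NFD (b a) (n a)} (hb : CS b)
    (hn : CS n) (hg : CS g) (hx : CS x) : CS (fun a => Cert (g a) (x a)) := by
  have hc := cs_cjG hn hx.fst hg
  have hw := hx.snd.fst
  have hY := hx.snd.snd.snd
  exact (CS.all (CFin.fin hn)
      (CS.lt LtF.nat (CS.app (hw.comp s1) s2) (hx.snd.snd.fst.comp s1))).and
    ((CS.all (CFin.fin hb) (CS.isPar (hn.comp s1) (hw.comp s1) (CS.app (hc.comp s1) s2))).and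
    ((CS.allMem hY (CS.isUni (hn.comp s1) (hw.comp s1)
      (CS.homApp ((cs_lift hn hc).comp s1) s2))).and (cs_gam hb hn hw hc hY)))

end comp

end Nf

variable {A : Type} [Rep A] {b n : A → ℕ}

theorem mv_nf {g : ∀ a, Fin (b a) → GL (Fin (n a)) ℚ} (hb : CS b) (hn : CS n) (hg : CS g)
    (hT : ∀ a, Tri (FreeGroup.lift (g a))) :
    MV (fun a (x : NFD (b a) (n a)) => NF (g a) x) :=
  MV.search (Q' := fun a x => Nf.Cert (g a) x)
    ((grpL hn).enum.prod ((Enum.pi (CFin.fin hn) Disc.fin Enum.nat).prod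
      (Enum.nat.prod (grpF hb).enum.list)))
    (Nf.cs_cert (hb.comp FOpsAux.s1) (hn.comp FOpsAux.s1) (hg.comp FOpsAux.s1) FOpsAux.s2)
    (fun a _ h => Nf.sound (hT a) h) fun a _ => Nf.complete (hT a)

end Pool.Agent.P.MP_257122_al.X
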