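import Pool.Agent.P.MP_257122_al.X.Kill

/-!
# Canonical subgroups of a group of matrices
-/

namespace Pool.Agent.P.MP_257122_al.X

open scoped commutatorElement
open Matrix FOpsAux

/-- Size and generators of a group of matrices. -/
abbrev MG (b : ℕ) : Type := Σ n : ℕ, {g : Fin b → GL (Fin n) ℚ // Tri (FreeGroup.lift g)}

/-- Groups of matrices: rank, size, generators. -/
abbrev Pres : Type := Σ b : ℕ, MG b

/-- The words with value `1`. -/
def kerS {b : ℕ} (x : MG b) : Subgroup (Fr b) := (FreeGroup.lift x.2.1).ker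

instance kerS_normal {b : ℕ} (x : MG b) : (kerS x).Normal :=
  inferInstanceAs (FreeGroup.lift x.2.1).ker.Normal

/-- The subgroup of all relations. -/
abbrev Pres.S (p : Pres) : Subgroup (Fr p.1) := kerS p.2

/-- The group. -/
abbrev Pres.G (p : Pres) : Type := Fr p.1 ⧸ p.S

/-- The canonical projection. -/
abbrev Pres.q (p : Pres) : Fr p.1 →* p.G := QuotientGroup.mk' p.S

/-- The preimage of `res₂` in the free group. -/
def Pres.T (p : Pres) (e₁ e₂ : ℕ) : Subgroup (Fr p.1) := (res₂ e₁ e₂ p.G).comap p.q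

/-- The preimage of the canonical subgroup in the free group. -/
def Pres.N (p : Pres) (e₁ e₂ : ℕ) : Subgroup (Fr p.1) := (Ncan e₁ e₂ p.G).comap p.q

/-- The data `x` describe the canonical subgroup. -/
def Pres.Mark (p : Pres) (e₁ e₂ : ℕ) (x : Mk p.1) : Prop :=
  p.N e₁ e₂ = Subgroup.normalClosure {y | y ∈ x.2.2} ∧ IsMark (p.T e₁ e₂) (p.N e₁ e₂) x.2.1

theorem Pres.finRank (p : Pres) : FinRank p.G := p.2.2.2.finRank

variable {A : Type} [Rep A]

theorem pb {p : A → Pres} (hp : CS p) : CS (fun a => (p a).1) := hp.sfst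

theorem pn {p : A → Pres} (hp : CS p) : CS (fun a => (p a).2.1) := (FEnumAux.s2 hp).sfst

theorem pg {p : A → Pres} (hp : CS p) : CS (fun a => (p a).2.2.1) :=
  (FEnumAux.s2 (FEnumAux.s2 hp)).val

theorem pS {p : A → Pres} (hp : CS p) : CS (fun a => (p a).S) := cs_kerL (pn hp) (pg hp)

theorem fin_comap (p : Pres) (R : Subgroup p.G) [R.FiniteIndex] : (R.comap p.q).FiniteIndex :=
  ⟨by rw [Subgroup.index_comap_of_surjective _ (QuotientGroup.mk'_surjective _)]
      exact Subgroup.FiniteIndex.index_ne_zero⟩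

section
variable {G : A → Type} [∀ a, Rep (G a)] [∀ a, Group (G a)] {p : A → Pres}
  {g : ∀ a, Fin (p a).1 → G a}

theorem relLe (hG : GrpF G) (hf : CFin G) (hp : CS p) (hg : CS g) :
    CS (fun a => (p a).S ≤ (FreeGroup.lift (g a)).ker) :=
  cs_killFin hG hf (pb hp) (pn hp) (pg hp) hg fun a => (p a).2.2.2

theorem relNotLe (hG : GrpF G) (hf : CFin G) (hp : CS p) (hg : CS g) :
    CS (fun a => ¬ (p a).S ≤ (FreeGroup.lift (g a)).ker) := by
  refine (CS.ex (P := fun a w => w ∈ (p a).S ∧ ¬ FreeGroup.lift (g a) w = 1)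
    (grpF (pb hp)).enum (CS.and (CS.memSubgroup ((pS hp).comp s1) s2)
      (CS.notEq ((hf.haus hG.disc).comp s1)
        (CS.homApp ((CS.freeLift hG.mul hG.inv hG.one hg).comp s1) s2)
        (hG.one.comp s1)))).of_iff fun a _ => ?_
  rw [SetLike.not_le_iff_exists]
  rfl

end

open GResAux

section pres
variable {p : A → Pres} {e e₁ e₂ : A → ℕ}

theorem CS.presRes (hp : CS p) (he : CS e) :
    CS (fun a => (res (e a) (p a).G).comap (p a).q) := by
  have t2 : CS (fun q : Σ x : (Σ a, Fr (p a).1), (Fin (p x.1).1 → Equiv.Perm (Fin (e x.1))) =>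
    q.1.1) := s1.comp s1
  have hG := grpPerm (he.comp t2)
  exact CS.subgroupIntro ((CS.all (P := fun (x : Σ a, Fr (p a).1)
      (g : Fin (p x.1).1 → Equiv.Perm (Fin (e x.1))) =>
      (p x.1).S ≤ (FreeGroup.lift g).ker → FreeGroup.lift g x.2 = 1)
    (CFin.pi (CFin.fin (pb (hp.comp s1))) Disc.fin (CFin.perm (CFin.fin (he.comp s1)) Disc.fin))
    (CS.imp (relNotLe hG (CFin.perm (CFin.fin (he.comp t2)) Disc.fin) (hp.comp t2) s2)
      (CS.eq hG.disc (CS.homApp (CS.freeLift hG.mul hG.inv hG.one s2) (s2.comp s1))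
        hG.one))).of_iff fun _ _ => mem_res_comap)
theorem CS.presNotRes {w : ∀ a, Fr (p a).1} (hp : CS p) (he : CS e) (hw : CS w) :
    CS (fun a => ¬ w a ∈ (res (e a) (p a).G).comap (p a).q) := by
  have t1 : CS (fun q : Σ a, (Fin (p a).1 → Equiv.Perm (Fin (e a))) => q.1) := s1
  have hG := grpPerm (he.comp t1)
  have hf := CFin.perm (CFin.fin (he.comp t1)) Disc.fin
  exact (CS.notAll (P := fun a (g : Fin (p a).1 → Equiv.Perm (Fin (e a))) =>
      (p a).S ≤ (FreeGroup.lift g).ker → FreeGroup.lift g (w a) = 1)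
    (CFin.pi (CFin.fin (pb hp)) Disc.fin (CFin.perm (CFin.fin he) Disc.fin)).enum
    (CS.notImp (relLe hG hf (hp.comp t1) s2)
      (CS.notEq (hf.haus hG.disc) (CS.homApp (CS.freeLift hG.mul hG.inv hG.one s2) (hw.comp s1))
        hG.one))).of_iff fun _ _ => mem_res_comap.not
theorem CS.presT (hp : CS p) (h1 : CS e₁) (h2 : CS e₂) : CS (fun a => (p a).T (e₁ a) (e₂ a)) :=
  CS.subgroupInf (CS.presRes hp h1) (CS.presRes hp h2)
theorem CS.presNotT {w : ∀ a, Fr (p a).1} (hp : CS p) (h1 : CS e₁) (h2 : CS e₂) (hw : CS w) :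
    CS (fun a => ¬ w a ∈ (p a).T (e₁ a) (e₂ a)) :=
  CS.notAnd (CS.presNotRes hp h1 hw) (CS.presNotRes hp h2 hw)

theorem MV.gensRes (hp : CS p) (he : CS e) : MV (fun a (E : List (Fr (p a).1)) =>
    Subgroup.closure {x | x ∈ E} = (res (e a) (p a).G).comap (p a).q) :=
  MV.gens (pb hp) (CS.presRes hp he) (CS.presNotRes (hp.comp s1) (he.comp s1) s2)
    fun a => haveI := res_finiteIndex (G := (p a).G) (e a); fin_comap _ _
theorem MV.gensT (hp : CS p) (h1 : CS e₁) (h2 : CS e₂) : MV (fun a (E : List (Fr (p a).1)) =>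
    Subgroup.closure {x | x ∈ E} = (p a).T (e₁ a) (e₂ a)) :=
  MV.gens (pb hp) (CS.presT hp h1 h2) (CS.presNotT (hp.comp s1) (h1.comp s1) (h2.comp s1) s2)
    fun a => haveI := res₂_finiteIndex (G := (p a).G) (e₁ a) (e₂ a); fin_comap _ _

theorem cs_dd (hp : CS p) (he : CS e) :
    CS (fun a => ⁅dres (e a) (p a).G, dres (e a) (p a).G⁆.comap (p a).q) := by
  have hF := grpFr (pb hp)
  have h1 := CS.subgroupComm hF (CS.presRes hp he) (CS.presRes hp he)
  refine (CS.subgroupSup hF (CS.subgroupComm hF h1 h1)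
    (pS hp)).congr fun a _ => ?_
  rw [dres, ← comap_comm (QuotientGroup.mk'_surjective _), QuotientGroup.ker_mk']

/-- The canonical subgroup is r.e. -/
theorem CS.presN (hp : CS p) (h1 : CS e₁) (h2 : CS e₂) : CS (fun a => (p a).N (e₁ a) (e₂ a)) := by
  have hD := cs_dd hp h1
  have hT := CS.presT hp h1 h2
  refine CS.subgroupIntro ((MV.gensRes (hp.comp s1) (h1.comp s1)).elimP
    (P' := fun x E => x.2 ∈ (p x.1).T (e₁ x.1) (e₂ x.1) ∧ ∃ k, ∀ y ∈ E, ∀ z ∈ E, ∃ m, 0 < m ∧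
      MP_257122_al.itc x.2 ⁅y, z⁆ k ^ m ∈
        ⁅dres (e₁ x.1) (p x.1).G, dres (e₁ x.1) (p x.1).G⁆.comap (p x.1).q)
    (cs_unip hT hD) fun x E _ _ hE => ?_)
  rw [Pres.N, Subgroup.mem_comap (K := Ncan _ _ _), mem_Ncan]
  exact and_congr_right fun hx => pull_unip (QuotientGroup.mk'_surjective _) hE hx.1
/-- Annihilation is r.e. -/
theorem CS.presAnn {w : ∀ a, Fr (p a).1} {l : A → List ℤ} (hp : CS p) (he : CS e) (hw : CS w)
    (hl : CS l) (hm : ∀ a, (p a).q (w a) ∈ res (e a) (p a).G) :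
    CS (fun a => Ann (dres (e a) (p a).G) ((p a).q (w a)) (l a)) :=
  (MV.gensRes hp he).elimP (P' := fun a E => ∀ y ∈ E, ∀ z ∈ E, ∃ m, 0 < m ∧
      MP_257122_al.pv (w a) ⁅y, z⁆ (l a) ^ m ∈
        ⁅dres (e a) (p a).G, dres (e a) (p a).G⁆.comap (p a).q)
    (cs_ann hw hl (cs_dd hp he)) fun a _ _ _ hE =>
    pull_ann (QuotientGroup.mk'_surjective _) hE (hm a) (l a)

end pres

end Pool.Agent.P.MP_257122_al.X
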