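import Pool.Agent.P.MP_257122_al.X.Core

/-!
# Isomorphism and non-isomorphism of groups of matrices are recursively enumerable
-/

namespace Pool.Agent.P.MP_257122_al.X

theorem iso_iff (p p' : Pres) :
    (∃ x : (Fin p.1 → Fr p'.1) × (Fin p'.1 → Fr p.1),
      (p.S ≤ kerS (pull (FreeGroup.lift x.1) p'.2) ∧
        ∀ i, FreeGroup.lift x.2 (x.1 i) * (FreeGroup.of i)⁻¹ ∈ p.S) ∧
      (p'.S ≤ kerS (pull (FreeGroup.lift x.2) p.2) ∧
        ∀ i, FreeGroup.lift x.1 (x.2 i) * (FreeGroup.of i)⁻¹ ∈ p'.S)) ↔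
      Nonempty (p.G ≃* p'.G) := by
  simp only [ker_pull]
  constructor
  · rintro ⟨x, ⟨h3, h5⟩, h4, h6⟩
    refine Compat.iso (u := FreeGroup.lift x.1) (v := FreeGroup.lift x.2)
      ⟨fun y hy => h3 hy, fun y hy => h4 hy,
        gb_gens ((FreeGroup.lift x.2).comp (FreeGroup.lift x.1)) fun i => ?_,
        gb_gens ((FreeGroup.lift x.1).comp (FreeGroup.lift x.2)) fun i => ?_⟩
    · rw [MonoidHom.comp_apply, FreeGroup.lift_apply_of]; exact h5 i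
    · rw [MonoidHom.comp_apply, FreeGroup.lift_apply_of]; exact h6 i
  · rintro ⟨φ⟩
    obtain ⟨u, v, h, -⟩ := exists_compat φ
    obtain ⟨x, rfl⟩ := FreeGroup.lift.surjective u
    obtain ⟨y, rfl⟩ := FreeGroup.lift.surjective v
    refine ⟨(x, y), ⟨fun w hw => h.1 w hw, fun i => ?_⟩, fun w hw => h.2.1 w hw, fun i => ?_⟩
    · have := h.2.2.1 (FreeGroup.of i)
      rwa [FreeGroup.lift_apply_of] at this
    · have := h.2.2.2 (FreeGroup.of i)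
      rwa [FreeGroup.lift_apply_of] at this

open FOpsAux in
theorem iso_half {A : Type} [Rep A] {p p' : A → Pres} {x : ∀ a, Fin (p a).1 → Fr (p' a).1}
    {y : ∀ a, Fin (p' a).1 → Fr (p a).1} (hp : CS p) (hp' : CS p') (hx : CS x) (hy : CS y) :
    CS (fun a => (p a).S ≤ kerS (pull (FreeGroup.lift (x a)) (p' a).2) ∧
      ∀ i, FreeGroup.lift (y a) (x a i) * (FreeGroup.of i)⁻¹ ∈ (p a).S) :=
  have h := cs_pull (CS.freeLift MulF.free InvF.free OneF.free hx) (FEnumAux.s2 hp')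
  CS.and (cs_kill (pb hp) (pn hp) h.sfst (pg hp) (FEnumAux.s2 h).val (fun a => (p a).2.2.2)
      fun a => (pull (FreeGroup.lift (x a)) (p' a).2).2.2)
    (CS.all (CFin.fin (pb hp)) (CS.memSubgroup ((pS hp).comp s1) (CS.mul MulF.free
      (CS.homApp ((CS.freeLift MulF.free InvF.free OneF.free hy).comp s1)
        (CS.app (hx.comp s1) s2)) (CS.inv InvF.free (CS.freeOf s2)))))

open FOpsAux in
theorem cs_iso : CS (fun a : Pres × Pres => Nonempty (a.1.G ≃* a.2.G)) := by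
  have hp : CS (fun a : Pres × Pres => a.1) := CS.id.fst
  have hp' : CS (fun a : Pres × Pres => a.2) := CS.id.snd
  exact (CS.ex (Enum.prod
      (Enum.pi (CFin.fin (pb hp)) Disc.fin (Enum.free (Enum.fin ((pb hp').comp s1))))
      (Enum.pi (CFin.fin (pb hp')) Disc.fin (Enum.free (Enum.fin ((pb hp).comp s1)))))
    (CS.and (iso_half (hp.comp s1) (hp'.comp s1) s2.fst s2.snd)
      (iso_half (hp'.comp s1) (hp.comp s1) s2.snd s2.fst))).of_iff fun a _ => iso_iff a.1 a.2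

/-- Pairs of groups. -/
abbrev PP : Type := {a : Pres × Pres // FinRank a.1.G ∧ FinRank a.2.G}

section
variable {A : Type} [Rep A] {p p' : A → Pres} {e₁ e₂ : A → ℕ} {x : ∀ a, Mk (p a).1}
  {x' : ∀ a, Mk (p' a).1}

theorem btw_pair {u : ∀ a, Fin (p a).1 → Fr (p' a).1} {v : ∀ a, Fin (p' a).1 → Fr (p a).1}
    (hp : CS p) (hp' : CS p') (h1 : CS e₁) (h2 : CS e₂) (hx : CS x) (hx' : CS x') (hu : CS u)
    (hv : CS v) (hG : ∀ a, FinRank (p a).G) (hG' : ∀ a, FinRank (p' a).G)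
    (hM : ∀ a, (p a).Mark (e₁ a) (e₂ a) (x a)) (hM' : ∀ a, (p' a).Mark (e₁ a) (e₂ a) (x' a)) :
    Btw (fun a => ¬ Nonempty ((p a).G ≃* (p' a).G) ∧ GoodPar (e₁ a) (e₂ a) (p a).G ∧
        GoodPar (e₁ a) (e₂ a) (p' a).G)
      (fun a => ¬ ∃ u₀ v₀, Compat (p a).S (p' a).S u₀ v₀ ∧
        (∀ i, u a i * (u₀ (FreeGroup.of i))⁻¹ ∈ (p' a).N (e₁ a) (e₂ a)) ∧
          ∀ i, v a i * (v₀ (FreeGroup.of i))⁻¹ ∈ (p a).N (e₁ a) (e₂ a)) := by
  have hc := cs_compat hp hp' hx hx' hu hv hM hM'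
  have hn := cs_notCompat hp hp' h1 h2 hx hx' hu hv hM hM'
  let B : Type := {a // Compat ((p a).N (e₁ a) (e₂ a)) ((p' a).N (e₁ a) (e₂ a))
    (FreeGroup.lift (u a)) (FreeGroup.lift (v a))}
  have hok : ∀ b : B, (nielIn (p b.1) (p' b.1) (u b.1) (v b.1) (x b.1).2.2).ok := fun b =>
    niel_ok (N' := (p' b.1).N (e₁ b.1) (e₂ b.1)) ((hM b.1).1 ▸ Pres.S_le_N _ _ _)
      (Pres.S_le_N _ _ _) ((hM b.1).1 ▸ Pres.vab_N _ _ _) ((hM b.1).1 ▸ b.2)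
  have hval : CS (fun b : B => b.1) := CS.id.val
  have hcs : CS (fun b : B => nielIn (p b.1) (p' b.1) (u b.1) (v b.1) (x b.1).2.2) :=
    cs_nielIn (hp.comp hval) (hp'.comp hval) (hu.comp hval) (hv.comp hval)
      (hx.comp hval).ssnd.snd
  have core := btw_core.comp (g := fun b : B => ⟨_, hok b⟩) hcs
  refine ((Btw.of_cs hn (fun _ _ h => h) (fun _ _ h => h)).or (Btw.sub hc core)).mono ?_ ?_
  · rintro a - ⟨hI, hg, hg'⟩
    by_cases h : Compat ((p a).N (e₁ a) (e₂ a)) ((p' a).N (e₁ a) (e₂ a))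
      (FreeGroup.lift (u a)) (FreeGroup.lift (v a))
    · exact Or.inr ⟨h, niel_lo (N' := (p' a).N (e₁ a) (e₂ a)) ((hM a).1 ▸ h) (hG a) (hG' a)
        ((hM a).1 ▸ Pres.nilMod hg) (Pres.nilMod hg') hI⟩
    · exact Or.inl h
  · rintro a - (h | ⟨h, hH⟩) ⟨u₀, v₀, h₀, hu₀, hv₀⟩
    · refine h ((Compat.canon h₀ (e₁ a) (e₂ a)).1.of_congr (congr_of_gens fun i => ?_)
        (congr_of_gens fun i => ?_))
      · rw [FreeGroup.lift_apply_of]; exact hu₀ i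
      · rw [FreeGroup.lift_apply_of]; exact hv₀ i
    · exact niel_hi (N' := (p' a).N (e₁ a) (e₂ a)) ((hM a).1 ▸ Pres.S_le_N _ _ _)
        (Pres.S_le_N _ _ _) ((hM a).1 ▸ h) hH h₀ hu₀ ((hM a).1 ▸ hv₀)

theorem mv_pairs (hp : CS p) (hp' : CS p') (h1 : CS e₁) (h2 : CS e₂) (hx : CS x) (hx' : CS x')
    (hG : ∀ a, FinRank (p a).G) (hG' : ∀ a, FinRank (p' a).G)
    (hM : ∀ a, (p a).Mark (e₁ a) (e₂ a) (x a)) (hM' : ∀ a, (p' a).Mark (e₁ a) (e₂ a) (x' a)) :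
    MV (fun a (L : List ((Fin (p a).1 → Fr (p' a).1) × (Fin (p' a).1 → Fr (p a).1))) =>
      Nonempty ((p a).G ≃* (p' a).G) → ∃ y ∈ L, ∃ u₀ v₀, Compat (p a).S (p' a).S u₀ v₀ ∧
        (∀ i, y.1 i * (u₀ (FreeGroup.of i))⁻¹ ∈ (p' a).N (e₁ a) (e₂ a)) ∧
          ∀ i, y.2 i * (v₀ (FreeGroup.of i))⁻¹ ∈ (p a).N (e₁ a) (e₂ a)) := by
  refine ((mv_bound hp hp' h1 h2 hx hx' hG hG' hM hM').prod
    (mv_bound hp' hp h1 h2 hx' hx hG' hG hM' hM)).bind ?_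
  have ha := (CS.id (A := {q : Σ _ : A, ℕ × ℕ // (∀ u v, Compat (p q.1).S (p' q.1).S u v → ∀ j t,
      u ((x q.1).2.1 j) * (zp (x' q.1).2.1 t)⁻¹ ∈ (p' q.1).N (e₁ q.1) (e₂ q.1) →
        ∀ l, (t l).natAbs ≤ q.2.1) ∧ ∀ u v, Compat (p' q.1).S (p q.1).S u v → ∀ j t,
      u ((x' q.1).2.1 j) * (zp (x q.1).2.1 t)⁻¹ ∈ (p q.1).N (e₁ q.1) (e₂ q.1) →
        ∀ l, (t l).natAbs ≤ q.2.2})).val
  have h0 := ha.sfst
  have hR := CS.add AddF.nat ha.ssnd.fst ha.ssnd.snd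
  refine (mv_va (T := fun q => (p q.1.1).T (e₁ q.1.1) (e₂ q.1.1))
    (T' := fun q => (p' q.1.1).T (e₁ q.1.1) (e₂ q.1.1)) (hp.comp h0).sfst (hp'.comp h0).sfst
    (hx.comp h0).sfst (hx'.comp h0).sfst hR
    (CS.presN (hp.comp h0) (h1.comp h0) (h2.comp h0))
    (CS.presN (hp'.comp h0) (h1.comp h0) (h2.comp h0)) (hx.comp h0).ssnd.fst
    (hx'.comp h0).ssnd.fst
    (CS.presNotT ((hp.comp h0).comp CS.id.sfst) ((h1.comp h0).comp CS.id.sfst)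
      ((h2.comp h0).comp CS.id.sfst) CS.id.ssnd)
    (CS.presNotT ((hp'.comp h0).comp CS.id.sfst) ((h1.comp h0).comp CS.id.sfst)
      ((h2.comp h0).comp CS.id.sfst) CS.id.ssnd)
    (fun q => ⟨inferInstance, inferInstance, inferInstance, (hM q.1.1).2⟩)
    (fun q => ⟨inferInstance, inferInstance, inferInstance, (hM' q.1.1).2⟩)).mono ?_
  rintro ⟨⟨a, R, R'⟩, hb, hb'⟩ L - - hL ⟨φ⟩
  obtain ⟨u, v, hc, -, -⟩ := exists_compat φ
  obtain ⟨c1, c2, c3⟩ := Compat.canon hc (e₁ a) (e₂ a)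
  obtain ⟨c, y, hy, hy1, hy2⟩ := hL u v c1 c2 c3
    (fun j t ht l => (hb u v hc j t ht l).trans (Nat.le_add_right _ _))
    (fun j t ht l => (hb' v u hc.symm j t ht l).trans (Nat.le_add_left _ _))
  refine ⟨y, hy, _, _, hc.conj c, fun i => ?_, fun i => ?_⟩
  · simpa using hy1 i
  · simpa using hy2 i

theorem btw_marked (hp : CS p) (hp' : CS p') (h1 : CS e₁) (h2 : CS e₂) (hx : CS x) (hx' : CS x')
    (hG : ∀ a, FinRank (p a).G) (hG' : ∀ a, FinRank (p' a).G)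
    (hM : ∀ a, (p a).Mark (e₁ a) (e₂ a) (x a)) (hM' : ∀ a, (p' a).Mark (e₁ a) (e₂ a) (x' a)) :
    Btw (fun a => ¬ Nonempty ((p a).G ≃* (p' a).G) ∧ GoodPar (e₁ a) (e₂ a) (p a).G ∧
        GoodPar (e₁ a) (e₂ a) (p' a).G) (fun a => ¬ Nonempty ((p a).G ≃* (p' a).G)) := by
  refine Btw.bind (mv_pairs hp hp' h1 h2 hx hx' hG hG' hM hM') ?_
  let B : Type := {q : Σ a, List ((Fin (p a).1 → Fr (p' a).1) × (Fin (p' a).1 → Fr (p a).1)) //
    Nonempty ((p q.1).G ≃* (p' q.1).G) → ∃ y ∈ q.2, ∃ u₀ v₀, Compat (p q.1).S (p' q.1).S u₀ v₀ ∧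
      (∀ i, y.1 i * (u₀ (FreeGroup.of i))⁻¹ ∈ (p' q.1).N (e₁ q.1) (e₂ q.1)) ∧
        ∀ i, y.2 i * (v₀ (FreeGroup.of i))⁻¹ ∈ (p q.1).N (e₁ q.1) (e₂ q.1)}
  have hl : CS (fun q : B => q.1.2) := CS.id.val.ssnd
  let C : Type := {r : Σ q : B, (Fin (p q.1.1).1 → Fr (p' q.1.1).1) ×
    (Fin (p' q.1.1).1 → Fr (p q.1.1).1) // r.2 ∈ r.1.1.2}
  have h0 : CS (fun r : C => r.1.1.1.1) := CS.id.val.sfst.val.sfst
  have hy : CS (fun r : C => r.1.2) := CS.id.val.ssnd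
  have key := btw_pair (hp.comp h0) (hp'.comp h0) (h1.comp h0) (h2.comp h0) (hx.comp h0)
    (hx'.comp h0) hy.fst hy.snd (fun r => hG _) (fun r => hG' _) (fun r => hM _) (fun r => hM' _)
  refine (Btw.allMem (L := fun q _ => ¬ Nonempty ((p q.1.1).G ≃* (p' q.1.1).G) ∧
      GoodPar (e₁ q.1.1) (e₂ q.1.1) (p q.1.1).G ∧ GoodPar (e₁ q.1.1) (e₂ q.1.1) (p' q.1.1).G)
    (H := fun q y => ¬ ∃ u₀ v₀, Compat (p q.1.1).S (p' q.1.1).S u₀ v₀ ∧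
      (∀ i, y.1 i * (u₀ (FreeGroup.of i))⁻¹ ∈ (p' q.1.1).N (e₁ q.1.1) (e₂ q.1.1)) ∧
        ∀ i, y.2 i * (v₀ (FreeGroup.of i))⁻¹ ∈ (p q.1.1).N (e₁ q.1.1) (e₂ q.1.1))
    hl key).mono (fun q _ h _ _ => h) (fun q _ h hI => ?_)
  obtain ⟨y, hy, h'⟩ := q.2 hI
  exact h y hy h'

end

set_option synthInstance.maxSize 2000 in
theorem cs_nonIso : CS (fun a : PP => ¬ Nonempty (a.1.1.G ≃* a.1.2.G)) := by
  let T : PP → Type := fun a => (ℕ × ℕ) × Mk a.1.1.1 × Mk a.1.2.1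
  have hE : Enum T := by
    aesop (config := { terminal := true, enableSimp := false, maxRuleApplications := 3000, maxRuleApplicationDepth := 70, assumptionTransparency := .reducible }) (rule_sets := [-default, -builtin, Restrict]) (erase CS.mapp, CS.mlam) (add safe 1 (by dsimp only [T]))
  have ha : CS (fun q : Σ a, T a => q.1.1) := CS.id.sfst.val
  have ht : CS (fun q : Σ a, T a => q.2) := CS.id.ssnd
  have hM : CS (fun q : Σ a, T a => q.1.1.1.Mark q.2.1.1 q.2.1.2 q.2.2.1 ∧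
      q.1.1.2.Mark q.2.1.1 q.2.1.2 q.2.2.2) :=
    (cs_presMark ha.fst ht.fst.fst ht.fst.snd ht.snd.fst fun q => q.1.2.1).and
      (cs_presMark ha.snd ht.fst.fst ht.fst.snd ht.snd.snd fun q => q.1.2.2)
  let B : Type := {q : Σ a, T a // q.1.1.1.Mark q.2.1.1 q.2.1.2 q.2.2.1 ∧
      q.1.1.2.Mark q.2.1.1 q.2.1.2 q.2.2.2}
  have hv : CS (fun q : B => q.1) := CS.id.val
  have key := btw_marked (ha.comp hv).fst (ha.comp hv).snd (ht.comp hv).fst.fst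
    (ht.comp hv).fst.snd (ht.comp hv).snd.fst (ht.comp hv).snd.snd (fun q => q.1.1.2.1)
    (fun q => q.1.1.2.2) (fun q => q.2.1) (fun q => q.2.2)
  refine Btw.to_cs ((Btw.ex
    (L := fun a (x : T a) => ∃ _ : a.1.1.Mark x.1.1 x.1.2 x.2.1 ∧ a.1.2.Mark x.1.1 x.1.2 x.2.2,
      ¬ Nonempty (a.1.1.G ≃* a.1.2.G) ∧ GoodPar x.1.1 x.1.2 a.1.1.G ∧ GoodPar x.1.1 x.1.2 a.1.2.G)
    (H := fun a (x : T a) => ∃ _ : a.1.1.Mark x.1.1 x.1.2 x.2.1 ∧ a.1.2.Mark x.1.1 x.1.2 x.2.2,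
      ¬ Nonempty (a.1.1.G ≃* a.1.2.G)) hE (Btw.sub hM key)).mono ?_ ?_)
  · rintro ⟨⟨p, p'⟩, hG, hG'⟩ - hI
    obtain ⟨e, he⟩ := p.2.2.2.goodPar
    obtain ⟨e', he'⟩ := p'.2.2.2.goodPar
    obtain ⟨f, hf⟩ := he (max e e') (le_max_left _ _)
    obtain ⟨f', hf'⟩ := he' (max e e') (le_max_right _ _)
    have g := hf (max f f') (le_max_left _ _)
    have g' := hf' (max f f') (le_max_right _ _)
    obtain ⟨x, hx⟩ := Pres.exists_mark g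
    obtain ⟨x', hx'⟩ := Pres.exists_mark g'
    exact ⟨((max e e', max f f'), x, x'), ⟨hx, hx'⟩, hI, g, g'⟩
  · rintro a - ⟨x, -, h⟩
    exact h

end Pool.Agent.P.MP_257122_al.X
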